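import Pool.Agent.H47.FD.D0

/-!
# A1a: Rosenthal's lemma
-/

set_option autoImplicit false

namespace Pool.Agent.H47.FD

private theorem ros_aux (ε : ℝ) (hε : 0 < ε) (n : ℕ) : ∀ (a : ℕ → ℕ → ℝ), (∀ i j, 0 ≤ a i j) →
    (∀ i (F : Finset ℕ), ∑ j ∈ F, a i j ≤ n * ε) →
    ∃ k : ℕ → ℕ, StrictMono k ∧ ∀ i (F : Finset ℕ), ∑ j ∈ F.erase i, a (k i) (k j) ≤ ε := by
  induction n with
  | zero =>
    intro a ha hM
    refine ⟨id, strictMono_id, fun i F => ?_⟩
    have := hM i (F.erase i)
    simp only [Nat.cast_zero, zero_mul] at this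
    exact this.trans hε.le
  | succ n ih =>
    intro a ha hM
    by_cases hp : ∃ p : ℕ, ∀ i (F : Finset ℕ), ∑ j ∈ F.erase i, a (Nat.pair p i) (Nat.pair p j) ≤ ε
    · obtain ⟨p, hp⟩ := hp
      exact ⟨fun q => Nat.pair p q, fun q q' h => Nat.pair_lt_pair_right p h, hp⟩
    · push Not at hp
      choose i F hF using hp
      let m : ℕ → ℕ := fun p => Nat.pair p (i p)
      have hm : Function.Injective m := by
        intro p q h
        have := congrArg (fun x => (Nat.unpair x).1) h
        simpa [m] using this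
      obtain ⟨φ, hφ, hmφ⟩ := Filter.strictMono_subseq_of_tendsto_atTop hm.nat_tendsto_atTop
      obtain ⟨k', hk', hs⟩ := ih (fun s t => a (m (φ s)) (m (φ t))) (fun s t => ha _ _) (by
        intro s G
        have h1 := hM (m (φ s)) (((F (φ s)).erase (i (φ s))).image (fun j => Nat.pair (φ s) j) ∪ G.image (fun t => m (φ t)))
        have hdis : Disjoint (((F (φ s)).erase (i (φ s))).image (fun j => Nat.pair (φ s) j)) (G.image (fun t => m (φ t))) := by
          rw [Finset.disjoint_left]
          intro x hx hx2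
          obtain ⟨j, hj, rfl⟩ := Finset.mem_image.1 hx
          obtain ⟨t, ht, h2⟩ := Finset.mem_image.1 hx2
          have h3 := congrArg Nat.unpair h2
          simp only [m, Nat.unpair_pair, Prod.mk.injEq] at h3
          have h4 : j = i (φ s) := by rw [← h3.2, h3.1]
          exact (Finset.mem_erase.1 hj).1 h4
        rw [Finset.sum_union hdis, Finset.sum_image, Finset.sum_image] at h1
        · have h5 := hF (φ s)
          push_cast at h1
          have h6 : ∑ x ∈ (F (φ s)).erase (i (φ s)), a (Nat.pair (φ s) (i (φ s))) (Nat.pair (φ s) x) =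
            ∑ x ∈ (F (φ s)).erase (i (φ s)), a (m (φ s)) (Nat.pair (φ s) x) := rfl
          rw [h6] at h5
          linarith
        · intro x _ y _ h
          exact hmφ.injective h
        · intro x _ y _ h
          have := congrArg (fun x => (Nat.unpair x).2) h
          simpa using this)
      exact ⟨fun q => m (φ (k' q)), hmφ.comp hk', hs⟩

/-- ROW A1a. Induction on `n` with `M ≤ n ε` (`M`, `a` arbitrary). `n = 0`: `k = id`. Step: for `p : ℕ` the map `q ↦ Nat.pair p q` is strictly monotone
(`Nat.pair_lt_pair_right`). If for some `p` the assertion holds with `k = Nat.pair p`, we are done. Otherwise for each `p` there are `i p` and a finite `F p` with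
`ε < ∑_{j ∈ F p \ {i p}} a (Nat.pair p (i p)) (Nat.pair p j)`. The sequence `m p = Nat.pair p (i p)` is injective; take `φ` strictly monotone with `m ∘ φ` strictly
monotone (`Function.Injective.nat_tendsto_atTop`, `Filter.strictMono_subseq_of_tendsto_atTop`). For `a' s t = a (m (φ s)) (m (φ t))` and a finite `F`: `m (φ t) ≠ Nat.pair (φ s) j` for
`j ≠ i (φ s)`, so `∑_{t ∈ F} a' s t ≤ M - ε ≤ n ε` (images of the two index sets are disjoint, both maps are injective). Apply the induction hypothesis to `a'` and compose. -/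
theorem rosenthal (a : ℕ → ℕ → ℝ) (M ε : ℝ) (hε : 0 < ε) (ha : ∀ i j, 0 ≤ a i j)
    (hM : ∀ i (F : Finset ℕ), ∑ j ∈ F, a i j ≤ M) :
    ∃ k : ℕ → ℕ, StrictMono k ∧ ∀ i (F : Finset ℕ), ∑ j ∈ F.erase i, a (k i) (k j) ≤ ε := by
  obtain ⟨n, hn⟩ := exists_nat_ge (M / ε)
  refine ros_aux ε hε n a ha (fun i F => (hM i F).trans ?_)
  rwa [div_le_iff₀ hε] at hn

end Pool.Agent.H47.FD
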