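import Pool.Agent.H47.FD.D0

/-!
# A1b: the operator from c_0 defined by a weakly unconditionally Cauchy series
-/

set_option autoImplicit false

open Filter Topology

namespace Pool.Agent.H47.FD

variable {X : Type*} [NormedAddCommGroup X] [NormedSpace ℝ X]

/-- ROW A1b1. Take `s n = 1` if `0 ≤ φ (y n)`, else `-1`; then `∑ |φ (y n)| = φ (∑ s n • y n)`. -/
theorem WUC.sum_abs {y : ℕ → X} {M : ℝ} (h : WUC y M) (φ : X →L[ℝ] ℝ) (hφ : ‖φ‖ ≤ 1)
    (F : Finset ℕ) : ∑ n ∈ F, |φ (y n)| ≤ M := by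
  classical
  let s : ℕ → ℝ := fun n => if 0 ≤ φ (y n) then 1 else -1
  have hs : ∀ n, s n = 1 ∨ s n = -1 := by
    intro n
    by_cases h0 : 0 ≤ φ (y n)
    · exact Or.inl (if_pos h0)
    · exact Or.inr (if_neg h0)
  have h1 : ∀ n, |φ (y n)| = s n * φ (y n) := by
    intro n
    by_cases h0 : 0 ≤ φ (y n)
    · have : s n = 1 := if_pos h0
      rw [this, one_mul, abs_of_nonneg h0]
    · have : s n = -1 := if_neg h0
      rw [this, abs_of_neg (not_le.mp h0)]
      ring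
  have h2 : ∑ n ∈ F, |φ (y n)| = φ (∑ n ∈ F, s n • y n) := by
    rw [map_sum]
    refine Finset.sum_congr rfl fun n _ => ?_
    rw [h1 n, map_smul, smul_eq_mul]
  rw [h2]
  have h3 := h F s hs
  calc φ (∑ n ∈ F, s n • y n) ≤ |φ (∑ n ∈ F, s n • y n)| := le_abs_self _
    _ ≤ ‖φ‖ * ‖∑ n ∈ F, s n • y n‖ := φ.le_opNorm _
    _ ≤ 1 * ‖∑ n ∈ F, s n • y n‖ := mul_le_mul_of_nonneg_right hφ (norm_nonneg _)
    _ ≤ M := by rw [one_mul]; exact h3

/-- ROW A1b2. Hahn-Banach (`exists_dual_vector''`) and `sum_abs`. -/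
theorem WUC.sum_le {y : ℕ → X} {M : ℝ} (h : WUC y M) (F : Finset ℕ) (a : ℕ → ℝ) (A : ℝ)
    (hA : ∀ n ∈ F, |a n| ≤ A) (hA0 : 0 ≤ A) : ‖∑ n ∈ F, a n • y n‖ ≤ M * A := by
  obtain ⟨g, hg1, hg2⟩ := exists_dual_vector'' ℝ (∑ n ∈ F, a n • y n)
  have h1 : ‖∑ n ∈ F, a n • y n‖ = ∑ n ∈ F, a n * g (y n) := by
    have h0 : g (∑ n ∈ F, a n • y n) = ‖∑ n ∈ F, a n • y n‖ := by simpa using hg2
    rw [← h0, map_sum]
    exact Finset.sum_congr rfl fun n _ => by rw [map_smul, smul_eq_mul]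
  rw [h1]
  calc ∑ n ∈ F, a n * g (y n) ≤ ∑ n ∈ F, A * |g (y n)| := by
        refine Finset.sum_le_sum fun n hn => ?_
        calc a n * g (y n) ≤ |a n * g (y n)| := le_abs_self _
          _ = |a n| * |g (y n)| := abs_mul _ _
          _ ≤ A * |g (y n)| := mul_le_mul_of_nonneg_right (hA n hn) (abs_nonneg _)
    _ = A * ∑ n ∈ F, |g (y n)| := by rw [Finset.mul_sum]
    _ ≤ A * M := mul_le_mul_of_nonneg_left (h.sum_abs g hg1 F) hA0
    _ = M * A := mul_comm _ _

theorem WUC.nonneg {y : ℕ → X} {M : ℝ} (h : WUC y M) : 0 ≤ M := by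
  have := h ∅ (fun _ => 1) (fun _ => Or.inl rfl)
  simpa using this

theorem a1b_abs_le (f : ZeroAtInftyContinuousMap ℕ ℝ) (k : ℕ) : |f k| ≤ ‖f‖ := by
  rw [← ZeroAtInftyContinuousMap.norm_toBCF_eq_norm]
  exact f.toBCF.norm_coe_le_norm k

theorem a1b_finite (f : ZeroAtInftyContinuousMap ℕ ℝ) {η : ℝ} (hη : 0 < η) :
    {n : ℕ | ¬ |f n| < η}.Finite := by
  have h1 : Tendsto (f : ℕ → ℝ) cofinite (𝓝 0) := by
    have := f.zero_at_infty'
    rwa [Filter.cocompact_eq_cofinite] at this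
  have h2 := (Metric.tendsto_nhds.mp h1) η hη
  have h3 : ∀ᶠ n in cofinite, |f n| < η := by
    filter_upwards [h2] with n hn
    rwa [Real.dist_eq, sub_zero] at hn
  exact h3

theorem WUC.summable_c0 [CompleteSpace X] {y : ℕ → X} {M : ℝ} (h : WUC y M)
    (f : ZeroAtInftyContinuousMap ℕ ℝ) : Summable fun n => f n • y n := by
  rw [summable_iff_vanishing_norm]
  intro ε hε
  have hM := h.nonneg
  have hη : 0 < ε / (M + 1) := by positivity
  refine ⟨(a1b_finite f hη).toFinset, fun t ht => ?_⟩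
  have h1 : ∀ n ∈ t, |f n| ≤ ε / (M + 1) := by
    intro n hn
    have h2 : n ∉ (a1b_finite f hη).toFinset := Finset.disjoint_left.mp ht hn
    rw [Set.Finite.mem_toFinset] at h2
    have h3 : |f n| < ε / (M + 1) := by
      by_contra h4
      exact h2 h4
    exact h3.le
  refine lt_of_le_of_lt (h.sum_le t (fun n => f n) _ h1 hη.le) ?_
  rw [← mul_div_assoc, div_lt_iff₀ (by positivity)]
  nlinarith

/-- ROW A1b3. `T f = ∑' n, f n • y n`; summable by `summable_iff_vanishing_norm`, `sum_le` and `f n → 0` (see Pool/Agent/H45/GS/C0.lean for `|f k| ≤ ‖f‖` and `cocompact = cofinite`);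
`‖T f‖ ≤ M ‖f‖`; `LinearMap.mkContinuous`. -/
theorem WUC.exists_T [CompleteSpace X] {y : ℕ → X} {M : ℝ} (h : WUC y M) :
    ∃ T : ZeroAtInftyContinuousMap ℕ ℝ →L[ℝ] X,
      ∀ f : ZeroAtInftyContinuousMap ℕ ℝ, HasSum (fun n => f n • y n) (T f) := by
  let L : ZeroAtInftyContinuousMap ℕ ℝ →ₗ[ℝ] X :=
    { toFun := fun f => ∑' n, f n • y n
      map_add' := by
        intro f g
        rw [← (h.summable_c0 f).tsum_add (h.summable_c0 g)]
        refine tsum_congr fun n => ?_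
        rw [ZeroAtInftyContinuousMap.add_apply, add_smul]
      map_smul' := by
        intro c f
        rw [RingHom.id_apply, ← (h.summable_c0 f).tsum_const_smul]
        refine tsum_congr fun n => ?_
        rw [ZeroAtInftyContinuousMap.smul_apply, smul_eq_mul, mul_smul] }
  refine ⟨L.mkContinuous M fun f => ?_, fun f => ?_⟩
  · have h1 : HasSum (fun n => f n • y n) (L f) := (h.summable_c0 f).hasSum
    refine le_of_tendsto h1.norm (Eventually.of_forall fun F => ?_)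
    exact h.sum_le F (fun n => f n) ‖f‖ (fun n _ => a1b_abs_le f n) (norm_nonneg _)
  · rw [LinearMap.mkContinuous_apply]
    exact (h.summable_c0 f).hasSum

end Pool.Agent.H47.FD
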