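import Pool.Agent.H47.FD.A1a
import Pool.Agent.H47.FD.A1b

/-!
# A1c: copies of c_0
-/

set_option autoImplicit false

open Filter Topology

namespace Pool.Agent.H47.FD

variable {X : Type*} [NormedAddCommGroup X] [NormedSpace ℝ X]

theorem A1c_norm_le {f : ZeroAtInftyContinuousMap ℕ ℝ} {C : ℝ} (hC : 0 ≤ C)
    (h : ∀ k, |f k| ≤ C) : ‖f‖ ≤ C := by
  rw [← ZeroAtInftyContinuousMap.norm_toBCF_eq_norm]
  exact (BoundedContinuousFunction.norm_le hC).2 h

theorem A1c_abs_le (f : ZeroAtInftyContinuousMap ℕ ℝ) (k : ℕ) : |f k| ≤ ‖f‖ := by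
  rw [← ZeroAtInftyContinuousMap.norm_toBCF_eq_norm]
  exact f.toBCF.norm_coe_le_norm k

theorem A1c_wuc {y : ℕ → X} {M : ℝ} (h : WUC y M) {k : ℕ → ℕ} (hk : Function.Injective k) :
    WUC (fun n => y (k n)) M := by
  classical
  intro F s hs
  have h1 := h (F.image k) (Function.extend k s (fun _ => 1)) (by
    intro m
    by_cases hm : ∃ n, k n = m
    · obtain ⟨n, rfl⟩ := hm
      rw [hk.extend_apply]
      exact hs n
    · rw [Function.extend_apply' _ _ _ hm]
      exact Or.inl rfl)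
  rw [Finset.sum_image (fun a _ b _ e => hk e)] at h1
  simpa only [hk.extend_apply] using h1

/-- ROW A1c. Take `φ n` with `‖φ n‖ ≤ 1`, `φ n (y n) = ‖y n‖` (`exists_dual_vector''`); `a i j = |φ i (y j)|` has row sums `≤ M` (`WUC.sum_abs`). `rosenthal` with `d / 2` gives `k`;
`y ∘ k` is `WUC` (image of the finite set under the injective `k`; extend the signs by 1 off the range). `T` from `WUC.exists_T` for `y ∘ k`. For each `i`:
`‖T f‖ ≥ |φ (k i) (T f)| ≥ d |f i| - (d / 2) ‖f‖` (pass to the limit over finite sets `F ∋ i` in `HasSum`), hence, taking the supremum over `i`, `‖T f‖ ≥ (d / 2) ‖f‖` (`‖f‖` is the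
supremum of `|f i|`: `c0_norm_le` in Pool/Agent/H45/GS/C0.lean). -/
theorem exists_c0 [CompleteSpace X] {y : ℕ → X} {M d : ℝ} (h : WUC y M) (hd : 0 < d)
    (hy : ∀ n, d ≤ ‖y n‖) :
    ∃ T : ZeroAtInftyContinuousMap ℕ ℝ →L[ℝ] X, ∃ c : ℝ, 0 < c ∧
      ∀ f : ZeroAtInftyContinuousMap ℕ ℝ, c * ‖f‖ ≤ ‖T f‖ := by
  classical
  choose φ hφ1 hφ2 using fun n => exists_dual_vector'' ℝ (y n)
  obtain ⟨k, hk, hR⟩ := rosenthal (fun i j => |φ i (y j)|) M (d / 2) (by positivity)
    (fun i j => abs_nonneg _) (fun i F => h.sum_abs (φ i) (hφ1 i) F)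
  obtain ⟨T, hT⟩ := (A1c_wuc h hk.injective).exists_T
  refine ⟨T, d / 2, by positivity, fun f => ?_⟩
  have key : ∀ i, d * |f i| ≤ ‖T f‖ + d / 2 * ‖f‖ := by
    intro i
    have hS := (hT f).mapL (φ (k i))
    have hlim : Tendsto (fun F : Finset ℕ => |∑ n ∈ F, φ (k i) (f n • y (k n))|) atTop
        (𝓝 |φ (k i) (T f)|) := Filter.Tendsto.abs hS
    have hev : ∀ᶠ F : Finset ℕ in atTop, d * |f i| - d / 2 * ‖f‖ ≤
        |∑ n ∈ F, φ (k i) (f n • y (k n))| := by
      filter_upwards [eventually_ge_atTop {i}] with F hF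
      have hi : i ∈ F := hF (Finset.mem_singleton_self i)
      rw [← Finset.add_sum_erase F _ hi]
      have h1 : |∑ n ∈ F.erase i, φ (k i) (f n • y (k n))| ≤ d / 2 * ‖f‖ := by
        calc |∑ n ∈ F.erase i, φ (k i) (f n • y (k n))|
            ≤ ∑ n ∈ F.erase i, |φ (k i) (f n • y (k n))| := Finset.abs_sum_le_sum_abs _ _
          _ ≤ ∑ n ∈ F.erase i, ‖f‖ * |φ (k i) (y (k n))| := by
            refine Finset.sum_le_sum fun n _ => ?_
            rw [map_smul, smul_eq_mul, abs_mul]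
            exact mul_le_mul_of_nonneg_right (A1c_abs_le f n) (abs_nonneg _)
          _ = ‖f‖ * ∑ n ∈ F.erase i, |φ (k i) (y (k n))| := by rw [Finset.mul_sum]
          _ ≤ ‖f‖ * (d / 2) := mul_le_mul_of_nonneg_left (hR i F) (norm_nonneg f)
          _ = d / 2 * ‖f‖ := mul_comm _ _
      have h2 : d * |f i| ≤ |φ (k i) (f i • y (k i))| := by
        have e : |φ (k i) (y (k i))| = ‖y (k i)‖ := by
          rw [hφ2]
          simp
        rw [map_smul, smul_eq_mul, abs_mul, e, mul_comm d]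
        exact mul_le_mul_of_nonneg_left (hy (k i)) (abs_nonneg _)
      have h3 : |φ (k i) (f i • y (k i))| ≤ |φ (k i) (f i • y (k i)) +
          ∑ n ∈ F.erase i, φ (k i) (f n • y (k n))| +
          |∑ n ∈ F.erase i, φ (k i) (f n • y (k n))| := by
        generalize φ (k i) (f i • y (k i)) = A
        generalize ∑ n ∈ F.erase i, φ (k i) (f n • y (k n)) = B
        have := abs_sub (A + B) B
        rwa [add_sub_cancel_right] at this
      linarith
    have h4 := ge_of_tendsto hlim hev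
    have h5 : |φ (k i) (T f)| ≤ ‖T f‖ := by
      have h6 := (φ (k i)).le_opNorm (T f)
      rw [Real.norm_eq_abs] at h6
      refine h6.trans ?_
      calc ‖φ (k i)‖ * ‖T f‖ ≤ 1 * ‖T f‖ :=
            mul_le_mul_of_nonneg_right (hφ1 (k i)) (norm_nonneg _)
        _ = ‖T f‖ := one_mul _
    linarith
  have hle : ‖f‖ ≤ (‖T f‖ + d / 2 * ‖f‖) / d := A1c_norm_le (by positivity) (fun i => by
    rw [le_div_iff₀ hd]
    linarith [key i])
  rw [le_div_iff₀ hd] at hle
  linarith

end Pool.Agent.H47.FD
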