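import Pool.Agent.H47.FD.A1c

/-!
# A2: unconditional convergence and compactness of the set of signed sums
-/

set_option autoImplicit false

open Filter Topology

namespace Pool.Agent.H47.FD

variable {X : Type*} [NormedAddCommGroup X] [NormedSpace ℝ X]

/-- sums of `y` over pairwise disjoint finite sets are `WUC` -/
theorem WUC.blocks {y : ℕ → X} {M : ℝ} (h : WUC y M) (b : ℕ → Finset ℕ)
    (hb : ∀ k l, k ≠ l → Disjoint (b k) (b l)) : WUC (fun k => ∑ i ∈ b k, y i) M := by
  classical
  intro F s hs
  let s' : ℕ → ℝ := fun i => if hi : ∃ k, i ∈ b k then s hi.choose else 1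
  have hs' : ∀ i, s' i = 1 ∨ s' i = -1 := by
    intro i
    simp only [s']
    split_ifs with hi
    · exact hs _
    · exact Or.inl rfl
  have e1 : ∀ k, ∀ i ∈ b k, s' i = s k := by
    intro k i hi
    have hex : ∃ k, i ∈ b k := ⟨k, hi⟩
    have h1 : s' i = s hex.choose := by simp only [s', dif_pos hex]
    have h2 : hex.choose = k := by
      by_contra hne
      exact Finset.disjoint_left.1 (hb _ _ hne) hex.choose_spec hi
    rw [h1, h2]
  have e2 : ∑ k ∈ F, s k • ∑ i ∈ b k, y i = ∑ i ∈ F.biUnion b, s' i • y i := by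
    rw [Finset.sum_biUnion]
    · refine Finset.sum_congr rfl fun k _ => ?_
      rw [Finset.smul_sum]
      refine Finset.sum_congr rfl fun i hi => ?_
      rw [e1 k i hi]
    · intro k _ l _ hkl
      exact hb k l hkl
  have h3 := h (F.biUnion b) s' hs'
  rw [← e2] at h3
  exact h3

/-- ROW A2a. By contradiction with `summable_iff_vanishing_norm`: there is `e > 0` such that every finite set `S` has a finite `t` disjoint from `S` with `e ≤ ‖∑_{n ∈ t} y n‖`. Choose inductively
pairwise disjoint finite sets `t k` (`t k` disjoint from the union of the earlier ones; e.g. `exists_seq_of_forall_finset_exists`, or `Nat.rec` with the union as the state). `z k = ∑_{n ∈ t k} y n` is `WUC` with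
the same `M` (a signed sum of the `z k` is a signed sum of the `y n` over the disjoint union). `exists_c0` for `z`. -/
theorem WUC.summable [CompleteSpace X] {y : ℕ → X} {M : ℝ} (h : WUC y M)
    (h0 : ¬ ∃ T : ZeroAtInftyContinuousMap ℕ ℝ →L[ℝ] X, ∃ c : ℝ, 0 < c ∧
      ∀ f : ZeroAtInftyContinuousMap ℕ ℝ, c * ‖f‖ ≤ ‖T f‖) : Summable y := by
  classical
  by_contra hns
  rw [summable_iff_vanishing_norm] at hns
  push Not at hns
  obtain ⟨e, he, hS⟩ := hns
  choose t ht1 ht2 using hS
  let U : ℕ → Finset ℕ := fun n => Nat.rec ∅ (fun _ u => u ∪ t u) n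
  have hU : ∀ n, U (n + 1) = U n ∪ t (U n) := fun n => rfl
  have hmono : Monotone U := monotone_nat_of_le_succ fun n => by
    rw [hU]
    exact Finset.subset_union_left
  have hlt : ∀ k l, k < l → Disjoint (t (U k)) (t (U l)) := by
    intro k l hkl
    have h1 : t (U k) ⊆ U l := by
      refine subset_trans ?_ (hmono (Nat.succ_le_of_lt hkl))
      rw [Nat.succ_eq_add_one, hU]
      exact Finset.subset_union_right
    exact (Finset.disjoint_of_subset_right h1 (ht1 (U l))).symm
  have hb : ∀ k l, k ≠ l → Disjoint (t (U k)) (t (U l)) := by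
    intro k l hkl
    rcases lt_or_gt_of_ne hkl with h1 | h1
    · exact hlt k l h1
    · exact (hlt l k h1).symm
  exact h0 (exists_c0 (h.blocks (fun k => t (U k)) hb) he fun n => ht2 (U n))

/-- ROW A2b. `Z` is totally bounded: for `e > 0` take (`summable_iff_vanishing_norm`) `m` such that `‖∑_{n ∈ t} y n‖ < e / 2` for `t` disjoint from `range m`; then
`‖∑_{n ∈ t} s n • y n‖ < e` (split `t` by the sign), so `Z` is within `e` of the finite set of the signed sums over `range n`, `n ≤ m` (a finite set: images of `Finset.pi` or of the sign vectors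
`Fin m → {1, -1}`; or by induction: the set `Z n` of signed sums over `range n` is finite, since `Z (n + 1) ⊆ (Z n + y n) ∪ (Z n - y n)`). `X` is complete, so the closure is compact. -/
theorem isCompact_sums [CompleteSpace X] {y : ℕ → X} (hs : Summable y) :
    IsCompact (closure {z : X | ∃ (n : ℕ) (s : ℕ → ℝ), (∀ i, s i = 1 ∨ s i = -1) ∧
      z = ∑ i ∈ Finset.range n, s i • y i}) := by
  classical
  refine TotallyBounded.isCompact_of_isClosed (TotallyBounded.closure ?_) isClosed_closure
  rw [Metric.totallyBounded_iff]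
  intro e he
  obtain ⟨S, hS⟩ := summable_iff_vanishing_norm.1 hs (e / 2) (by linarith)
  obtain ⟨m, hm⟩ : ∃ m, S ⊆ Finset.range m :=
    ⟨S.sup id + 1, fun i hi => Finset.mem_range.2 (Nat.lt_succ_of_le (Finset.le_sup (f := id) hi))⟩
  let A : Finset X := (Finset.range (m + 1) ×ˢ (Finset.range m).powerset).image
    fun p => ∑ i ∈ Finset.range p.1, (if i ∈ p.2 then (1 : ℝ) else -1) • y i
  -- signed sums over `range n`, `n ≤ m`
  have hA : ∀ n ≤ m, ∀ s : ℕ → ℝ, (∀ i, s i = 1 ∨ s i = -1) →
      ∑ i ∈ Finset.range n, s i • y i ∈ A := by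
    intro n hn s hs1
    refine Finset.mem_image.2 ⟨(n, (Finset.range m).filter fun i => s i = 1), ?_, ?_⟩
    · rw [Finset.mem_product]
      exact ⟨Finset.mem_range.2 (Nat.lt_succ_of_le hn), Finset.mem_powerset.2 (Finset.filter_subset _ _)⟩
    · refine Finset.sum_congr rfl fun i hi => ?_
      have hi' : i ∈ Finset.range m := Finset.mem_range.2 ((Finset.mem_range.1 hi).trans_le hn)
      by_cases h1 : s i = 1
      · rw [if_pos (Finset.mem_filter.2 ⟨hi', h1⟩), h1]
      · have h2 : i ∉ (Finset.range m).filter fun i => s i = 1 :=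
          fun h2 => h1 (Finset.mem_filter.1 h2).2
        rw [if_neg h2, (hs1 i).resolve_left h1]
  -- small tails
  have hT : ∀ (t : Finset ℕ) (s : ℕ → ℝ), (∀ i, s i = 1 ∨ s i = -1) → Disjoint t (Finset.range m) →
      ‖∑ i ∈ t, s i • y i‖ < e := by
    intro t s hs1 ht
    have h1 : ∑ i ∈ t, s i • y i = ∑ i ∈ t.filter (fun i => s i = 1), y i -
        ∑ i ∈ t.filter (fun i => ¬ s i = 1), y i := by
      rw [← Finset.sum_filter_add_sum_filter_not t (fun i => s i = 1), sub_eq_add_neg,
        ← Finset.sum_neg_distrib]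
      congr 1
      · refine Finset.sum_congr rfl fun i hi => ?_
        rw [(Finset.mem_filter.1 hi).2, one_smul]
      · refine Finset.sum_congr rfl fun i hi => ?_
        rw [(hs1 i).resolve_left (Finset.mem_filter.1 hi).2, neg_smul, one_smul]
    have h2 : ‖∑ i ∈ t.filter (fun i => s i = 1), y i‖ < e / 2 :=
      hS _ (Finset.disjoint_of_subset_left (Finset.filter_subset _ _)
        (Finset.disjoint_of_subset_right hm ht))
    have h3 : ‖∑ i ∈ t.filter (fun i => ¬ s i = 1), y i‖ < e / 2 :=
      hS _ (Finset.disjoint_of_subset_left (Finset.filter_subset _ _)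
        (Finset.disjoint_of_subset_right hm ht))
    rw [h1]
    have h4 := norm_sub_le (∑ i ∈ t.filter (fun i => s i = 1), y i)
      (∑ i ∈ t.filter (fun i => ¬ s i = 1), y i)
    linarith
  refine ⟨(A : Set X), A.finite_toSet, ?_⟩
  rintro z ⟨n, s, hs1, rfl⟩
  rw [Set.mem_iUnion₂]
  rcases le_or_gt n m with hn | hn
  · exact ⟨_, hA n hn s hs1, Metric.mem_ball_self he⟩
  · refine ⟨∑ i ∈ Finset.range m, s i • y i, hA m le_rfl s hs1, ?_⟩
    rw [Metric.mem_ball, dist_eq_norm]
    have h1 : ∑ i ∈ Finset.range n, s i • y i - ∑ i ∈ Finset.range m, s i • y i =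
        ∑ i ∈ Finset.range n \ Finset.range m, s i • y i := by
      rw [sub_eq_iff_eq_add, Finset.sum_sdiff (Finset.range_mono hn.le)]
    rw [h1]
    exact hT _ s hs1 Finset.sdiff_disjoint

end Pool.Agent.H47.FD
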