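import Pool.Agent.H47.FD.D0

/-!
# A3a: the function `max (N - 1/2) 0 ^ 3`
-/

set_option autoImplicit false

open Filter Topology

namespace Pool.Agent.H47.FD

open Pool.Agent.H47.SR Pool.Agent.H47.SS

variable {X : Type*} [NormedAddCommGroup X] [NormedSpace ℝ X]

/-- The positive part of `N - 1/2`. -/
noncomputable def mx (N : X → ℝ) (x : X) : ℝ := max (N x - 1 / 2) 0

/-- The first derivative of `mx N ^ 3`. -/
noncomputable def mD (N : X → ℝ) (x : X) : X →L[ℝ] ℝ := (3 * mx N x ^ 2) • fderiv ℝ N x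

/-- The second derivative of `mx N ^ 3`. -/
noncomputable def mB (N : X → ℝ) (x : X) : X →L[ℝ] X →L[ℝ] ℝ :=
  (6 * mx N x) • (fderiv ℝ N x).smulRight (fderiv ℝ N x) +
    (3 * mx N x ^ 2) • fderiv ℝ (fderiv ℝ N) x

/-- ROW A3a1. `ConvexOn.sup`, `ConvexOn.pow`. -/
theorem mx_convex {N : X → ℝ} (hN : EqNorm N) : ConvexOn ℝ Set.univ (fun x => mx N x ^ 3) := by
  have h1 : ConvexOn ℝ Set.univ (fun x : X => N x - 1 / 2) := by
    refine ⟨convex_univ, fun x _ y _ a b ha hb hab => ?_⟩
    have h2 := hN.2.1 (a • x) (b • y)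
    rw [hN.2.2, hN.2.2, abs_of_nonneg ha, abs_of_nonneg hb] at h2
    simp only [smul_eq_mul]
    nlinarith
  have h2 : ConvexOn ℝ Set.univ (fun _ : X => (0 : ℝ)) := convexOn_const 0 convex_univ
  have h3 : ConvexOn ℝ Set.univ (mx N) := h1.sup h2
  exact h3.pow (fun x _ => le_max_right _ _) 3

/-- ROW A3a2. -/
theorem mx_bdd {N : X → ℝ} (hN : EqNorm N) : mx N (0 : X) ^ 3 = 0 ∧
    ∃ R : ℝ, ∀ x, mx N x ^ 3 ≤ 1 → ‖x‖ ≤ R := by
  have h0 : N 0 = 0 := by
    have := hN.2.2 0 (0 : X)
    rw [zero_smul, abs_zero, zero_mul] at this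
    exact this
  constructor
  · unfold mx
    rw [h0, max_eq_right (by norm_num)]
    norm_num
  · obtain ⟨c, C, hc, hC, h1⟩ := hN.1
    refine ⟨3 / 2 / c, fun x hx => ?_⟩
    have h2 : mx N x ≤ 1 := by
      by_contra h3
      push Not at h3
      have : 1 < mx N x ^ 3 := one_lt_pow₀ h3 (by norm_num)
      linarith
    have h3 : N x - 1 / 2 ≤ mx N x := le_max_left _ _
    rw [le_div_iff₀ hc]
    have := (h1 x).1
    linarith

/-- ROW A3a3. At `0` the quotients are `O(t ^ 2)`, `O(t)`; elsewhere locally a polynomial. -/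
theorem hasDerivAt_pos (t : ℝ) : HasDerivAt (fun t : ℝ => max t 0 ^ 3) (3 * max t 0 ^ 2) t ∧
    HasDerivAt (fun t : ℝ => 3 * max t 0 ^ 2) (6 * max t 0) t := by
  rcases lt_trichotomy t 0 with ht | ht | ht
  · have e : ∀ᶠ s : ℝ in 𝓝 t, s < 0 := eventually_lt_nhds ht
    rw [max_eq_right ht.le]
    constructor
    · have h1 : HasDerivAt (fun _ : ℝ => (0 : ℝ)) (3 * (0 : ℝ) ^ 2) t := by
        have := hasDerivAt_const t (0 : ℝ)
        norm_num
        exact this
      refine h1.congr_of_eventuallyEq ?_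
      filter_upwards [e] with s hs
      rw [max_eq_right hs.le]; norm_num
    · have h1 : HasDerivAt (fun _ : ℝ => (0 : ℝ)) (6 * (0 : ℝ)) t := by
        have := hasDerivAt_const t (0 : ℝ)
        norm_num
        exact this
      refine h1.congr_of_eventuallyEq ?_
      filter_upwards [e] with s hs
      rw [max_eq_right hs.le]; norm_num
  · subst ht
    rw [max_self, ← hasDerivWithinAt_univ, ← hasDerivWithinAt_univ, ← Set.Iic_union_Ici (a := (0 : ℝ))]
    have hc3 : HasDerivAt (fun s : ℝ => s ^ 3) (3 * (0 : ℝ) ^ 2) 0 := by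
      have := hasDerivAt_pow 3 (0 : ℝ)
      norm_num at this ⊢
      exact this
    have hc2 : HasDerivAt (fun s : ℝ => 3 * s ^ 2) (6 * (0 : ℝ)) 0 := by
      have := (hasDerivAt_pow 2 (0 : ℝ)).const_mul 3
      norm_num at this ⊢
      exact this
    constructor
    · refine HasDerivWithinAt.union ?_ ?_
      · have h1 : HasDerivWithinAt (fun _ : ℝ => (0 : ℝ)) (3 * (0 : ℝ) ^ 2) (Set.Iic 0) 0 := by
          have := hasDerivWithinAt_const (0 : ℝ) (Set.Iic 0) (0 : ℝ)
          norm_num
          exact this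
        refine h1.congr (fun s hs => ?_) ?_
        · rw [max_eq_right (Set.mem_Iic.1 hs)]; norm_num
        · rw [max_self]; norm_num
      · refine hc3.hasDerivWithinAt.congr (fun s hs => ?_) ?_
        · rw [max_eq_left (Set.mem_Ici.1 hs)]
        · rw [max_self]
    · refine HasDerivWithinAt.union ?_ ?_
      · have h1 : HasDerivWithinAt (fun _ : ℝ => (0 : ℝ)) (6 * (0 : ℝ)) (Set.Iic 0) 0 := by
          have := hasDerivWithinAt_const (0 : ℝ) (Set.Iic 0) (0 : ℝ)
          norm_num
          exact this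
        refine h1.congr (fun s hs => ?_) ?_
        · rw [max_eq_right (Set.mem_Iic.1 hs)]; norm_num
        · rw [max_self]; norm_num
      · refine hc2.hasDerivWithinAt.congr (fun s hs => ?_) ?_
        · rw [max_eq_left (Set.mem_Ici.1 hs)]
        · rw [max_self]
  · have e : ∀ᶠ s : ℝ in 𝓝 t, 0 < s := eventually_gt_nhds ht
    rw [max_eq_left ht.le]
    constructor
    · have h1 : HasDerivAt (fun s : ℝ => s ^ 3) (3 * t ^ 2) t := by
        have := hasDerivAt_pow 3 t
        norm_num at this ⊢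
        exact this
      refine h1.congr_of_eventuallyEq ?_
      filter_upwards [e] with s hs
      rw [max_eq_left hs.le]
    · have h1 : HasDerivAt (fun s : ℝ => 3 * s ^ 2) (6 * t) t := by
        have := (hasDerivAt_pow 2 t).const_mul 3
        have e2 : (3 : ℝ) * (((2 : ℕ) : ℝ) * t ^ (2 - 1)) = 6 * t := by norm_num; ring
        rw [e2] at this
        exact this
      refine h1.congr_of_eventuallyEq ?_
      filter_upwards [e] with s hs
      rw [max_eq_left hs.le]

/-- ROW A3a4. If `N x < 1 / 2` both functions are locally 0 (and so are the derivatives, `mx N x = 0`). If `1 / 4 < N x` then `x ≠ 0`, `hasFDerivAt_of` (SR/A1) and the chain rule and product rule.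
(See `hasFDerivAt_root` in Pool/Agent/H47/SS/S6.lean for the second derivative.) -/
theorem hasFDerivAt_mx {N : X → ℝ} (hN : EqNorm N) (hC : ContDiffOn ℝ 2 N {x : X | x ≠ 0})
    (x : X) : HasFDerivAt (fun x => mx N x ^ 3) (mD N x) x ∧ HasFDerivAt (mD N) (mB N x) x := by
  have h0 : N 0 = 0 := by
    have := hN.2.2 0 (0 : X)
    rw [zero_smul, abs_zero, zero_mul] at this
    exact this
  by_cases hx : N x < 1 / 2
  · have hm : ∀ y : X, N y < 1 / 2 → mx N y = 0 := fun y hy => by
      unfold mx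
      exact max_eq_right (by linarith)
    obtain ⟨c, C, hc, hC', h1⟩ := hN.1
    have hev : ∀ᶠ y in 𝓝 x, N y < 1 / 2 := by
      have hr : 0 < (1 / 2 - N x) / C := div_pos (by linarith) hC'
      filter_upwards [Metric.ball_mem_nhds x hr] with y hy
      rw [Metric.mem_ball, dist_eq_norm, lt_div_iff₀ hC'] at hy
      have h2 := hN.2.1 (y - x) x
      rw [sub_add_cancel] at h2
      have h3 := (h1 (y - x)).2
      nlinarith
    have hD0 : mD N x = 0 := by
      unfold mD
      rw [hm x hx]; norm_num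
    have hB0 : mB N x = 0 := by
      unfold mB
      exact s1_zero_smul_add (G := X →L[ℝ] X →L[ℝ] ℝ) _ _ (by rw [hm x hx]; ring)
        (by rw [hm x hx]; ring) _ _
    rw [hD0, hB0]
    constructor
    · refine (hasFDerivAt_const (0 : ℝ) x).congr_of_eventuallyEq ?_
      filter_upwards [hev] with y hy
      rw [hm y hy]; norm_num
    · refine (hasFDerivAt_const (0 : X →L[ℝ] ℝ) x).congr_of_eventuallyEq ?_
      filter_upwards [hev] with y hy
      unfold mD
      rw [hm y hy]; norm_num
  · have hx0 : x ≠ 0 := by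
      rintro rfl
      rw [h0] at hx
      exact hx (by norm_num)
    obtain ⟨h1, h2⟩ := hasFDerivAt_of hC hx0
    obtain ⟨p1, p2⟩ := hasDerivAt_pos (N x - 1 / 2)
    have h3 : HasFDerivAt (fun y => N y - 1 / 2) (fderiv ℝ N x) x := h1.sub_const (1 / 2)
    constructor
    · exact HasDerivAt.comp_hasFDerivAt x p1 h3
    · have h4' := HasDerivAt.comp_hasFDerivAt x p2 h3
      have h4 : HasFDerivAt (fun y => 3 * mx N y ^ 2) ((6 * mx N x) • fderiv ℝ N x) x := h4'
      have h5 := h4.smul h2
      have e2 : (3 * mx N x ^ 2) • fderiv ℝ (fderiv ℝ N) x +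
          ((6 * mx N x) • fderiv ℝ N x).smulRight (fderiv ℝ N x) = mB N x := by
        refine ContinuousLinearMap.ext fun u => ContinuousLinearMap.ext fun v => ?_
        change (3 * mx N x ^ 2) * fderiv ℝ (fderiv ℝ N) x u v +
          ((6 * mx N x) * fderiv ℝ N x u) * fderiv ℝ N x v =
          (6 * mx N x) * (fderiv ℝ N x u * fderiv ℝ N x v) +
          (3 * mx N x ^ 2) * fderiv ℝ (fderiv ℝ N) x u v
        ring
      rw [e2] at h5
      exact h5

end Pool.Agent.H47.FD
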