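import Pool.Agent.H47.FD.A3a

/-!
# A3b: local uniform continuity of the second derivative
-/

set_option autoImplicit false

open Filter Topology

namespace Pool.Agent.H47.FD

open Pool.Agent.H47.SR Pool.Agent.H47.SS

variable {X : Type*} [NormedAddCommGroup X] [NormedSpace ℝ X]

/-- Bounded and uniformly continuous on `S`. -/
def BU {G : Type*} [NormedAddCommGroup G] (g : X → G) (S : Set X) : Prop :=
  UOn g S ∧ ∃ C : ℝ, ∀ x ∈ S, ‖g x‖ ≤ C

private theorem a3b_comb {A G H : Type*} [NormedAddCommGroup A] [NormedAddCommGroup G]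
    [NormedAddCommGroup H] {F : X → H} {a : X → A} {g : X → G} {S : Set X} {C C' : ℝ} (hC : 0 ≤ C)
    (hC' : 0 ≤ C') (h : ∀ x ∈ S, ∀ y ∈ S, ‖F x - F y‖ ≤ C * ‖a x - a y‖ + C' * ‖g x - g y‖)
    (ha : UOn a S) (hg : UOn g S) : UOn F S := by
  intro ε hε
  obtain ⟨δ1, hδ1, h1⟩ := ha (ε / (2 * (C + 1))) (by positivity)
  obtain ⟨δ2, hδ2, h2⟩ := hg (ε / (2 * (C' + 1))) (by positivity)
  refine ⟨min δ1 δ2, lt_min hδ1 hδ2, fun x hx y hy hxy => (h x hx y hy).trans ?_⟩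
  have k1 := h1 x hx y hy (hxy.trans (min_le_left _ _))
  have k2 := h2 x hx y hy (hxy.trans (min_le_right _ _))
  have e1 : C * ‖a x - a y‖ ≤ ε / 2 := by
    calc C * ‖a x - a y‖ ≤ (C + 1) * (ε / (2 * (C + 1))) :=
          mul_le_mul (by linarith) k1 (norm_nonneg _) (by linarith)
      _ = ε / 2 := by field_simp
  have e2 : C' * ‖g x - g y‖ ≤ ε / 2 := by
    calc C' * ‖g x - g y‖ ≤ (C' + 1) * (ε / (2 * (C' + 1))) :=
          mul_le_mul (by linarith) k2 (norm_nonneg _) (by linarith)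
      _ = ε / 2 := by field_simp
  linarith

private theorem BU.bd {G : Type*} [NormedAddCommGroup G] {g : X → G} {S : Set X} (h : BU g S) :
    ∃ C : ℝ, 0 ≤ C ∧ ∀ x ∈ S, ‖g x‖ ≤ C := by
  obtain ⟨-, C, hC⟩ := h
  exact ⟨|C|, abs_nonneg _, fun x hx => (hC x hx).trans (le_abs_self _)⟩

private theorem BU.congr' {G : Type*} [NormedAddCommGroup G] {f g : X → G} {S : Set X}
    (h : BU g S) (hfg : ∀ x ∈ S, f x = g x) : BU f S := by
  obtain ⟨h1, C, hC⟩ := h
  refine ⟨fun ε hε => ?_, C, fun x hx => by rw [hfg x hx]; exact hC x hx⟩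
  obtain ⟨δ, hδ, h2⟩ := h1 ε hε
  exact ⟨δ, hδ, fun x hx y hy hxy => by rw [hfg x hx, hfg y hy]; exact h2 x hx y hy hxy⟩

private theorem a3b_mono {G : Type*} [NormedAddCommGroup G] {g : X → G} {S S' : Set X}
    (h : BU g S') (hS : S ⊆ S') : BU g S :=
  ⟨h.1.mono hS, h.2.imp fun _ hC x hx => hC x (hS hx)⟩

/-- ROW A3b1. -/
theorem BU.smul {G : Type*} [NormedAddCommGroup G] [NormedSpace ℝ G] {s : X → ℝ} {g : X → G}
    {S : Set X} (hs : BU s S) (hg : BU g S) : BU (fun x => s x • g x) S := by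
  obtain ⟨C1, hC1, h1⟩ := hs.bd
  obtain ⟨C2, hC2, h2⟩ := hg.bd
  refine ⟨a3b_comb hC2 hC1 (fun x hx y hy => ?_) hs.1 hg.1, C1 * C2, fun x hx => ?_⟩
  · have e : s x • g x - s y • g y = (s x - s y) • g x + s y • (g x - g y) := by
      rw [sub_smul, smul_sub]; abel
    rw [e]
    refine (norm_add_le _ _).trans ?_
    rw [norm_smul, norm_smul]
    have k1 := mul_le_mul_of_nonneg_left (h2 x hx) (norm_nonneg (s x - s y))
    have k2 := mul_le_mul_of_nonneg_right (h1 y hy) (norm_nonneg (g x - g y))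
    rw [mul_comm C2]
    exact add_le_add k1 k2
  · rw [norm_smul]
    exact mul_le_mul (h1 x hx) (h2 x hx) (norm_nonneg _) hC1

/-- ROW A3b2. -/
theorem BU.add {G : Type*} [NormedAddCommGroup G] {f g : X → G}
    {S : Set X} (hf : BU f S) (hg : BU g S) : BU (fun x => f x + g x) S := by
  obtain ⟨C1, hC1, h1⟩ := hf.bd
  obtain ⟨C2, hC2, h2⟩ := hg.bd
  refine ⟨a3b_comb zero_le_one zero_le_one (fun x hx y hy => ?_) hf.1 hg.1, C1 + C2,
    fun x hx => (norm_add_le _ _).trans (add_le_add (h1 x hx) (h2 x hx))⟩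
  have e : f x + g x - (f y + g y) = (f x - f y) + (g x - g y) := by abel
  rw [e, one_mul, one_mul]
  exact norm_add_le _ _

/-- ROW A3b3. `smulR_sub` (Pool/Agent/H47/SS/S6.lean). -/
theorem BU.smulRight {G : Type*} [NormedAddCommGroup G] [NormedSpace ℝ G] {a : X → X →L[ℝ] ℝ}
    {g : X → G} {S : Set X} (ha : BU a S) (hg : BU g S) :
    BU (fun x => (a x).smulRight (g x)) S := by
  obtain ⟨C1, hC1, h1⟩ := ha.bd
  obtain ⟨C2, hC2, h2⟩ := hg.bd
  have hn : ∀ (f : X →L[ℝ] ℝ) (v : G), ‖f.smulRight v‖ = ‖f‖ * ‖v‖ := fun f v =>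
    ContinuousLinearMap.norm_smulRight_apply f v
  refine ⟨a3b_comb hC2 hC1 (fun x hx y hy => ?_) ha.1 hg.1, C1 * C2, fun x hx => ?_⟩
  · have e : (a x).smulRight (g x) - (a y).smulRight (g y)
        = (a x - a y).smulRight (g x) + (a y).smulRight (g x - g y) := by
      ext z
      simp [sub_smul, smul_sub]
    rw [e]
    refine (norm_add_le _ _).trans ?_
    rw [hn, hn]
    have k1 := mul_le_mul_of_nonneg_left (h2 x hx) (norm_nonneg (a x - a y))
    have k2 := mul_le_mul_of_nonneg_right (h1 y hy) (norm_nonneg (g x - g y))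
    rw [mul_comm C2]
    exact add_le_add k1 k2
  · rw [hn]
    exact mul_le_mul (h1 x hx) (h2 x hx) (norm_nonneg _) hC1

/-- ROW A3b4. A function that is differentiable on a ball with bounded derivative is bounded and Lipschitz there. -/
theorem BU.of_deriv {G : Type*} [NormedAddCommGroup G] [NormedSpace ℝ G] {g : X → G}
    {g' : X → X →L[ℝ] G} {x : X} {r C : ℝ} (h : ∀ y ∈ Metric.ball x r, HasFDerivAt g (g' y) y)
    (hC : ∀ y ∈ Metric.ball x r, ‖g' y‖ ≤ C) : BU g (Metric.ball x r) := by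
  have hL : ∀ y ∈ Metric.ball x r, ∀ z ∈ Metric.ball x r, ‖g y - g z‖ ≤ |C| * ‖y - z‖ := by
    intro y hy z hz
    refine ((convex_ball x r).norm_image_sub_le_of_norm_hasFDerivWithin_le
      (fun w hw => (h w hw).hasFDerivWithinAt) hC hz hy).trans ?_
    exact mul_le_mul_of_nonneg_right (le_abs_self C) (norm_nonneg _)
  refine ⟨fun ε hε => ⟨ε / (|C| + 1), by positivity, fun y hy z hz hyz => ?_⟩,
    ‖g x‖ + |C| * r, fun y hy => ?_⟩
  · refine (hL y hy z hz).trans ?_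
    calc |C| * ‖y - z‖ ≤ (|C| + 1) * (ε / (|C| + 1)) :=
          mul_le_mul (by linarith) hyz (norm_nonneg _) (by positivity)
      _ = ε := by field_simp
  · have hr : 0 < r := lt_of_le_of_lt dist_nonneg (Metric.mem_ball.1 hy)
    have h1 := hL y hy x (Metric.mem_ball_self hr)
    have h2 : ‖y - x‖ ≤ r := by
      rw [← dist_eq_norm]
      exact (Metric.mem_ball.1 hy).le
    have h3 : ‖g y‖ ≤ ‖g x‖ + ‖g y - g x‖ := by
      have := norm_add_le (g x) (g y - g x)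
      rwa [add_sub_cancel] at this
    have h4 := mul_le_mul_of_nonneg_left h2 (abs_nonneg C)
    linarith

private theorem a3b_core {G : Type*} [NormedAddCommGroup G] [NormedSpace ℝ G] {N : X → ℝ}
    (hN : EqNorm N) {g : X → G} (hg : ∀ t : ℝ, 0 < t → ∀ x, g (t • x) = t⁻¹ • g x) {x : X}
    (hx : x ≠ 0) {r0 : ℝ} (hr0 : 0 < r0)
    (hU : UniformContinuousOn g ({y : X | N y = 1} ∩ Metric.ball ((N x)⁻¹ • x) r0)) :
    ∃ r : ℝ, 0 < r ∧ BU g (Metric.ball x r) := by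
  obtain ⟨⟨c, C, hc, hC, hb⟩, htri, hhom⟩ := hN
  have hx0 : 0 < ‖x‖ := norm_pos_iff.2 hx
  have hlip : ∀ y z, |N y - N z| ≤ C * ‖y - z‖ := by
    have h1 : ∀ y z, N y - N z ≤ C * ‖y - z‖ := by
      intro y z
      have k1 := htri (y - z) z
      rw [sub_add_cancel] at k1
      linarith [(hb (y - z)).2]
    intro y z
    rw [abs_le]
    constructor
    · have := h1 z y
      rw [norm_sub_rev] at this
      linarith
    · exact h1 y z
  -- lower bound near x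
  set n0 : ℝ := c * (‖x‖ / 2) with hn0
  have hn0p : 0 < n0 := by positivity
  have hlow : ∀ y ∈ Metric.ball x (‖x‖ / 2), n0 ≤ N y := by
    intro y hy
    rw [Metric.mem_ball, dist_eq_norm] at hy
    have h1 : ‖x‖ ≤ ‖y‖ + ‖y - x‖ := by
      have := norm_sub_le y (y - x)
      rwa [sub_sub_cancel] at this
    have h2 : ‖x‖ / 2 ≤ ‖y‖ := by linarith
    exact (mul_le_mul_of_nonneg_left h2 hc.le).trans (hb y).1
  have hs : BU (fun y => (N y)⁻¹) (Metric.ball x (‖x‖ / 2)) := by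
    refine ⟨fun ε hε => ⟨ε * n0 ^ 2 / C, by positivity, fun y hy z hz hyz => ?_⟩, n0⁻¹,
      fun y hy => ?_⟩
    · have h1 := hlow y hy
      have h2 := hlow z hz
      have p1 : 0 < N y := lt_of_lt_of_le hn0p h1
      have p2 : 0 < N z := lt_of_lt_of_le hn0p h2
      have e : (N y)⁻¹ - (N z)⁻¹ = (N z - N y) / (N y * N z) := by
        field_simp
      rw [Real.norm_eq_abs, e, abs_div, abs_of_pos (mul_pos p1 p2), div_le_iff₀ (mul_pos p1 p2)]
      have h3 : |N z - N y| ≤ ε * n0 ^ 2 := by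
        refine (hlip z y).trans ?_
        rw [norm_sub_rev]
        calc C * ‖y - z‖ ≤ C * (ε * n0 ^ 2 / C) := mul_le_mul_of_nonneg_left hyz hC.le
          _ = ε * n0 ^ 2 := by field_simp
      refine h3.trans (mul_le_mul_of_nonneg_left ?_ hε.le)
      rw [sq]
      exact mul_le_mul h1 h2 hn0p.le p1.le
    · have h1 := hlow y hy
      have p1 : 0 < N y := lt_of_lt_of_le hn0p h1
      rw [Real.norm_eq_abs, abs_of_pos (inv_pos.2 p1)]
      exact inv_anti₀ hn0p h1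
  have hid : BU (fun y : X => y) (Metric.ball x (‖x‖ / 2)) := by
    refine ⟨fun ε hε => ⟨ε, hε, fun y _ z _ h => h⟩, ‖x‖ + ‖x‖ / 2, fun y hy => ?_⟩
    rw [Metric.mem_ball, dist_eq_norm] at hy
    have := norm_add_le x (y - x)
    rw [add_sub_cancel] at this
    linarith
  have hp : BU (fun y : X => (N y)⁻¹ • y) (Metric.ball x (‖x‖ / 2)) := hs.smul hid
  have hxb : x ∈ Metric.ball x (‖x‖ / 2) := Metric.mem_ball_self (half_pos hx0)
  have hN1 : ∀ y ∈ Metric.ball x (‖x‖ / 2), N ((N y)⁻¹ • y) = 1 := by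
    intro y hy
    have p1 : 0 < N y := lt_of_lt_of_le hn0p (hlow y hy)
    rw [hhom, abs_of_pos (inv_pos.2 p1), inv_mul_cancel₀ p1.ne']
  -- bound of g near u
  obtain ⟨δ, hδ, hδ'⟩ := Metric.uniformContinuousOn_iff.1 hU 1 one_pos
  have hu : (N x)⁻¹ • x ∈ {y : X | N y = 1} ∩ Metric.ball ((N x)⁻¹ • x) r0 :=
    ⟨hN1 x hxb, Metric.mem_ball_self hr0⟩
  obtain ⟨δ1, hδ1, hδ1'⟩ := hp.1 (min r0 δ / 2) (half_pos (lt_min hr0 hδ))
  have hr3 : 0 < min (‖x‖ / 2) δ1 := lt_min (half_pos hx0) hδ1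
  refine ⟨min (‖x‖ / 2) δ1, hr3, ?_⟩
  have hsub : Metric.ball x (min (‖x‖ / 2) δ1) ⊆ Metric.ball x (‖x‖ / 2) :=
    Metric.ball_subset_ball (min_le_left _ _)
  have hnear : ∀ y ∈ Metric.ball x (min (‖x‖ / 2) δ1),
      dist ((N y)⁻¹ • y) ((N x)⁻¹ • x) < min r0 δ := by
    intro y hy
    have h1 : ‖y - x‖ ≤ δ1 := by
      rw [← dist_eq_norm]
      exact ((Metric.mem_ball.1 hy).trans_le (min_le_right _ _)).le
    have h2 := hδ1' y (hsub hy) x hxb h1
    rw [dist_eq_norm]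
    have h3 := half_lt_self (lt_min hr0 hδ)
    exact lt_of_le_of_lt h2 h3
  have hset : ∀ y ∈ Metric.ball x (min (‖x‖ / 2) δ1),
      (N y)⁻¹ • y ∈ {y : X | N y = 1} ∩ Metric.ball ((N x)⁻¹ • x) r0 := fun y hy =>
    ⟨hN1 y (hsub hy), Metric.mem_ball.2 ((hnear y hy).trans_le (min_le_left _ _))⟩
  have hgp : BU (fun y => g ((N y)⁻¹ • y)) (Metric.ball x (min (‖x‖ / 2) δ1)) := by
    refine ⟨fun ε hε => ?_, ‖g ((N x)⁻¹ • x)‖ + 1, fun y hy => ?_⟩
    · obtain ⟨δ2, hδ2, hδ2'⟩ := Metric.uniformContinuousOn_iff.1 hU ε hε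
      obtain ⟨δ3, hδ3, hδ3'⟩ := hp.1 (δ2 / 2) (half_pos hδ2)
      refine ⟨δ3, hδ3, fun y hy z hz hyz => ?_⟩
      have h1 := hδ3' y (hsub hy) z (hsub hz) hyz
      have h2 : dist ((N y)⁻¹ • y) ((N z)⁻¹ • z) < δ2 := by
        rw [dist_eq_norm]
        exact lt_of_le_of_lt h1 (half_lt_self hδ2)
      have h3 := hδ2' _ (hset y hy) _ (hset z hz) h2
      rw [dist_eq_norm] at h3
      exact h3.le
    · have h1 := hδ' _ (hset y hy) _ hu ((hnear y hy).trans_le (min_le_right _ _))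
      rw [dist_eq_norm] at h1
      have h2 := norm_add_le (g ((N x)⁻¹ • x)) (g ((N y)⁻¹ • y) - g ((N x)⁻¹ • x))
      rw [add_sub_cancel] at h2
      linarith
  refine BU.congr' ((a3b_mono hs hsub).smul hgp) fun y hy => ?_
  have p1 : 0 < N y := lt_of_lt_of_le hn0p (hlow y (hsub hy))
  have h1 := hg (N y) p1 ((N y)⁻¹ • y)
  rw [smul_smul, mul_inv_cancel₀ p1.ne', one_smul] at h1
  exact h1

/-- ROW A3b5. Let `u = x / N x`; for `y` near `x` `y / N y` is near `u` and on the sphere, `y ↦ y / N y` is Lipschitz near `x`, and `fderiv2_smul` (SR/A1) gives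
`fderiv ℝ (fderiv ℝ N) y = (N y)⁻¹ • fderiv ℝ (fderiv ℝ N) (y / N y)`; both factors are bounded and uniformly continuous near `x` (`BU.smul`). Work with a general normed space `G` for the values:
`g : X → G` with `g (t • x) = t⁻¹ • g x` for `t > 0`. -/
theorem BU_fderiv2 {N : X → ℝ} (hN : EqNorm N) (hL : LocC2 N) {x : X} (hx : x ≠ 0) :
    ∃ r : ℝ, 0 < r ∧ BU (fderiv ℝ (fderiv ℝ N)) (Metric.ball x r) := by
  have p1 : 0 < N x := by
    obtain ⟨⟨c, C, hc, -, hb⟩, -⟩ := hN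
    exact lt_of_lt_of_le (mul_pos hc (norm_pos_iff.2 hx)) (hb x).1
  have h1 : N ((N x)⁻¹ • x) = 1 := by
    rw [hN.2.2, abs_of_pos (inv_pos.2 p1), inv_mul_cancel₀ p1.ne']
  obtain ⟨r0, hr0, hU⟩ := hL.2 _ h1
  exact a3b_core (G := X →L[ℝ] X →L[ℝ] ℝ) hN (fun t ht y => fderiv2_smul hN ht y) hx hr0 hU

end Pool.Agent.H47.FD
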