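import Pool.Agent.H47.FD.A3b

/-!
# A3c: existence of the function `f`
-/

set_option autoImplicit false

open Filter Topology

namespace Pool.Agent.H47.FD

open Pool.Agent.H47.SR Pool.Agent.H47.SS

variable {X : Type*} [NormedAddCommGroup X] [NormedSpace ℝ X]

theorem BU.mono_A3c {G : Type*} [NormedAddCommGroup G] {g : X → G} {S S' : Set X} (h : BU g S')
    (hS : S ⊆ S') : BU g S := by
  obtain ⟨h1, C, hC⟩ := h
  exact ⟨h1.mono hS, C, fun x hx => hC x (hS hx)⟩

theorem BU.const_A3c {G : Type*} [NormedAddCommGroup G] (c : G) (S : Set X) :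
    BU (fun _ : X => c) S := by
  refine ⟨fun ε hε => ⟨1, one_pos, fun x _ y _ _ => ?_⟩, ‖c‖, fun x _ => le_rfl⟩
  rw [sub_self, norm_zero]
  exact hε.le

theorem UOn_of_zero_A3c {G : Type*} [NormedAddCommGroup G] {B : X → G} {S : Set X}
    (h : ∀ y ∈ S, B y = 0) : UOn B S := by
  intro ε hε
  refine ⟨1, one_pos, fun u hu v hv _ => ?_⟩
  rw [h u hu, h v hv, sub_self, norm_zero]
  exact hε.le

theorem smul_add_smul_zero_A3c {G : Type*} [NormedAddCommGroup G] [NormedSpace ℝ G] (g g' : G)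
    (s t : ℝ) (hs : s = 0) (ht : t = 0) : s • g + t • g' = 0 := by
  rw [hs, ht, zero_smul, zero_smul, add_zero]

theorem EqNorm_sub_le_A3c {N : X → ℝ} (hN : EqNorm N) : ∃ C : ℝ, 0 < C ∧ (∀ x, |N x| ≤ C * ‖x‖) ∧
    ∀ x y, |N x - N y| ≤ C * ‖x - y‖ := by
  obtain ⟨⟨c, C, hc, hC, h1⟩, h2, h3⟩ := hN
  have h0 : ∀ x, 0 ≤ N x := fun x => le_trans (mul_nonneg hc.le (norm_nonneg x)) (h1 x).1
  have h4 : ∀ x y, N x - N y ≤ C * ‖x - y‖ := by
    intro x y
    have h5 := h2 (x - y) y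
    rw [sub_add_cancel] at h5
    have h6 := (h1 (x - y)).2
    linarith
  refine ⟨C, hC, fun x => ?_, fun x y => ?_⟩
  · rw [abs_of_nonneg (h0 x)]
    exact (h1 x).2
  · rw [abs_le]
    have h5 := h4 x y
    have h6 := h4 y x
    rw [norm_sub_rev] at h6
    constructor <;> linarith

theorem mx_BU_A3c {N : X → ℝ} (hN : EqNorm N) (x : X) (r : ℝ) :
    BU (mx N) (Metric.ball x r) := by
  obtain ⟨C, hC, h1, h2⟩ := EqNorm_sub_le_A3c hN
  have h3 : ∀ u v : X, |mx N u - mx N v| ≤ C * ‖u - v‖ := by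
    intro u v
    refine le_trans ?_ (h2 u v)
    unfold mx
    have h4 := abs_max_sub_max_le_abs (N u - 1 / 2) (N v - 1 / 2) 0
    have h5 : N u - 1 / 2 - (N v - 1 / 2) = N u - N v := by ring
    rwa [h5] at h4
  refine ⟨fun ε hε => ⟨ε / C, div_pos hε hC, fun u _ v _ huv => ?_⟩, C * (‖x‖ + r), fun u hu => ?_⟩
  · rw [Real.norm_eq_abs]
    refine (h3 u v).trans ?_
    rw [le_div_iff₀ hC] at huv
    linarith
  · rw [Real.norm_eq_abs]
    have h4 : |mx N u| ≤ |N u| := by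
      unfold mx
      rw [abs_of_nonneg (le_max_right _ _)]
      refine max_le ?_ (abs_nonneg _)
      have := le_abs_self (N u)
      linarith
    refine (h4.trans (h1 u)).trans ?_
    have h5 : ‖u‖ ≤ ‖x‖ + r := by
      have h6 : ‖u - x‖ < r := by
        rw [Metric.mem_ball, dist_eq_norm] at hu
        exact hu
      have h7 : ‖u‖ ≤ ‖u - x‖ + ‖x‖ := by
        have h8 := norm_add_le (u - x) x
        rwa [sub_add_cancel] at h8
      linarith
    exact mul_le_mul_of_nonneg_left h5 hC.le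

/-- ROW A3c. `f = mx N ^ 3`, `D = mD N`, `B = mB N`. `luc`: near `0`, where `N < 1 / 2`, `mB N = 0`. If `x ≠ 0` take `r` from `BU_fderiv2` with `0 ∉ ball x r`; `BU.of_deriv` for `fderiv ℝ N`; `mx N` is
Lipschitz; `BU.smul`, `BU.smulRight`, `BU.add`. -/
theorem exists_LF {N : X → ℝ} (hN : EqNorm N) (hL : LocC2 N) :
    ∃ (f : X → ℝ) (D : X → X →L[ℝ] ℝ) (B : X → X →L[ℝ] X →L[ℝ] ℝ) (R : ℝ), LF f D B R := by
  obtain ⟨R, hR⟩ := (mx_bdd hN).2
  refine ⟨fun x => mx N x ^ 3, mD N, mB N, R, ⟨fun x => (hasFDerivAt_mx hN hL.1 x).1,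
    fun x => (hasFDerivAt_mx hN hL.1 x).2, mx_convex hN, (mx_bdd hN).1, fun x => ?_, hR⟩⟩
  by_cases hx : x = 0
  · obtain ⟨C, hC, h1, -⟩ := EqNorm_sub_le_A3c hN
    refine ⟨1 / (2 * C), by positivity, ?_⟩
    have h0 : ∀ y ∈ Metric.ball x (1 / (2 * C)), mB N y = 0 := by
      intro y hy
      have h2 : ‖y‖ < 1 / (2 * C) := by
        rw [hx, mem_ball_zero_iff] at hy
        exact hy
      have h3 : mx N y = 0 := by
        unfold mx
        refine max_eq_right ?_
        have h4 := (le_abs_self (N y)).trans (h1 y)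
        have h5 : C * ‖y‖ ≤ C * (1 / (2 * C)) := mul_le_mul_of_nonneg_left h2.le hC.le
        have h6 : C * (1 / (2 * C)) = 1 / 2 := by
          field_simp
        linarith
      exact smul_add_smul_zero_A3c (G := X →L[ℝ] X →L[ℝ] ℝ) _ _ _ _ (by rw [h3]; ring) (by rw [h3]; ring)
    exact UOn_of_zero_A3c h0
  · obtain ⟨r₁, hr₁, hb⟩ := BU_fderiv2 hN hL hx
    have hx0 : 0 < ‖x‖ := norm_pos_iff.2 hx
    set r : ℝ := min r₁ ‖x‖ with hr
    have hr0 : 0 < r := lt_min hr₁ hx0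
    refine ⟨r, hr0, ?_⟩
    have hS : Metric.ball x r ⊆ Metric.ball x r₁ := Metric.ball_subset_ball (min_le_left _ _)
    have hne : ∀ y ∈ Metric.ball x r, y ≠ 0 := by
      intro y hy hy0
      rw [Metric.mem_ball, hy0, dist_eq_norm, zero_sub, norm_neg] at hy
      exact absurd hy (not_lt.2 (min_le_right _ _))
    have b2 := hb.mono_A3c hS
    have b1 : BU (fderiv ℝ N) (Metric.ball x r) := by
      obtain ⟨-, C, hC⟩ := b2
      refine BU.of_deriv (g' := fderiv ℝ (fderiv ℝ N)) (C := C) ?_ hC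
      intro y hy
      have h3 : ContDiffAt ℝ 2 N y := hL.1.contDiffAt (isOpen_ne.mem_nhds (hne y hy))
      have h4 : ContDiffAt ℝ 1 (fderiv ℝ N) y := h3.fderiv_right (by norm_num)
      exact (h4.differentiableAt (by norm_num)).hasFDerivAt
    have b0 := mx_BU_A3c hN x r
    have c6 : BU (fun y => 6 * mx N y) (Metric.ball x r) :=
      BU.smul (BU.const_A3c (6 : ℝ) _) b0
    have c3 : BU (fun y => 3 * mx N y ^ 2) (Metric.ball x r) := by
      have h3 := BU.smul (BU.const_A3c (3 : ℝ) (Metric.ball x r)) (BU.smul b0 b0)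
      have h4 : (fun y => 3 * mx N y ^ 2) = fun y => (3 : ℝ) • (mx N y • mx N y) := by
        funext y
        rw [smul_eq_mul, smul_eq_mul, sq]
      rw [h4]
      exact h3
    have b3 := BU.smulRight b1 b1
    exact (BU.add (BU.smul c6 b3) (BU.smul c3 b2)).1

end Pool.Agent.H47.FD
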