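import Pool.Agent.H47.FD.D0

/-!
# A4a: the second differences of `f`
-/

set_option autoImplicit false

open Filter Topology

namespace Pool.Agent.H47.FD

variable {X : Type*} [NormedAddCommGroup X] [NormedSpace ℝ X]

/-- The second difference of `f` at `z` plus the square of the derivative. -/
noncomputable def qq (f : X → ℝ) (D : X → X →L[ℝ] ℝ) (z h : X) : ℝ :=
  f (z + h) + f (z - h) - 2 * f z + D z h ^ 2

/-- ROW A4a1. A convex differentiable function lies above its tangents (one variable: `f (z + t h) - f z ≤ t (f (z + h) - f z)`, divide by `t → 0+`; compare `sub_grad` in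
Pool/Agent/H47/SR/A1.lean). -/
theorem tangent_le {f : X → ℝ} {f' : X →L[ℝ] ℝ} {z : X} (hf : ConvexOn ℝ Set.univ f)
    (h : HasFDerivAt f f' z) (v : X) : f z + f' v ≤ f (z + v) := by
  have hl : HasFDerivAt f f' (z + (0 : ℝ) • v) := by
    rw [zero_smul, add_zero]
    exact h
  have hd : HasDerivAt (fun t : ℝ => z + t • v) v 0 := by
    have h1 := ((hasDerivAt_id (0 : ℝ)).smul_const v).const_add z
    rw [one_smul] at h1
    exact h1
  have hg : HasDerivAt (fun t : ℝ => f (z + t • v)) (f' v) 0 := hl.comp_hasDerivAt (0 : ℝ) hd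
  have ht := hg.tendsto_slope_zero_right
  have hev : ∀ᶠ t in 𝓝[>] (0 : ℝ), t⁻¹ • (f (z + (0 + t) • v) - f (z + (0 : ℝ) • v)) ≤ f (z + v) - f z := by
    have h1 : ∀ᶠ t in 𝓝[>] (0 : ℝ), t < 1 := nhdsWithin_le_nhds (gt_mem_nhds one_pos)
    filter_upwards [self_mem_nhdsWithin, h1] with t ht0 ht1
    have ht0' : 0 < t := ht0
    rw [zero_add, zero_smul, add_zero, smul_eq_mul, inv_mul_le_iff₀ ht0']
    have h2 := hf.2 (Set.mem_univ z) (Set.mem_univ (z + v)) (show (0 : ℝ) ≤ 1 - t by linarith) ht0'.le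
      (show (1 - t) + t = 1 by ring)
    have h3 : (1 - t) • z + t • (z + v) = z + t • v := by
      rw [sub_smul, one_smul, smul_add]
      abel
    rw [h3, smul_eq_mul, smul_eq_mul] at h2
    linarith
  have h4 := le_of_tendsto ht hev
  linarith

/-- ROW A4a2. With `tangent_le` at `z - h` side: `f (z - h) ≥ f z - D z h`, `0 ≤` second difference; so if `q < e ^ 2` then `|D z h| ≤ e` and `f (z ± h) ≤ f z + e ^ 2 + e`. -/
theorem le_of_qq {f : X → ℝ} {D : X → X →L[ℝ] ℝ} {B : X → X →L[ℝ] X →L[ℝ] ℝ} {R : ℝ}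
    (hf : LF f D B R) (z h : X) {e : ℝ} (he : 0 < e) (he1 : e ≤ 1) (hq : qq f D z h < e ^ 2) :
    f (z + h) ≤ f z + 2 * e ∧ f (z - h) ≤ f z + 2 * e := by
  have h1 := tangent_le hf.cvx (hf.d1 z) h
  have h2 := tangent_le hf.cvx (hf.d1 z) (-h)
  rw [map_neg, ← sub_eq_add_neg] at h2
  rw [← sub_eq_add_neg] at h2
  unfold qq at hq
  have h3 : D z h ^ 2 < e ^ 2 := by linarith
  have h4 := abs_lt_of_sq_lt_sq' h3 he.le
  have h5 : e ^ 2 ≤ e := by nlinarith
  have h6 : 0 ≤ D z h ^ 2 := sq_nonneg _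
  constructor <;> linarith [h4.1, h4.2]

theorem qq_nonneg {f : X → ℝ} {D : X → X →L[ℝ] ℝ} {B : X → X →L[ℝ] X →L[ℝ] ℝ} {R : ℝ}
    (hf : LF f D B R) (z h : X) : 0 ≤ qq f D z h := by
  have h1 := tangent_le hf.cvx (hf.d1 z) h
  have h2 := tangent_le hf.cvx (hf.d1 z) (-h)
  rw [map_neg, ← sub_eq_add_neg] at h2
  rw [← sub_eq_add_neg] at h2
  unfold qq
  have h6 : 0 ≤ D z h ^ 2 := sq_nonneg _
  linarith

theorem a4a_uon_add {G : Type*} [NormedAddCommGroup G] {A B : X → G} {S : Set X} (hA : UOn A S) (hB : UOn B S) :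
    UOn (fun x => A x + B x) S := by
  intro ε hε
  obtain ⟨δ, hδ, h1⟩ := hA (ε / 2) (by positivity)
  obtain ⟨δ', hδ', h2⟩ := hB (ε / 2) (by positivity)
  refine ⟨min δ δ', lt_min hδ hδ', fun x hx y hy hxy => ?_⟩
  have h3 := h1 x hx y hy (hxy.trans (min_le_left _ _))
  have h4 := h2 x hx y hy (hxy.trans (min_le_right _ _))
  have h5 : A x + B x - (A y + B y) = (A x - A y) + (B x - B y) := by abel
  show ‖A x + B x - (A y + B y)‖ ≤ ε
  rw [h5]
  exact (norm_add_le _ _).trans (by linarith)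

theorem a4a_uon_const {G : Type*} [NormedAddCommGroup G] (a : G) (S : Set X) : UOn (fun _ : X => a) S := by
  intro ε hε
  refine ⟨1, one_pos, fun x _ y _ _ => ?_⟩
  show ‖a - a‖ ≤ ε
  rw [sub_self, norm_zero]
  exact hε.le

theorem a4a_uon_sum {G : Type*} [NormedAddCommGroup G] {ι : Type*} (F : Finset ι) {A : ι → X → G} {S : Set X}
    (hA : ∀ i ∈ F, UOn (A i) S) : UOn (fun x => ∑ i ∈ F, A i x) S := by
  classical
  induction F using Finset.induction_on with
  | empty => simpa using a4a_uon_const (X := X) (0 : G) S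
  | insert a F ha ih =>
    have h1 := a4a_uon_add (hA a (Finset.mem_insert_self a F)) (ih (fun i hi => hA i (Finset.mem_insert_of_mem hi)))
    simpa [Finset.sum_insert ha] using h1

theorem a4a_uon_shift {G : Type*} [NormedAddCommGroup G] {B : X → G} {z : X} {ρ : ℝ} (hB : UOn B (Metric.ball z ρ)) :
    UOn (fun h => B (z + h)) (Metric.ball 0 ρ) ∧ UOn (fun h => B (z - h)) (Metric.ball 0 ρ) := by
  constructor
  · intro ε hε
    obtain ⟨δ, hδ, h1⟩ := hB ε hε
    refine ⟨δ, hδ, fun x hx y hy hxy => h1 _ ?_ _ ?_ ?_⟩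
    · rw [mem_ball_zero_iff] at hx
      rw [mem_ball_iff_norm, add_sub_cancel_left]
      exact hx
    · rw [mem_ball_zero_iff] at hy
      rw [mem_ball_iff_norm, add_sub_cancel_left]
      exact hy
    · rw [add_sub_add_left_eq_sub]
      exact hxy
  · intro ε hε
    obtain ⟨δ, hδ, h1⟩ := hB ε hε
    refine ⟨δ, hδ, fun x hx y hy hxy => h1 _ ?_ _ ?_ ?_⟩
    · rw [mem_ball_zero_iff] at hx
      rw [mem_ball_iff_norm, sub_sub_cancel_left, norm_neg]
      exact hx
    · rw [mem_ball_zero_iff] at hy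
      rw [mem_ball_iff_norm, sub_sub_cancel_left, norm_neg]
      exact hy
    · rw [sub_sub_sub_cancel_left, norm_sub_rev]
      exact hxy

theorem a4a_shift {G : Type*} [NormedAddCommGroup G] [NormedSpace ℝ G] {f : X → G} {f' : X → X →L[ℝ] G}
    (hf : ∀ x, HasFDerivAt f (f' x) x) (z h : X) :
    HasFDerivAt (fun h => f (z + h)) (f' (z + h)) h ∧ HasFDerivAt (fun h => f (z - h)) (-f' (z - h)) h := by
  constructor
  · have h1 : HasFDerivAt (fun h : X => z + h) (ContinuousLinearMap.id ℝ X) h := (hasFDerivAt_id h).const_add z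
    exact (hf (z + h)).comp h h1
  · have h1 : HasFDerivAt (fun h : X => z - h) (-ContinuousLinearMap.id ℝ X) h := (hasFDerivAt_id h).const_sub z
    have h2 := (hf (z - h)).comp h h1
    rw [ContinuousLinearMap.comp_neg, ContinuousLinearMap.comp_id] at h2
    exact h2

theorem a4a_neg_neg {G : Type*} [NormedAddCommGroup G] [NormedSpace ℝ G] {f : X → G} {f' : X →L[ℝ] G} {x : X}
    (hf : HasFDerivAt f (-f') x) : HasFDerivAt (fun y => -f y) f' x := by
  have h := hf.neg
  rw [neg_neg] at h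
  exact h

theorem a4a_add3 {G : Type*} [NormedAddCommGroup G] [NormedSpace ℝ G] {f g k : X → G} {f' g' k' : X →L[ℝ] G} {x : X}
    (hf : HasFDerivAt f f' x) (hg : HasFDerivAt g g' x) (hk : HasFDerivAt k k' x) :
    HasFDerivAt (fun y => f y + g y + k y) (f' + g' + k') x := (hf.add hg).add hk

theorem a4a_sum {G : Type*} [NormedAddCommGroup G] [NormedSpace ℝ G] {ι : Type*} (F : Finset ι) {f : ι → X → G}
    {f' : ι → X →L[ℝ] G} {x : X} (hf : ∀ i ∈ F, HasFDerivAt (f i) (f' i) x) :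
    HasFDerivAt (fun y => ∑ i ∈ F, f i y) (∑ i ∈ F, f' i) x := HasFDerivAt.fun_sum hf

theorem a4a_lin {G : Type*} [NormedAddCommGroup G] [NormedSpace ℝ G] (l : X →L[ℝ] ℝ) (a : G) (x : X) :
    HasFDerivAt (fun y => (2 * l y) • a) ((2 : ℝ) • l.smulRight a) x := by
  have h := ((2 : ℝ) • l.smulRight a).hasFDerivAt (x := x)
  refine h.congr_of_eventuallyEq (Eventually.of_forall fun y => ?_)
  show (2 * l y) • a = (2 : ℝ) • (l y • a)
  rw [smul_smul]

/-- ROW A4a3. `Q = ∑ z ∈ F, qq f D z`, with the derivatives `∑ z ∈ F, (D (z + h) - D (z - h) + (2 * D z h) • D z)` and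
`∑ z ∈ F, (B (z + h) + B (z - h) + 2 • (D z).smulRight (D z))`. Convexity: sums of convex functions, compositions with the affine maps `h ↦ z ± h`, square of a linear form
(`ConvexOn.pow` needs nonnegativity; use `Even.convexOn_pow` composed with the linear map `D z`). `uc`: if `h, h' ∈ ball 0 ρ` then `z ± h, z ± h' ∈ ball z ρ`, `ρ ≤ r`. -/
theorem exists_LQ {f : X → ℝ} {D : X → X →L[ℝ] ℝ} {B : X → X →L[ℝ] X →L[ℝ] ℝ} {R : ℝ}
    (hf : LF f D B R) (F : Finset X) {ρ c : ℝ} (hρ : 0 < ρ) (hc : 0 < c)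
    (hF : ∀ z ∈ F, UOn B (Metric.ball z ρ))
    (hlow : ∀ h : X, ‖h‖ = ρ → c ≤ ∑ z ∈ F, qq f D z h) :
    ∃ (Q : X → ℝ) (D' : X → X →L[ℝ] ℝ) (B' : X → X →L[ℝ] X →L[ℝ] ℝ), LQ Q D' B' ρ c := by
  refine ⟨fun h => ∑ z ∈ F, qq f D z h, fun h => ∑ z ∈ F, (D (z + h) + -D (z - h) + (2 * D z h) • D z),
    fun h => ∑ z ∈ F, (B (z + h) + B (z - h) + (2 : ℝ) • (D z).smulRight (D z)), ?_, ?_, ?_, ?_, ?_, ?_, hρ, hc, hlow⟩
  · intro h
    apply a4a_sum
    intro z _
    obtain ⟨h1, h2⟩ := a4a_shift hf.d1 z h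
    have h3 : HasFDerivAt (fun y => D z y ^ 2) ((2 * D z h) • D z) h := by
      have h4 := ((D z).hasFDerivAt (x := h)).pow 2
      refine h4.congr_fderiv ?_
      ext k
      simp
    have h5 := (((h1.add h2).sub_const (2 * f z)).add h3)
    exact h5
  · intro h
    apply a4a_sum
    intro z _
    obtain ⟨h1, h2⟩ := a4a_shift hf.d2 z h
    exact a4a_add3 h1 (a4a_neg_neg h2) (a4a_lin (D z) (D z) h)
  · refine ⟨convex_univ, ?_⟩
    intro x _ y _ a b ha hb hab
    show ∑ z ∈ F, qq f D z (a • x + b • y) ≤ a • ∑ z ∈ F, qq f D z x + b • ∑ z ∈ F, qq f D z y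
    rw [smul_eq_mul, smul_eq_mul, Finset.mul_sum, Finset.mul_sum, ← Finset.sum_add_distrib]
    apply Finset.sum_le_sum
    intro z _
    have h1 := hf.cvx.2 (Set.mem_univ (z + x)) (Set.mem_univ (z + y)) ha hb hab
    have h2 := hf.cvx.2 (Set.mem_univ (z - x)) (Set.mem_univ (z - y)) ha hb hab
    have e1 : a • (z + x) + b • (z + y) = z + (a • x + b • y) := by
      have h3 : z = a • z + b • z := by rw [← add_smul, hab, one_smul]
      rw [smul_add, smul_add]
      nth_rewrite 3 [h3]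
      abel
    have e2 : a • (z - x) + b • (z - y) = z - (a • x + b • y) := by
      have h3 : z = a • z + b • z := by rw [← add_smul, hab, one_smul]
      rw [smul_sub, smul_sub]
      nth_rewrite 3 [h3]
      abel
    rw [e1, smul_eq_mul, smul_eq_mul] at h1
    rw [e2, smul_eq_mul, smul_eq_mul] at h2
    have h4 : D z (a • x + b • y) = a * D z x + b * D z y := by
      rw [map_add, map_smul, map_smul, smul_eq_mul, smul_eq_mul]
    unfold qq
    rw [h4]
    have h5 : (a * D z x + b * D z y) ^ 2 ≤ a * D z x ^ 2 + b * D z y ^ 2 := by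
      have hb' : b = 1 - a := by linarith
      subst hb'
      nlinarith [mul_nonneg ha hb, sq_nonneg (D z x - D z y), mul_nonneg (mul_nonneg ha hb) (sq_nonneg (D z x - D z y))]
    have h6 : 2 * f z = a * (2 * f z) + b * (2 * f z) := by rw [← add_mul, hab, one_mul]
    linarith
  · intro h
    show ∑ z ∈ F, qq f D z (-h) = ∑ z ∈ F, qq f D z h
    apply Finset.sum_congr rfl
    intro z _
    unfold qq
    rw [← sub_eq_add_neg, sub_neg_eq_add, map_neg]
    ring
  · show ∑ z ∈ F, qq f D z 0 = 0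
    apply Finset.sum_eq_zero
    intro z _
    unfold qq
    rw [add_zero, sub_zero, map_zero]
    ring
  · apply a4a_uon_sum
    intro z hz
    obtain ⟨h1, h2⟩ := a4a_uon_shift (G := X →L[ℝ] X →L[ℝ] ℝ) (hF z hz)
    exact a4a_uon_add (G := X →L[ℝ] X →L[ℝ] ℝ) (a4a_uon_add (G := X →L[ℝ] X →L[ℝ] ℝ) h1 h2)
      (a4a_uon_const (G := X →L[ℝ] X →L[ℝ] ℝ) _ _)

end Pool.Agent.H47.FD
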