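import Pool.Agent.H47.FD.D0

/-!
# A4b: radii of uniform continuity
-/

set_option autoImplicit false

open Filter Topology

namespace Pool.Agent.H47.FD

variable {X : Type*} [NormedAddCommGroup X] [NormedSpace ℝ X]

/-- ROW A4b1. For `x` let `k x` be the least `k` (`Nat.find`) with `UOn B (ball x (1 / 2 ^ k))`, `r x = 1 / 2 ^ (k x)`. For a compact `K`: by `IsCompact.elim_nhds_subcover` (or `lebesgue_number_lemma_of_metric`)
there is `m` such that every `ball x (1 / 2 ^ m)`, `x ∈ K`, is contained in one of finitely many balls on which `B` is `UOn`; so `k x ≤ m`. -/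
theorem exists_radius {G : Type*} [NormedAddCommGroup G] (B : X → G)
    (h : ∀ x, ∃ r : ℝ, 0 < r ∧ UOn B (Metric.ball x r)) :
    ∃ r : X → ℝ, (∀ x, 0 < r x ∧ UOn B (Metric.ball x (r x))) ∧
      ∀ K : Set X, IsCompact K → ∃ r₀ : ℝ, 0 < r₀ ∧ ∀ x ∈ K, r₀ ≤ r x := by
  classical
  have hk : ∀ x, ∃ k : ℕ, UOn B (Metric.ball x ((1 / 2 : ℝ) ^ k)) := by
    intro x
    obtain ⟨r, hr, hB⟩ := h x
    obtain ⟨k, hk⟩ := exists_pow_lt_of_lt_one hr (by norm_num : (1 / 2 : ℝ) < 1)
    exact ⟨k, hB.mono (Metric.ball_subset_ball hk.le)⟩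
  refine ⟨fun x => (1 / 2 : ℝ) ^ Nat.find (hk x), fun x => ⟨by positivity, Nat.find_spec (hk x)⟩,
    fun K hK => ?_⟩
  choose ρ hρ hBρ using h
  obtain ⟨δ, hδ, hδ'⟩ := lebesgue_number_lemma_of_metric hK
    (c := fun x : X => Metric.ball x (ρ x)) (fun x => Metric.isOpen_ball)
    (fun x _ => Set.mem_iUnion.2 ⟨x, Metric.mem_ball_self (hρ x)⟩)
  obtain ⟨m, hm⟩ := exists_pow_lt_of_lt_one hδ (by norm_num : (1 / 2 : ℝ) < 1)
  refine ⟨(1 / 2 : ℝ) ^ m, by positivity, fun x hx => ?_⟩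
  obtain ⟨i, hi⟩ := hδ' x hx
  have h1 : Nat.find (hk x) ≤ m :=
    Nat.find_min' (hk x) ((hBρ i).mono ((Metric.ball_subset_ball hm.le).trans hi))
  exact pow_le_pow_of_le_one (by norm_num) (by norm_num) h1

/-- ROW A4b2. `∑_{F} s i • y i` is the average of two signed sums over `range n`, `F ⊆ range n` (signs `s` on `F` and `1`, respectively `-1`, on the complement). -/
theorem wuc_of_range {y : ℕ → X} {M : ℝ}
    (h : ∀ (n : ℕ) (s : ℕ → ℝ), (∀ i, s i = 1 ∨ s i = -1) →
      ‖∑ i ∈ Finset.range n, s i • y i‖ ≤ M) : WUC y M := by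
  classical
  intro F s hs
  obtain ⟨n, hn⟩ : ∃ n, F ⊆ Finset.range n := by
    refine ⟨F.sup id + 1, fun i hi => Finset.mem_range.2 (Nat.lt_succ_of_le ?_)⟩
    exact Finset.le_sup (f := id) hi
  have h1 := h n (fun i => if i ∈ F then s i else 1) (fun i => by
    by_cases hi : i ∈ F
    · simpa [hi] using hs i
    · simp [hi])
  have h2 := h n (fun i => if i ∈ F then s i else -1) (fun i => by
    by_cases hi : i ∈ F
    · simpa [hi] using hs i
    · simp [hi])
  have h3 : ∑ i ∈ Finset.range n, (if i ∈ F then s i else (1 : ℝ)) • y i +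
      ∑ i ∈ Finset.range n, (if i ∈ F then s i else (-1 : ℝ)) • y i =
      (2 : ℝ) • ∑ i ∈ F, s i • y i := by
    have hF : ∑ i ∈ F, s i • y i = ∑ i ∈ Finset.range n, if i ∈ F then s i • y i else 0 := by
      rw [← Finset.sum_filter, Finset.filter_mem_eq_inter, Finset.inter_eq_right.2 hn]
    rw [← Finset.sum_add_distrib, hF, Finset.smul_sum]
    refine Finset.sum_congr rfl fun i _ => ?_
    by_cases hi : i ∈ F
    · simp only [hi, if_true]
      rw [two_smul]
    · simp only [hi, if_false]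
      rw [neg_smul, add_neg_cancel, smul_zero]
  have h4 : ‖(2 : ℝ) • ∑ i ∈ F, s i • y i‖ ≤ M + M := by
    rw [← h3]
    exact (norm_add_le _ _).trans (add_le_add h1 h2)
  rw [norm_smul, Real.norm_ofNat] at h4
  linarith

end Pool.Agent.H47.FD
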