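import Pool.Agent.H47.FD.A4a

/-!
# A4c: selection of the sequence
-/

set_option autoImplicit false

open Filter Topology

namespace Pool.Agent.H47.FD

variable {X : Type*} [NormedAddCommGroup X] [NormedSpace ℝ X]

open Classical in
/-- ROW A4c. Choose (`choose!` or `Classical.choose`) for a nonempty finite set `F` and `n` an `h = H F n` with `‖h‖ = ρ F := F.inf' r` and `∑_{z ∈ F} qq f D z h < (1 / 2 ^ (n + 2)) ^ 2`. Define by `Nat.rec` the nonempty finite sets
`F 0 = {0}`, `F (n + 1) = (F n).image (· + h n) ∪ (F n).image (· - h n)`, `h n = H (F n) n`. By induction: `F n` is exactly the set of signed sums over `range n`, and `f z ≤ 1 - 1 / 2 ^ n` on `F n` (`le_of_qq`,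
`qq_nonneg`: each term of the sum is `< e ^ 2` with `e = 1 / 2 ^ (n + 2)`, `2 e = 1 / 2 ^ (n + 1)`). The minimum `‖h n‖ = (F n).inf' r` is attained (`Finset.exists_mem_eq_inf'`). -/
theorem exists_seq {f : X → ℝ} {D : X → X →L[ℝ] ℝ} {B : X → X →L[ℝ] X →L[ℝ] ℝ} {R : ℝ}
    (hf : LF f D B R) (r : X → ℝ) (hr : ∀ x, 0 < r x)
    (hA : ∀ (F : Finset X) (ρ : ℝ), F.Nonempty → 0 < ρ → (∀ z ∈ F, ρ ≤ r z) → ∀ c : ℝ, 0 < c →
      ∃ h : X, ‖h‖ = ρ ∧ ∑ z ∈ F, qq f D z h < c) :
    ∃ y : ℕ → X, (∀ (n : ℕ) (s : ℕ → ℝ), (∀ i, s i = 1 ∨ s i = -1) →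
        f (∑ i ∈ Finset.range n, s i • y i) ≤ 1) ∧
      ∀ n : ℕ, ∃ s : ℕ → ℝ, (∀ i, s i = 1 ∨ s i = -1) ∧
        ‖y n‖ = r (∑ i ∈ Finset.range n, s i • y i) := by
  have step : ∀ (F : Finset X) (n : ℕ), ∃ h : X, F.Nonempty →
      (∃ z ∈ F, ‖h‖ = r z) ∧ ∀ z ∈ F, qq f D z h < ((1 : ℝ) / 2 ^ (n + 2)) ^ 2 := by
    intro F n
    by_cases hF : F.Nonempty
    · obtain ⟨z₀, hz₀, hz₀'⟩ := Finset.exists_mem_eq_inf' hF r
      have hρ : 0 < F.inf' hF r := by
        rw [hz₀']
        exact hr z₀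
      obtain ⟨h, h1, h2⟩ := hA F (F.inf' hF r) hF hρ (fun z hz => Finset.inf'_le r hz)
        (((1 : ℝ) / 2 ^ (n + 2)) ^ 2) (by positivity)
      refine ⟨h, fun _ => ⟨⟨z₀, hz₀, h1.trans hz₀'⟩, fun z hz => lt_of_le_of_lt ?_ h2⟩⟩
      exact Finset.single_le_sum (f := fun z => qq f D z h) (fun w _ => qq_nonneg hf w h) hz
    · exact ⟨0, fun h => absurd h hF⟩
  choose H hH using step
  obtain ⟨FF, hF0, hFs⟩ : ∃ FF : ℕ → Finset X, FF 0 = {0} ∧ ∀ n, FF (n + 1) =
      (FF n).image (fun z => z + H (FF n) n) ∪ (FF n).image (fun z => z - H (FF n) n) :=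
    ⟨fun n => Nat.rec {0} (fun n F => F.image (fun z => z + H F n) ∪ F.image (fun z => z - H F n)) n,
      rfl, fun _ => rfl⟩
  have hne : ∀ n, (FF n).Nonempty := by
    intro n
    induction n with
    | zero => rw [hF0]; exact Finset.singleton_nonempty 0
    | succ n ih =>
      rw [hFs]
      exact (ih.image _).mono Finset.subset_union_left
  have hmem : ∀ n, ∀ s : ℕ → ℝ, (∀ i, s i = 1 ∨ s i = -1) →
      ∑ i ∈ Finset.range n, s i • H (FF i) i ∈ FF n := by
    intro n s hs
    induction n with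
    | zero => rw [hF0, Finset.range_zero, Finset.sum_empty]; exact Finset.mem_singleton_self 0
    | succ n ih =>
      rw [hFs, Finset.sum_range_succ, Finset.mem_union]
      rcases hs n with h | h
      · left
        rw [h, one_smul]
        exact Finset.mem_image.2 ⟨_, ih, rfl⟩
      · right
        rw [h, neg_one_smul, ← sub_eq_add_neg]
        exact Finset.mem_image.2 ⟨_, ih, rfl⟩
  have hsig : ∀ n, ∀ z ∈ FF n, ∃ s : ℕ → ℝ, (∀ i, s i = 1 ∨ s i = -1) ∧
      z = ∑ i ∈ Finset.range n, s i • H (FF i) i := by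
    intro n
    induction n with
    | zero =>
      intro z hz
      rw [hF0, Finset.mem_singleton] at hz
      exact ⟨fun _ => 1, fun _ => Or.inl rfl, by rw [hz, Finset.range_zero, Finset.sum_empty]⟩
    | succ n ih =>
      intro z hz
      rw [hFs, Finset.mem_union, Finset.mem_image, Finset.mem_image] at hz
      have key : ∀ (w : X) (c : ℝ), w ∈ FF n → (c = 1 ∨ c = -1) → z = w + c • H (FF n) n →
          ∃ s : ℕ → ℝ, (∀ i, s i = 1 ∨ s i = -1) ∧
            z = ∑ i ∈ Finset.range (n + 1), s i • H (FF i) i := by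
        intro w c hw hc hzw
        obtain ⟨s, hs, hws⟩ := ih w hw
        refine ⟨Function.update s n c, fun i => ?_, ?_⟩
        · by_cases hi : i = n
          · rw [hi, Function.update_self]
            exact hc
          · rw [Function.update_of_ne hi]
            exact hs i
        · rw [Finset.sum_range_succ, Function.update_self, hzw, hws]
          congr 1
          refine Finset.sum_congr rfl fun i hi => ?_
          rw [Function.update_of_ne (Finset.mem_range.1 hi).ne]
      rcases hz with ⟨w, hw, hwz⟩ | ⟨w, hw, hwz⟩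
      · exact key w 1 hw (Or.inl rfl) (by rw [one_smul]; exact hwz.symm)
      · exact key w (-1) hw (Or.inr rfl) (by rw [neg_one_smul, ← sub_eq_add_neg]; exact hwz.symm)
  have hle : ∀ n, ∀ z ∈ FF n, f z ≤ 1 - 1 / 2 ^ n := by
    intro n
    induction n with
    | zero =>
      intro z hz
      rw [hF0, Finset.mem_singleton] at hz
      rw [hz, hf.f0]
      norm_num
    | succ n ih =>
      intro z hz
      rw [hFs, Finset.mem_union, Finset.mem_image, Finset.mem_image] at hz
      have he : (0 : ℝ) < 1 / 2 ^ (n + 2) := by positivity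
      have he1 : (1 : ℝ) / 2 ^ (n + 2) ≤ 1 := by
        rw [div_le_one (by positivity)]
        exact one_le_pow₀ (by norm_num)
      have e1 : 2 * ((1 : ℝ) / 2 ^ (n + 2)) = 1 / 2 ^ (n + 1) := by
        rw [pow_succ (2 : ℝ) (n + 1)]
        field_simp
      have e2 : (1 : ℝ) / 2 ^ n = 1 / 2 ^ (n + 1) + 1 / 2 ^ (n + 1) := by
        rw [pow_succ]
        field_simp
        norm_num
      rcases hz with ⟨w, hw, hwz⟩ | ⟨w, hw, hwz⟩
      · have h1 := (le_of_qq hf w (H (FF n) n) he he1 ((hH (FF n) n (hne n)).2 w hw)).1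
        have h2 := ih w hw
        rw [← hwz]
        linarith
      · have h1 := (le_of_qq hf w (H (FF n) n) he he1 ((hH (FF n) n (hne n)).2 w hw)).2
        have h2 := ih w hw
        rw [← hwz]
        linarith
  refine ⟨fun n => H (FF n) n, fun n s hs => ?_, fun n => ?_⟩
  · have h1 := hle n _ (hmem n s hs)
    have h2 : (0 : ℝ) ≤ 1 / 2 ^ n := by positivity
    linarith
  · obtain ⟨z, hz, hz'⟩ := (hH (FF n) n (hne n)).1
    obtain ⟨s, hs, hzs⟩ := hsig n z hz
    refine ⟨s, hs, ?_⟩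
    rw [← hzs]
    exact hz'

end Pool.Agent.H47.FD
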