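import Pool.Agent.H47.FD.A2
import Pool.Agent.H47.FD.A4b
import Pool.Agent.H47.FD.A4c

/-!
# A4d: existence of the function `Q`
-/

set_option autoImplicit false

open Filter Topology

namespace Pool.Agent.H47.FD

variable {X : Type*} [NormedAddCommGroup X] [NormedSpace ℝ X]

/-- ROW A4d. `r` from `exists_radius` for `B`. Suppose there is no such `Q`. By `exists_LQ` the hypothesis `hA` of `exists_seq` holds; `y` from `exists_seq`. `LF.bdd` and `wuc_of_range` give `WUC y R`, `WUC.summable`, and the closure of the set `Z` of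
signed sums is compact (`isCompact_sums`): `r₀ ≤ r z` for `z ∈ Z`, so `r₀ ≤ ‖y n‖` for all `n`, but `y n → 0` (`Summable.tendsto_atTop_zero`). -/
theorem exists_LQ_of_LF [CompleteSpace X] {f : X → ℝ} {D : X → X →L[ℝ] ℝ}
    {B : X → X →L[ℝ] X →L[ℝ] ℝ} {R : ℝ} (hf : LF f D B R)
    (h0 : ¬ ∃ T : ZeroAtInftyContinuousMap ℕ ℝ →L[ℝ] X, ∃ c : ℝ, 0 < c ∧
      ∀ f : ZeroAtInftyContinuousMap ℕ ℝ, c * ‖f‖ ≤ ‖T f‖) :
    ∃ (Q : X → ℝ) (D' : X → X →L[ℝ] ℝ) (B' : X → X →L[ℝ] X →L[ℝ] ℝ) (ρ c : ℝ),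
      LQ Q D' B' ρ c := by
  by_contra hno
  obtain ⟨r, hr1, hr2⟩ := exists_radius B hf.luc
  have hA : ∀ (F : Finset X) (ρ : ℝ), F.Nonempty → 0 < ρ → (∀ z ∈ F, ρ ≤ r z) → ∀ c : ℝ, 0 < c →
      ∃ h : X, ‖h‖ = ρ ∧ ∑ z ∈ F, qq f D z h < c := by
    intro F ρ _ hρ hF c hc
    by_contra hcon
    have hlow : ∀ h : X, ‖h‖ = ρ → c ≤ ∑ z ∈ F, qq f D z h := fun h hh => by
      by_contra h1
      exact hcon ⟨h, hh, not_le.1 h1⟩
    obtain ⟨Q, D', B', hQ⟩ := exists_LQ hf F hρ hc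
      (fun z hz => (hr1 z).2.mono (Metric.ball_subset_ball (hF z hz))) hlow
    exact hno ⟨Q, D', B', ρ, c, hQ⟩
  obtain ⟨y, hy1, hy2⟩ := exists_seq hf r (fun x => (hr1 x).1) hA
  have hw : WUC y R := wuc_of_range fun n s hs => hf.bdd _ (hy1 n s hs)
  have hsum : Summable y := hw.summable h0
  obtain ⟨r₀, hr0, hr3⟩ := hr2 _ (isCompact_sums hsum)
  have hlow : ∀ n, r₀ ≤ ‖y n‖ := by
    intro n
    obtain ⟨s, hs, e⟩ := hy2 n
    rw [e]
    exact hr3 _ (subset_closure ⟨n, s, hs, rfl⟩)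
  have ht : Tendsto (fun n => ‖y n‖) atTop (𝓝 0) := by
    have := hsum.tendsto_atTop_zero.norm
    rwa [norm_zero] at this
  obtain ⟨n, hn⟩ := (ht.eventually (gt_mem_nhds hr0)).exists
  exact absurd (hlow n) (not_le.2 hn)

end Pool.Agent.H47.FD
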