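import Pool.Agent.H47.FD.A4a

/-!
# A5a: the gauge of `{Q ≤ c / 2}`
-/

set_option autoImplicit false

open Filter Topology

namespace Pool.Agent.H47.FD

open Pool.Agent.H47.SR Pool.Agent.H47.SS

variable {X : Type*} [NormedAddCommGroup X] [NormedSpace ℝ X]

private theorem LQ.scale {Q : X → ℝ} {D : X → X →L[ℝ] ℝ} {B : X → X →L[ℝ] X →L[ℝ] ℝ} {ρ c : ℝ}
    (h : LQ Q D B ρ c) {t : ℝ} (h0 : 0 ≤ t) (h1 : t ≤ 1) (x : X) : Q (t • x) ≤ t * Q x := by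
  have h2 := h.cvx.2 (Set.mem_univ x) (Set.mem_univ (0 : X)) h0 (sub_nonneg.2 h1) (by ring)
  rw [smul_zero, add_zero, h.Q0, smul_zero, add_zero, smul_eq_mul] at h2
  exact h2

private theorem LQ.nonneg {Q : X → ℝ} {D : X → X →L[ℝ] ℝ} {B : X → X →L[ℝ] X →L[ℝ] ℝ} {ρ c : ℝ}
    (h : LQ Q D B ρ c) (x : X) : 0 ≤ Q x := by
  have h2 := h.cvx.2 (Set.mem_univ x) (Set.mem_univ (-x)) (show (0 : ℝ) ≤ 1 / 2 by norm_num)
    (show (0 : ℝ) ≤ 1 / 2 by norm_num) (by norm_num)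
  rw [← smul_add, add_neg_cancel, smul_zero, h.Q0, h.even, smul_eq_mul] at h2
  linarith

private theorem LQ.cont {Q : X → ℝ} {D : X → X →L[ℝ] ℝ} {B : X → X →L[ℝ] X →L[ℝ] ℝ} {ρ c : ℝ}
    (h : LQ Q D B ρ c) : Continuous Q :=
  continuous_iff_continuousAt.2 fun x => (h.d1 x).continuousAt

private theorem LQ.convexV {Q : X → ℝ} {D : X → X →L[ℝ] ℝ} {B : X → X →L[ℝ] X →L[ℝ] ℝ} {ρ c : ℝ}
    (h : LQ Q D B ρ c) : Convex ℝ {x : X | Q x ≤ c / 2} := by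
  have := h.cvx.convex_le (c / 2)
  simpa using this

private theorem LQ.nhdsV {Q : X → ℝ} {D : X → X →L[ℝ] ℝ} {B : X → X →L[ℝ] X →L[ℝ] ℝ} {ρ c : ℝ}
    (h : LQ Q D B ρ c) : {x : X | Q x ≤ c / 2} ∈ 𝓝 (0 : X) := by
  have h1 : {x : X | Q x < c / 2} ∈ 𝓝 (0 : X) := by
    refine (isOpen_lt h.cont continuous_const).mem_nhds ?_
    show Q 0 < c / 2
    rw [h.Q0]
    exact half_pos h.hc
  exact Filter.mem_of_superset h1 fun x (hx : Q x < c / 2) => hx.le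

/-- ROW A5a1. For `ρ ≤ ‖x‖`: `c ≤ Q ((ρ / ‖x‖) • x) ≤ (ρ / ‖x‖) Q x` by convexity and `Q 0 = 0`. -/
theorem LQ.norm_lt {Q : X → ℝ} {D : X → X →L[ℝ] ℝ} {B : X → X →L[ℝ] X →L[ℝ] ℝ} {ρ c : ℝ}
    (h : LQ Q D B ρ c) {x : X} (hx : Q x ≤ c / 2) : ‖x‖ < ρ := by
  by_contra hn
  rw [not_lt] at hn
  have hx0 : 0 < ‖x‖ := h.hρ.trans_le hn
  have ht0 : 0 ≤ ρ / ‖x‖ := (div_pos h.hρ hx0).le
  have ht1 : ρ / ‖x‖ ≤ 1 := (div_le_one hx0).2 hn
  have h1 : ‖(ρ / ‖x‖) • x‖ = ρ := by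
    rw [norm_smul, Real.norm_of_nonneg ht0, div_mul_cancel₀ _ hx0.ne']
  have h2 := h.low _ h1
  have h3 := h.scale ht0 ht1 x
  have h4 := h.nonneg x
  have h5 : ρ / ‖x‖ * Q x ≤ 1 * Q x := mul_le_mul_of_nonneg_right ht1 h4
  have h6 := h.hc
  linarith

/-- ROW A5a2. `V = {Q ≤ c / 2}` is convex, symmetric, contained in the ball of radius `ρ` and contains a ball around `0` (`Q` is continuous, `Q 0 = 0`). `gauge_add_le`, `gauge_smul_of_nonneg`, `gauge_neg`,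
`gauge_le_of_mem` etc. (Mathlib.Analysis.Convex.Gauge). -/
theorem LQ.eqNorm {Q : X → ℝ} {D : X → X →L[ℝ] ℝ} {B : X → X →L[ℝ] X →L[ℝ] ℝ} {ρ c : ℝ}
    (h : LQ Q D B ρ c) : EqNorm (gauge {x : X | Q x ≤ c / 2}) := by
  have hab : Absorbent ℝ {x : X | Q x ≤ c / 2} := absorbent_nhds_zero h.nhdsV
  refine ⟨?_, gauge_add_le h.convexV hab, ?_⟩
  · obtain ⟨r, hr, hrV⟩ := Metric.mem_nhds_iff.1 h.nhdsV
    refine ⟨1 / ρ, 1 / r, one_div_pos.2 h.hρ, one_div_pos.2 hr, fun x => ⟨?_, ?_⟩⟩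
    · have h1 : gauge (Metric.ball (0 : X) ρ) x ≤ gauge {x : X | Q x ≤ c / 2} x :=
        gauge_mono hab (fun y hy => by
          rw [mem_ball_zero_iff]
          exact h.norm_lt hy) x
      rw [gauge_ball h.hρ.le] at h1
      calc 1 / ρ * ‖x‖ = ‖x‖ / ρ := by ring
        _ ≤ _ := h1
    · have h1 : gauge {x : X | Q x ≤ c / 2} x ≤ gauge (Metric.ball (0 : X) r) x :=
        gauge_mono (absorbent_ball_zero hr) hrV x
      rw [gauge_ball hr.le] at h1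
      calc _ ≤ ‖x‖ / r := h1
        _ = 1 / r * ‖x‖ := by ring
  · intro t x
    have hneg : ∀ y : X, gauge {x : X | Q x ≤ c / 2} (-y) = gauge {x : X | Q x ≤ c / 2} y :=
      gauge_neg fun y (hy : Q y ≤ c / 2) => show Q (-y) ≤ c / 2 by rw [h.even]; exact hy
    rcases le_total 0 t with ht | ht
    · rw [gauge_smul_of_nonneg ht, abs_of_nonneg ht, smul_eq_mul]
    · have h1 : t • x = -((-t) • x) := by rw [neg_smul, neg_neg]
      rw [h1, hneg, gauge_smul_of_nonneg (neg_nonneg.2 ht), abs_of_nonpos ht, smul_eq_mul]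

/-- ROW A5a3. (`gauge_le_one_iff_mem_closure` or directly; if `gauge V u < 1` then `u = t • v` with `t < 1`, `v ∈ V` and `Q u ≤ t c / 2 < c / 2`; if `Q u < c / 2` then `Q (t • u) ≤ c / 2` for some `t > 1`.) -/
theorem LQ.level {Q : X → ℝ} {D : X → X →L[ℝ] ℝ} {B : X → X →L[ℝ] X →L[ℝ] ℝ} {ρ c : ℝ}
    (h : LQ Q D B ρ c) (u : X) : gauge {x : X | Q x ≤ c / 2} u = 1 ↔ Q u = c / 2 := by
  have hab : Absorbent ℝ {x : X | Q x ≤ c / 2} := absorbent_nhds_zero h.nhdsV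
  have hcl : IsClosed {x : X | Q x ≤ c / 2} := isClosed_le h.cont continuous_const
  have h1 : gauge {x : X | Q x ≤ c / 2} u ≤ 1 ↔ Q u ≤ c / 2 := by
    rw [gauge_le_one_iff_mem_closure h.convexV h.nhdsV, hcl.closure_eq]
    rfl
  have h2 : gauge {x : X | Q x ≤ c / 2} u < 1 ↔ Q u < c / 2 := by
    constructor
    · intro hg
      obtain ⟨b, hb0, hb1, v, hv, rfl⟩ := exists_lt_of_gauge_lt hab hg
      have h3 := h.scale hb0.le hb1.le v
      have h4 : Q v ≤ c / 2 := hv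
      have h5 : b * Q v ≤ b * (c / 2) := mul_le_mul_of_nonneg_left h4 hb0.le
      have h6 : b * (c / 2) < 1 * (c / 2) := mul_lt_mul_of_pos_right hb1 (half_pos h.hc)
      show Q (b • v) < c / 2
      linarith
    · intro hg
      rw [gauge_lt_one_iff_mem_interior h.convexV h.nhdsV]
      exact mem_interior.2 ⟨{x : X | Q x < c / 2}, fun x (hx : Q x < c / 2) => hx.le,
        isOpen_lt h.cont continuous_const, hg⟩
  constructor
  · intro hg
    refine le_antisymm (h1.1 hg.le) ?_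
    by_contra hn
    exact absurd (h2.2 (not_le.1 hn)) (by rw [hg]; exact lt_irrefl _)
  · intro hg
    refine le_antisymm (h1.2 hg.le) ?_
    by_contra hn
    exact absurd (h2.1 (not_le.1 hn)) (by rw [hg]; exact lt_irrefl _)

/-- ROW A5a4. `tangent_le` (A4a): `Q 0 ≥ Q u - D u u`; for `v ≠ 0`, `w = v / gauge V v` has `Q w = c / 2` (`level`) and `Q w ≥ Q u + D u (w - u)`, so `D u w ≤ D u u`. -/
theorem LQ.grad {Q : X → ℝ} {D : X → X →L[ℝ] ℝ} {B : X → X →L[ℝ] X →L[ℝ] ℝ} {ρ c : ℝ}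
    (h : LQ Q D B ρ c) {u : X} (hu : Q u = c / 2) : c / 2 ≤ D u u ∧
      ∀ v : X, D u v ≤ D u u * gauge {x : X | Q x ≤ c / 2} v := by
  constructor
  · have h1 := tangent_le h.cvx (h.d1 u) (-u)
    rw [map_neg, add_neg_cancel, h.Q0, hu] at h1
    linarith
  · intro v
    by_cases hv : v = 0
    · subst hv
      rw [map_zero, gauge_zero, mul_zero]
    · obtain ⟨⟨a, b, ha, -, hab⟩, -, hsm⟩ := h.eqNorm
      have hg : 0 < gauge {x : X | Q x ≤ c / 2} v :=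
        (mul_pos ha (norm_pos_iff.2 hv)).trans_le (hab v).1
      set g := gauge {x : X | Q x ≤ c / 2} v with hgdef
      have h1 : gauge {x : X | Q x ≤ c / 2} (g⁻¹ • v) = 1 := by
        rw [hsm, abs_of_pos (inv_pos.2 hg), ← hgdef, inv_mul_cancel₀ hg.ne']
      have h2 := (h.level _).1 h1
      have h3 := tangent_le h.cvx (h.d1 u) (g⁻¹ • v - u)
      rw [add_sub_cancel, h2, hu, map_sub, map_smul, smul_eq_mul] at h3
      have h4 : g⁻¹ * D u v ≤ D u u := by linarith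
      calc D u v = g * (g⁻¹ * D u v) := by rw [mul_inv_cancel_left₀ hg.ne']
        _ ≤ g * D u u := mul_le_mul_of_nonneg_left h4 hg.le
        _ = D u u * g := mul_comm _ _

end Pool.Agent.H47.FD
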