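import Pool.Agent.H47.FD.A5a

/-!
# A5b: the derivative of the gauge
-/

set_option autoImplicit false

open Filter Topology

namespace Pool.Agent.H47.FD

open Pool.Agent.H47.SR Pool.Agent.H47.SS

variable {X : Type*} [NormedAddCommGroup X] [NormedSpace ℝ X]

/-- The normalized vector. -/
noncomputable def uu (N : X → ℝ) (x : X) : X := (N x)⁻¹ • x

/-- The derivative of the gauge. -/
noncomputable def Dn (N : X → ℝ) (D : X → X →L[ℝ] ℝ) (x : X) : X →L[ℝ] ℝ :=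
  (D (uu N x) (uu N x))⁻¹ • D (uu N x)

/-- The projection along `u` onto the kernel of `D u`. -/
noncomputable def P1 (D : X → X →L[ℝ] ℝ) (u : X) : X →L[ℝ] X :=
  ContinuousLinearMap.id ℝ X - ((D u u)⁻¹ • D u).smulRight u

/-- The second derivative of the gauge on the sphere. -/
noncomputable def B1 (D : X → X →L[ℝ] ℝ) (B : X → X →L[ℝ] X →L[ℝ] ℝ) (u : X) :
    X →L[ℝ] X →L[ℝ] ℝ :=
  (D u u)⁻¹ • (B u).comp (P1 D u) -
    ((D u u) ^ 2)⁻¹ • (((B u).comp (P1 D u)).flip u + (D u).comp (P1 D u)).smulRight (D u)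

theorem a5b_pos {N : X → ℝ} (hE : EqNorm N) {x : X} (hx : x ≠ 0) : 0 < N x := by
  obtain ⟨⟨c, C, hc, hC, h1⟩, -, -⟩ := hE
  have h2 : 0 < c * ‖x‖ := mul_pos hc (norm_pos_iff.2 hx)
  exact h2.trans_le (h1 x).1

theorem a5b_cont {N : X → ℝ} (hE : EqNorm N) : Continuous N := by
  obtain ⟨⟨c, C, hc, hC, h1⟩, h2⟩ := id hE
  have hL : LipschitzWith ⟨C, hC.le⟩ N := by
    refine LipschitzWith.of_dist_le_mul fun x y => ?_
    rw [Real.dist_eq, dist_eq_norm]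
    exact (abs_sub_le_N hE x y).trans (h1 (x - y)).2
  exact hL.continuous

theorem a5b_facts {Q : X → ℝ} {D : X → X →L[ℝ] ℝ} {B : X → X →L[ℝ] X →L[ℝ] ℝ} {ρ c : ℝ}
    (h : LQ Q D B ρ c) {x : X} (hx : x ≠ 0) :
    D (uu (gauge {x : X | Q x ≤ c / 2}) x) (uu (gauge {x : X | Q x ≤ c / 2}) x) ≠ 0 ∧
      (∀ v : X, Dn (gauge {x : X | Q x ≤ c / 2}) D x v ≤ gauge {x : X | Q x ≤ c / 2} v) ∧
      Dn (gauge {x : X | Q x ≤ c / 2}) D x x = gauge {x : X | Q x ≤ c / 2} x := by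
  set N : X → ℝ := gauge {x : X | Q x ≤ c / 2} with hN
  have hE : EqNorm N := h.eqNorm
  have hpos : 0 < N x := a5b_pos hE hx
  have hNu : N (uu N x) = 1 := by
    unfold uu
    rw [hE.2.2, abs_of_pos (inv_pos.2 hpos)]
    exact inv_mul_cancel₀ hpos.ne'
  obtain ⟨g1, g2⟩ := h.grad ((h.level (uu N x)).1 hNu)
  have hD : 0 < D (uu N x) (uu N x) := by
    have := h.hc
    linarith
  refine ⟨hD.ne', fun v => ?_, ?_⟩
  · show (D (uu N x) (uu N x))⁻¹ * D (uu N x) v ≤ N v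
    rw [inv_mul_le_iff₀ hD]
    exact g2 v
  · show (D (uu N x) (uu N x))⁻¹ * D (uu N x) x = N x
    have e : D (uu N x) x = N x * D (uu N x) (uu N x) := by
      have e1 : x = N x • uu N x := by
        unfold uu
        rw [smul_smul, mul_inv_cancel₀ hpos.ne', one_smul]
      have e2 : D (uu N x) (N x • uu N x) = N x * D (uu N x) (uu N x) := by
        rw [map_smul, smul_eq_mul]
      rw [← e1] at e2
      exact e2
    rw [e]
    field_simp

theorem a5b_contAt {Q : X → ℝ} {D : X → X →L[ℝ] ℝ} {B : X → X →L[ℝ] X →L[ℝ] ℝ} {ρ c : ℝ}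
    (h : LQ Q D B ρ c) {x : X} (hx : x ≠ 0) :
    ContinuousAt (Dn (gauge {x : X | Q x ≤ c / 2}) D) x := by
  obtain ⟨f1, -, -⟩ := a5b_facts h hx
  set N : X → ℝ := gauge {x : X | Q x ≤ c / 2} with hN
  have hE : EqNorm N := h.eqNorm
  have hpos : 0 < N x := a5b_pos hE hx
  have hu : ContinuousAt (uu N) x := by
    have h1 : ContinuousAt (fun y => (N y)⁻¹ • y) x :=
      ((a5b_cont hE).continuousAt.inv₀ hpos.ne').smul continuousAt_id
    exact h1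
  have hDu : ContinuousAt (fun y => D (uu N y)) x :=
    ContinuousAt.comp (g := D) (h.d2 (uu N x)).continuousAt hu
  have h2 : ContinuousAt (fun y => D (uu N y) (uu N y)) x := hDu.clm_apply hu
  have h3 : ContinuousAt (fun y => (D (uu N y) (uu N y))⁻¹ • D (uu N y)) x :=
    (h2.inv₀ f1).smul hDu
  exact h3

/-- ROW A5b. Write `N` for the gauge, `ℓ x = Dn N D x`. For `x ≠ 0`, `u = uu N x`: `N u = 1`, so `Q u = c / 2`, `ℓ x v ≤ N v` for all `v` and `ℓ x x = N x` (`LQ.grad`). Hence for `x, x + h ≠ 0`: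
`ℓ x h = ℓ x (x + h) - ℓ x x ≤ N (x + h) - N x` and `N (x + h) - N x ≤ ℓ (x + h) (x + h) - ℓ (x + h) x = ℓ (x + h) h`. So `|N (x + h) - N x - ℓ x h| ≤ ‖ℓ (x + h) - ℓ x‖ ‖h‖`, and `ℓ` is continuous at `x` (`N` is continuous, being an equivalent norm:
`abs_sub_le_N` in SR/A3; `D` is continuous by `d2`; `D u u ≠ 0`). -/
theorem LQ.hasFDerivAt {Q : X → ℝ} {D : X → X →L[ℝ] ℝ} {B : X → X →L[ℝ] X →L[ℝ] ℝ} {ρ c : ℝ}
    (h : LQ Q D B ρ c) {x : X} (hx : x ≠ 0) :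
    HasFDerivAt (gauge {x : X | Q x ≤ c / 2}) (Dn (gauge {x : X | Q x ≤ c / 2}) D x) x := by
  have hcont := a5b_contAt h hx
  obtain ⟨f1, f2, f3⟩ := a5b_facts h hx
  rw [hasFDerivAt_iff_isLittleO, Asymptotics.isLittleO_iff]
  intro ε hε
  have hev : ∀ᶠ y in 𝓝 x, dist (Dn (gauge {x : X | Q x ≤ c / 2}) D y)
      (Dn (gauge {x : X | Q x ≤ c / 2}) D x) < ε := hcont (Metric.ball_mem_nhds _ hε)
  filter_upwards [hev, isOpen_ne.mem_nhds hx] with y hy hy0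
  have hy0' : y ≠ 0 := hy0
  obtain ⟨-, g2, g3⟩ := a5b_facts h hy0'
  rw [dist_eq_norm] at hy
  have e1 : Dn (gauge {x : X | Q x ≤ c / 2}) D x (y - x) =
      Dn (gauge {x : X | Q x ≤ c / 2}) D x y - Dn (gauge {x : X | Q x ≤ c / 2}) D x x := map_sub _ _ _
  have e2 : Dn (gauge {x : X | Q x ≤ c / 2}) D y (y - x) =
      Dn (gauge {x : X | Q x ≤ c / 2}) D y y - Dn (gauge {x : X | Q x ≤ c / 2}) D y x := map_sub _ _ _
  have e3 : (Dn (gauge {x : X | Q x ≤ c / 2}) D y - Dn (gauge {x : X | Q x ≤ c / 2}) D x) (y - x) =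
      Dn (gauge {x : X | Q x ≤ c / 2}) D y (y - x) - Dn (gauge {x : X | Q x ≤ c / 2}) D x (y - x) := rfl
  have e4 := (Dn (gauge {x : X | Q x ≤ c / 2}) D y -
    Dn (gauge {x : X | Q x ≤ c / 2}) D x).le_opNorm (y - x)
  rw [e3, Real.norm_eq_abs] at e4
  have e5 := (le_abs_self _).trans e4
  have e6 : ‖Dn (gauge {x : X | Q x ≤ c / 2}) D y - Dn (gauge {x : X | Q x ≤ c / 2}) D x‖ * ‖y - x‖ ≤
      ε * ‖y - x‖ := mul_le_mul_of_nonneg_right hy.le (norm_nonneg _)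
  have k1 := f2 y
  have k2 := g2 x
  rw [Real.norm_eq_abs, abs_le]
  have hnn : 0 ≤ ε * ‖y - x‖ := mul_nonneg hε.le (norm_nonneg _)
  constructor
  · linarith
  · linarith

end Pool.Agent.H47.FD
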