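import Pool.Agent.H47.FD.A5b

/-!
# A5c: the second derivative of the gauge
-/

set_option autoImplicit false

open Filter Topology

namespace Pool.Agent.H47.FD

open Pool.Agent.H47.SR Pool.Agent.H47.SS

variable {X : Type*} [NormedAddCommGroup X] [NormedSpace ℝ X]

/-- ROW A5c1. `uu N y = (N y)⁻¹ • y` has the derivative `(N x)⁻¹ • P1 D (uu N x)` at `x` (product rule, `HasFDerivAt.inv`/`HasDerivAt.comp_hasFDerivAt`; `Dn N D x = ((D u u)⁻¹ • D u)`). -/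
theorem hasFDerivAt_uu {N : X → ℝ} {D : X → X →L[ℝ] ℝ} {x : X} (hN : N x ≠ 0)
    (h1 : HasFDerivAt N (Dn N D x) x) :
    HasFDerivAt (uu N) ((N x)⁻¹ • P1 D (uu N x)) x := by
  have h2 : HasFDerivAt (fun y => (N y)⁻¹) ((-(N x ^ 2)⁻¹) • Dn N D x) x :=
    (hasDerivAt_inv hN).comp_hasFDerivAt x h1
  have h3 : HasFDerivAt (fun y => (N y)⁻¹ • y) ((N x)⁻¹ • ContinuousLinearMap.id ℝ X +
      ((-(N x ^ 2)⁻¹) • Dn N D x).smulRight x) x := h2.smul (hasFDerivAt_id x)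
  have h4 : (N x)⁻¹ • ContinuousLinearMap.id ℝ X + ((-(N x ^ 2)⁻¹) • Dn N D x).smulRight x =
      (N x)⁻¹ • P1 D (uu N x) := by
    refine ContinuousLinearMap.ext fun h => ?_
    show (N x)⁻¹ • h + (-(N x ^ 2)⁻¹ * ((D (uu N x) (uu N x))⁻¹ * D (uu N x) h)) • x =
      (N x)⁻¹ • (h - ((D (uu N x) (uu N x))⁻¹ * D (uu N x) h) • ((N x)⁻¹ • x))
    generalize (D (uu N x) (uu N x))⁻¹ * D (uu N x) h = a
    module
  rw [← h4]
  exact h3

/-- ROW A5c2. Chain rule for `y ↦ D (uu N y)`, `HasFDerivAt.clm_apply` for `a y = D (uu N y) (uu N y)`, product rule for `(a y)⁻¹ • D (uu N y)`; compare the values by `ContinuousLinearMap.ext` and `ring`/`simp`. -/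
theorem hasFDerivAt_Dn {N : X → ℝ} {D : X → X →L[ℝ] ℝ} {B : X → X →L[ℝ] X →L[ℝ] ℝ} {x : X}
    (hN : N x ≠ 0) (h1 : HasFDerivAt N (Dn N D x) x) (h2 : HasFDerivAt D (B (uu N x)) (uu N x))
    (ha : D (uu N x) (uu N x) ≠ 0) :
    HasFDerivAt (Dn N D) ((N x)⁻¹ • B1 D B (uu N x)) x := by
  have hu := hasFDerivAt_uu hN h1
  have hg : HasFDerivAt (fun y => D (uu N y)) ((B (uu N x)).comp ((N x)⁻¹ • P1 D (uu N x))) x :=
    h2.comp x hu
  have hA : HasFDerivAt (fun y => D (uu N y) (uu N y))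
      ((D (uu N x)).comp ((N x)⁻¹ • P1 D (uu N x)) +
        ((B (uu N x)).comp ((N x)⁻¹ • P1 D (uu N x))).flip (uu N x)) x := hg.clm_apply hu
  have hI : HasFDerivAt (fun y => (D (uu N y) (uu N y))⁻¹)
      ((-(D (uu N x) (uu N x) ^ 2)⁻¹) • ((D (uu N x)).comp ((N x)⁻¹ • P1 D (uu N x)) +
        ((B (uu N x)).comp ((N x)⁻¹ • P1 D (uu N x))).flip (uu N x))) x :=
    (hasDerivAt_inv ha).comp_hasFDerivAt x hA
  have h3 := hI.smul hg
  refine h3.congr_fderiv ?_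
  refine ContinuousLinearMap.ext fun h => ContinuousLinearMap.ext fun k => ?_
  show (D (uu N x) (uu N x))⁻¹ * B (uu N x) ((N x)⁻¹ • P1 D (uu N x) h) k +
      (-(D (uu N x) (uu N x) ^ 2)⁻¹ * (D (uu N x) ((N x)⁻¹ • P1 D (uu N x) h) +
        B (uu N x) ((N x)⁻¹ • P1 D (uu N x) h) (uu N x))) * D (uu N x) k =
    (N x)⁻¹ * ((D (uu N x) (uu N x))⁻¹ * B (uu N x) (P1 D (uu N x) h) k -
      (D (uu N x) (uu N x) ^ 2)⁻¹ * ((B (uu N x) (P1 D (uu N x) h) (uu N x) +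
        D (uu N x) (P1 D (uu N x) h)) * D (uu N x) k))
  rw [map_smul, map_smul]
  show (D (uu N x) (uu N x))⁻¹ * ((N x)⁻¹ * B (uu N x) (P1 D (uu N x) h) k) +
      (-(D (uu N x) (uu N x) ^ 2)⁻¹ * ((N x)⁻¹ * D (uu N x) (P1 D (uu N x) h) +
        (N x)⁻¹ * B (uu N x) (P1 D (uu N x) h) (uu N x))) * D (uu N x) k =
    (N x)⁻¹ * ((D (uu N x) (uu N x))⁻¹ * B (uu N x) (P1 D (uu N x) h) k -
      (D (uu N x) (uu N x) ^ 2)⁻¹ * ((B (uu N x) (P1 D (uu N x) h) (uu N x) +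
        D (uu N x) (P1 D (uu N x) h)) * D (uu N x) k))
  ring

end Pool.Agent.H47.FD
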