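import Pool.Agent.H47.FD.A3b
import Pool.Agent.H47.FD.A5b

/-!
# A5d: the second derivative of the gauge is bounded and uniformly continuous on the sphere
-/

set_option autoImplicit false

open Filter Topology

namespace Pool.Agent.H47.FD

open Pool.Agent.H47.SR Pool.Agent.H47.SS

variable {X : Type*} [NormedAddCommGroup X] [NormedSpace ℝ X]

private theorem a5d_comb {A G H : Type*} [NormedAddCommGroup A] [NormedAddCommGroup G]
    [NormedAddCommGroup H] {F : X → H} {a : X → A} {g : X → G} {S : Set X} {C C' : ℝ} (hC : 0 ≤ C)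
    (hC' : 0 ≤ C') (h : ∀ x ∈ S, ∀ y ∈ S, ‖F x - F y‖ ≤ C * ‖a x - a y‖ + C' * ‖g x - g y‖)
    (ha : UOn a S) (hg : UOn g S) : UOn F S := by
  intro ε hε
  obtain ⟨δ1, hδ1, h1⟩ := ha (ε / (2 * (C + 1))) (by positivity)
  obtain ⟨δ2, hδ2, h2⟩ := hg (ε / (2 * (C' + 1))) (by positivity)
  refine ⟨min δ1 δ2, lt_min hδ1 hδ2, fun x hx y hy hxy => (h x hx y hy).trans ?_⟩
  have k1 := h1 x hx y hy (hxy.trans (min_le_left _ _))
  have k2 := h2 x hx y hy (hxy.trans (min_le_right _ _))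
  have e1 : C * ‖a x - a y‖ ≤ ε / 2 := by
    calc C * ‖a x - a y‖ ≤ (C + 1) * (ε / (2 * (C + 1))) :=
          mul_le_mul (by linarith) k1 (norm_nonneg _) (by linarith)
      _ = ε / 2 := by field_simp
  have e2 : C' * ‖g x - g y‖ ≤ ε / 2 := by
    calc C' * ‖g x - g y‖ ≤ (C' + 1) * (ε / (2 * (C' + 1))) :=
          mul_le_mul (by linarith) k2 (norm_nonneg _) (by linarith)
      _ = ε / 2 := by field_simp
  linarith

private theorem a5d_bd {G : Type*} [NormedAddCommGroup G] {g : X → G} {S : Set X} (h : BU g S) :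
    ∃ C : ℝ, 0 ≤ C ∧ ∀ x ∈ S, ‖g x‖ ≤ C := by
  obtain ⟨-, C, hC⟩ := h
  exact ⟨|C|, abs_nonneg _, fun x hx => (hC x hx).trans (le_abs_self _)⟩

/-- A biadditive map `M` with `‖M a g‖ ≤ ‖a‖ ‖g‖` preserves `BU`. -/
private theorem a5d_bilin {A G H : Type*} [NormedAddCommGroup A] [NormedAddCommGroup G]
    [NormedAddCommGroup H] (M : A → G → H)
    (hM : ∀ a a' g g', M a g - M a' g' = M (a - a') g + M a' (g - g'))
    (hb : ∀ a g, ‖M a g‖ ≤ ‖a‖ * ‖g‖) {a : X → A} {g : X → G} {S : Set X} (ha : BU a S)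
    (hg : BU g S) : BU (fun x => M (a x) (g x)) S := by
  obtain ⟨C1, hC1, h1⟩ := a5d_bd ha
  obtain ⟨C2, hC2, h2⟩ := a5d_bd hg
  refine ⟨a5d_comb hC2 hC1 (fun x hx y hy => ?_) ha.1 hg.1, C1 * C2, fun x hx => ?_⟩
  · show ‖M (a x) (g x) - M (a y) (g y)‖ ≤ _
    rw [hM]
    refine (norm_add_le _ _).trans (add_le_add ?_ ?_)
    · refine (hb _ _).trans ?_
      rw [mul_comm C2]
      exact mul_le_mul_of_nonneg_left (h2 x hx) (norm_nonneg _)
    · refine (hb _ _).trans ?_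
      exact mul_le_mul_of_nonneg_right (h1 y hy) (norm_nonneg _)
  · exact (hb _ _).trans (mul_le_mul (h1 x hx) (h2 x hx) (norm_nonneg _) hC1)

/-- ROW A5d1. A uniformly continuous function on a ball is bounded: if `δ` is for `ε = 1`, and `n δ ≥ ρ`, then `‖B x‖ ≤ ‖B 0‖ + n` (steps of length `≤ δ` on the segment from `0` to `x`). -/
theorem UOn.bounded {G : Type*} [NormedAddCommGroup G] {B : X → G} {ρ : ℝ}
    (h : UOn B (Metric.ball 0 ρ)) : BU B (Metric.ball 0 ρ) := by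
  refine ⟨h, ?_⟩
  obtain ⟨δ, hδ, h1⟩ := h 1 one_pos
  obtain ⟨n, hn⟩ := exists_nat_ge (ρ / δ)
  refine ⟨‖B 0‖ + (n + 1), fun x hx => ?_⟩
  have hxρ : ‖x‖ < ρ := by simpa using hx
  have hn1 : (0 : ℝ) < (n : ℝ) + 1 := by positivity
  -- the points of the segment
  have hmem : ∀ i : ℕ, i ≤ n + 1 → ((i : ℝ) / ((n : ℝ) + 1)) • x ∈ Metric.ball (0 : X) ρ := by
    intro i hi
    rw [mem_ball_zero_iff, norm_smul, Real.norm_eq_abs, abs_of_nonneg (by positivity)]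
    have h2 : (i : ℝ) / ((n : ℝ) + 1) ≤ 1 := by
      rw [div_le_one hn1]
      exact_mod_cast hi
    calc (i : ℝ) / ((n : ℝ) + 1) * ‖x‖ ≤ 1 * ‖x‖ := mul_le_mul_of_nonneg_right h2 (norm_nonneg _)
      _ = ‖x‖ := one_mul _
      _ < ρ := hxρ
  have key : ∀ i : ℕ, i ≤ n + 1 → ‖B (((i : ℝ) / ((n : ℝ) + 1)) • x)‖ ≤ ‖B 0‖ + i := by
    intro i
    induction i with
    | zero =>
      intro _
      simp
    | succ i ih =>
      intro hi
      have h2 := ih (by omega)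
      have h3 : ‖((((i + 1 : ℕ) : ℝ) / ((n : ℝ) + 1)) • x) - (((i : ℝ) / ((n : ℝ) + 1)) • x)‖ ≤ δ := by
        rw [← sub_smul, norm_smul, Real.norm_eq_abs]
        have e : (((i + 1 : ℕ) : ℝ) / ((n : ℝ) + 1)) - ((i : ℝ) / ((n : ℝ) + 1))
            = 1 / ((n : ℝ) + 1) := by
          push_cast
          ring
        rw [e, abs_of_pos (by positivity), div_mul_eq_mul_div, one_mul, div_le_iff₀ hn1]
        rw [div_le_iff₀ hδ] at hn
        nlinarith
      have h4 := h1 _ (hmem (i + 1) hi) _ (hmem i (by omega)) h3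
      have h5 : ‖B ((((i + 1 : ℕ) : ℝ) / ((n : ℝ) + 1)) • x)‖
          ≤ ‖B ((((i + 1 : ℕ) : ℝ) / ((n : ℝ) + 1)) • x) - B (((i : ℝ) / ((n : ℝ) + 1)) • x)‖
            + ‖B (((i : ℝ) / ((n : ℝ) + 1)) • x)‖ := by
        have := norm_add_le (B ((((i + 1 : ℕ) : ℝ) / ((n : ℝ) + 1)) • x)
          - B (((i : ℝ) / ((n : ℝ) + 1)) • x)) (B (((i : ℝ) / ((n : ℝ) + 1)) • x))
        rwa [sub_add_cancel] at this
      have h6 : (((i + 1 : ℕ) : ℝ)) = (i : ℝ) + 1 := by push_cast; ring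
      rw [h6] at h5 h4 ⊢
      linarith
  have h7 := key (n + 1) le_rfl
  have h8 : (((n + 1 : ℕ) : ℝ) / ((n : ℝ) + 1)) = 1 := by
    rw [div_eq_one_iff_eq hn1.ne']
    push_cast
    ring
  rw [h8, one_smul] at h7
  push_cast at h7
  exact h7

/-- ROW A5d2. -/
theorem BU.comp {G H : Type*} [NormedAddCommGroup G] [NormedSpace ℝ G] [NormedAddCommGroup H]
    [NormedSpace ℝ H] {g : X → H →L[ℝ] G} {l : X → X →L[ℝ] H} {S : Set X} (hg : BU g S)
    (hl : BU l S) : BU (fun x => (g x).comp (l x)) S := by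
  refine a5d_bilin (fun (a : H →L[ℝ] G) (b : X →L[ℝ] H) => a.comp b) (fun a a' b b' => ?_)
    (fun a b => ContinuousLinearMap.opNorm_comp_le a b) hg hl
  ext z
  simp

/-- ROW A5d3. -/
theorem BU.flip_apply {g : X → X →L[ℝ] X →L[ℝ] ℝ} {S : Set X} (hg : BU g S)
    (hi : BU (fun x : X => x) S) : BU (fun x => (g x).flip x) S := by
  refine a5d_bilin (fun (a : X →L[ℝ] X →L[ℝ] ℝ) (b : X) => a.flip b) (fun a a' b b' => ?_)
    (fun a b => ?_) hg hi
  · ext z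
    simp
  · have h := ContinuousLinearMap.le_opNorm a.flip b
    rwa [ContinuousLinearMap.opNorm_flip] at h

/-- ROW A5d4. -/
theorem BU.apply {G : Type*} [NormedAddCommGroup G] [NormedSpace ℝ G] {g : X → X →L[ℝ] G}
    {S : Set X} (hg : BU g S) (hi : BU (fun x : X => x) S) : BU (fun x => g x x) S := by
  refine a5d_bilin (fun (a : X →L[ℝ] G) (b : X) => a b) (fun a a' b b' => ?_)
    (fun a b => ContinuousLinearMap.le_opNorm a b) hg hi
  simp

/-- ROW A5d5. -/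
theorem BU.inv {a : X → ℝ} {S : Set X} (ha : BU a S) {d : ℝ} (hd : 0 < d)
    (h : ∀ x ∈ S, d ≤ a x) : BU (fun x => (a x)⁻¹) S := by
  refine ⟨fun ε hε => ?_, d⁻¹, fun x hx => ?_⟩
  · obtain ⟨δ, hδ, h1⟩ := ha.1 (ε * d ^ 2) (by positivity)
    refine ⟨δ, hδ, fun x hx y hy hxy => ?_⟩
    have h2 := h1 x hx y hy hxy
    have p1 : 0 < a x := lt_of_lt_of_le hd (h x hx)
    have p2 : 0 < a y := lt_of_lt_of_le hd (h y hy)
    have e : (a x)⁻¹ - (a y)⁻¹ = (a y - a x) / (a x * a y) := by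
      field_simp
    show ‖(a x)⁻¹ - (a y)⁻¹‖ ≤ ε
    rw [Real.norm_eq_abs, e, abs_div, abs_of_pos (mul_pos p1 p2), div_le_iff₀ (mul_pos p1 p2)]
    rw [Real.norm_eq_abs, abs_sub_comm] at h2
    refine h2.trans (mul_le_mul_of_nonneg_left ?_ hε.le)
    rw [sq]
    exact mul_le_mul (h x hx) (h y hy) hd.le p1.le
  · have p1 : 0 < a x := lt_of_lt_of_le hd (h x hx)
    show ‖(a x)⁻¹‖ ≤ d⁻¹
    rw [Real.norm_eq_abs, abs_of_pos (inv_pos.2 p1)]
    exact inv_anti₀ hd (h x hx)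

end Pool.Agent.H47.FD
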