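import Pool.Agent.H47.FD.A5c
import Pool.Agent.H47.FD.A5d

/-!
# A5e: the gauge has a uniformly continuous second derivative
-/

set_option autoImplicit false

open Filter Topology

namespace Pool.Agent.H47.FD

open Pool.Agent.H47.SR Pool.Agent.H47.SS

variable {X : Type*} [NormedAddCommGroup X] [NormedSpace ℝ X]

theorem a5e_mono {G : Type*} [NormedAddCommGroup G] {g : X → G} {S S' : Set X} (h : BU g S')
    (hS : S ⊆ S') : BU g S := by
  obtain ⟨h1, C, hC⟩ := h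
  exact ⟨h1.mono hS, C, fun x hx => hC x (hS hx)⟩

theorem a5e_const {G : Type*} [NormedAddCommGroup G] (a : G) (S : Set X) :
    BU (fun _ : X => a) S := by
  refine ⟨fun ε hε => ⟨1, one_pos, fun x _ y _ _ => ?_⟩, ‖a‖, fun x _ => le_rfl⟩
  rw [sub_self, norm_zero]
  exact hε.le

theorem a5e_sub {G : Type*} [NormedAddCommGroup G] [NormedSpace ℝ G] {f g : X → G}
    {S : Set X} (hf : BU f S) (hg : BU g S) : BU (fun x => f x - g x) S := by
  have h1 : BU (fun x => (-1 : ℝ) • g x) S := BU.smul (a5e_const (-1 : ℝ) S) hg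
  have h2 := BU.add hf h1
  have e : (fun x => f x + (-1 : ℝ) • g x) = fun x => f x - g x := by
    ext x
    rw [neg_one_smul, sub_eq_add_neg]
  rwa [e] at h2

/-- ROW A5e1. `S = {Q = c / 2} ⊆ ball 0 ρ` (`LQ.norm_lt`). `B` is `BU` on the ball (`UOn.bounded`), so `D` is (`BU.of_deriv`), the identity is; `D u u ≥ c / 2` on `S` (`LQ.grad`); then the calculus of `BU`
(A3b, A5d; subtraction as addition of `(-1) • `, constant functions are `BU`). -/
theorem LQ.BU_B1 {Q : X → ℝ} {D : X → X →L[ℝ] ℝ} {B : X → X →L[ℝ] X →L[ℝ] ℝ} {ρ c : ℝ}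
    (h : LQ Q D B ρ c) : BU (B1 D B) {u : X | Q u = c / 2} := by
  obtain ⟨S, hS⟩ : ∃ S : Set X, S = {u : X | Q u = c / 2} := ⟨_, rfl⟩
  rw [← hS]
  have hSb : S ⊆ Metric.ball 0 ρ := by
    intro u hu
    rw [hS] at hu
    have h1 : Q u ≤ c / 2 := le_of_eq hu
    rw [mem_ball_zero_iff]
    exact h.norm_lt h1
  have hBball : BU B (Metric.ball 0 ρ) := UOn.bounded (G := X →L[ℝ] X →L[ℝ] ℝ) h.uc
  have hDball : BU D (Metric.ball 0 ρ) := by
    obtain ⟨_, C, hC⟩ := hBball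
    exact BU.of_deriv (G := X →L[ℝ] ℝ) (fun y _ => h.d2 y) hC
  have hB : BU B S := a5e_mono (G := X →L[ℝ] X →L[ℝ] ℝ) hBball hSb
  have hD : BU D S := a5e_mono (G := X →L[ℝ] ℝ) hDball hSb
  have hi : BU (fun x : X => x) S := by
    refine ⟨fun ε hε => ⟨ε, hε, fun x _ y _ hxy => hxy⟩, ρ, fun x hx => ?_⟩
    have := hSb hx
    rw [mem_ball_zero_iff] at this
    exact this.le
  have ha : BU (fun u => D u u) S := BU.apply (G := ℝ) hD hi
  have hc : 0 < c / 2 := half_pos h.hc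
  have hlow : ∀ u ∈ S, c / 2 ≤ D u u := by
    intro u hu
    rw [hS] at hu
    exact (h.grad hu).1
  have hai : BU (fun u => (D u u)⁻¹) S := BU.inv ha hc hlow
  have ha2 : BU (fun u => (D u u) ^ 2) S := by
    have h1 := BU.smul (G := ℝ) ha ha
    have e : (fun u => D u u • D u u) = fun u => (D u u) ^ 2 := by
      ext u
      rw [smul_eq_mul, sq]
    rwa [e] at h1
  have ha2i : BU (fun u => ((D u u) ^ 2)⁻¹) S := by
    refine BU.inv ha2 (d := (c / 2) ^ 2) (by positivity) ?_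
    intro u hu
    exact pow_le_pow_left₀ hc.le (hlow u hu) 2
  have haD : BU (fun u => (D u u)⁻¹ • D u) S := BU.smul (G := X →L[ℝ] ℝ) hai hD
  have hR : BU (fun u => ((D u u)⁻¹ • D u).smulRight u) S := BU.smulRight (G := X) haD hi
  have hP : BU (P1 D) S := a5e_sub (G := X →L[ℝ] X) (a5e_const (ContinuousLinearMap.id ℝ X) S) hR
  have hBP : BU (fun u => (B u).comp (P1 D u)) S := BU.comp (G := X →L[ℝ] ℝ) (H := X) hB hP
  have hDP : BU (fun u => (D u).comp (P1 D u)) S := BU.comp (G := ℝ) (H := X) hD hP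
  have hF : BU (fun u => ((B u).comp (P1 D u)).flip u) S := BU.flip_apply hBP hi
  have hT1 : BU (fun u => (D u u)⁻¹ • (B u).comp (P1 D u)) S :=
    BU.smul (G := X →L[ℝ] X →L[ℝ] ℝ) hai hBP
  have hA : BU (fun u => ((B u).comp (P1 D u)).flip u + (D u).comp (P1 D u)) S :=
    BU.add (G := X →L[ℝ] ℝ) hF hDP
  have hT2' : BU (fun u => (((B u).comp (P1 D u)).flip u + (D u).comp (P1 D u)).smulRight (D u)) S :=
    BU.smulRight (G := X →L[ℝ] ℝ) hA hD
  have hT2 := BU.smul (G := X →L[ℝ] X →L[ℝ] ℝ) ha2i hT2'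
  exact a5e_sub (G := X →L[ℝ] X →L[ℝ] ℝ) hT1 hT2

theorem a5e_cont {G : Type*} [NormedAddCommGroup G] [NormedSpace ℝ G] {g : X → G} {S : Set X}
    (hg : UOn g S) {N : X → ℝ} {u : X → X} {x : X} (hN : ContinuousAt N x) (hNx : N x ≠ 0)
    (hu : ContinuousAt u x) (hS : ∀ᶠ y in 𝓝 x, u y ∈ S) (hSx : u x ∈ S) :
    ContinuousAt (fun y => (N y)⁻¹ • g (u y)) x := by
  refine ContinuousAt.smul (hN.inv₀ hNx) ?_
  rw [Metric.continuousAt_iff']
  intro ε hε
  obtain ⟨δ, hδ, h1⟩ := hg (ε / 2) (half_pos hε)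
  have h2 := (Metric.continuousAt_iff'.mp hu) δ hδ
  filter_upwards [h2, hS] with y hy hyS
  rw [dist_eq_norm] at hy ⊢
  have h3 := h1 (u y) hyS (u x) hSx hy.le
  linarith

theorem a5e_one {G : Type*} [NormedAddCommGroup G] [NormedSpace ℝ G] {g : X → G} {S : Set X}
    (hg : UOn g S) {N : X → ℝ} (hNS : ∀ x, N x = 1 → x ∈ S) (ε : ℝ) (hε : 0 < ε) :
    ∃ δ : ℝ, 0 < δ ∧ ∀ x y : X, N x = 1 → N y = 1 → ‖x - y‖ ≤ δ →
      ‖(N x)⁻¹ • g (uu N x) - (N y)⁻¹ • g (uu N y)‖ ≤ ε := by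
  obtain ⟨δ, hδ, h1⟩ := hg ε hε
  refine ⟨δ, hδ, fun x y hx hy hxy => ?_⟩
  have ex : uu N x = x := by unfold uu; rw [hx, inv_one, one_smul]
  have ey : uu N y = y := by unfold uu; rw [hy, inv_one, one_smul]
  rw [ex, ey, hx, hy, inv_one, one_smul, one_smul]
  exact h1 x (hNS x hx) y (hNS y hy) hxy

/-- ROW A5e2. `N = gauge {Q ≤ c / 2}`: `unifC2_of_hasFDerivAt` (Pool/Agent/H47/SS/S0.lean) with `Dn N D`, `x ↦ (N x)⁻¹ • B1 D B (uu N x)` (`LQ.hasFDerivAt`, `hasFDerivAt_Dn`). On the sphere `N x = 1` (i.e. `Q x = c / 2`, `LQ.level`) the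
second derivative is `B1 D B x`. Continuity at `x ≠ 0`: `uu N` is continuous there with values in `{Q = c / 2}` (off `0`), and `B1 D B` is `UOn` on that set. -/
theorem LQ.unifC2 {Q : X → ℝ} {D : X → X →L[ℝ] ℝ} {B : X → X →L[ℝ] X →L[ℝ] ℝ} {ρ c : ℝ}
    (h : LQ Q D B ρ c) : UnifC2 (gauge {x : X | Q x ≤ c / 2}) := by
  obtain ⟨N, hNdef⟩ : ∃ N : X → ℝ, N = gauge {x : X | Q x ≤ c / 2} := ⟨_, rfl⟩
  have hE : EqNorm N := by rw [hNdef]; exact h.eqNorm
  have hlev : ∀ u, N u = 1 ↔ Q u = c / 2 := by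
    intro u
    rw [hNdef]
    exact h.level u
  have hpos : ∀ x, x ≠ 0 → 0 < N x := by
    intro x hx
    obtain ⟨⟨a, C, ha, hC, hb⟩, _, _⟩ := hE
    have h1 := (hb x).1
    have h2 : 0 < a * ‖x‖ := mul_pos ha (norm_pos_iff.mpr hx)
    linarith
  have hN0 : N 0 = 0 := by
    have h1 := hE.2.2 0 0
    simpa using h1
  have huu : ∀ x, x ≠ 0 → N (uu N x) = 1 := by
    intro x hx
    have h1 := hpos x hx
    unfold uu
    rw [hE.2.2, abs_of_pos (inv_pos.mpr h1), inv_mul_cancel₀ h1.ne']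
  have hlv : ∀ x, x ≠ 0 → Q (uu N x) = c / 2 := fun x hx => (hlev _).1 (huu x hx)
  have hd : ∀ x, x ≠ 0 → HasFDerivAt N (Dn N D x) x := by
    intro x hx
    rw [hNdef]
    exact h.hasFDerivAt hx
  have hc : 0 < c / 2 := half_pos h.hc
  have hBU := h.BU_B1.1
  rw [← hNdef]
  refine unifC2_of_hasFDerivAt (Dn N D) (fun x => (N x)⁻¹ • B1 D B (uu N x)) hd ?_ ?_ ?_ ?_
  · intro x hx
    have h1 := (h.grad (hlv x hx)).1
    have h2 : D (uu N x) (uu N x) ≠ 0 := by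
      intro h3
      rw [h3] at h1
      linarith
    exact hasFDerivAt_Dn (hpos x hx).ne' (hd x hx) (h.d2 _) h2
  · intro x hx
    have hNc : ContinuousAt N x := (hd x hx).continuousAt
    have huc : ContinuousAt (uu N) x := (hNc.inv₀ (hpos x hx).ne').smul continuousAt_id
    refine a5e_cont (G := X →L[ℝ] X →L[ℝ] ℝ) hBU hNc (hpos x hx).ne' huc ?_ (hlv x hx)
    filter_upwards [isOpen_ne.mem_nhds hx] with y hy
    exact hlv y hy
  · rw [hN0]
    exact zero_ne_one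
  · intro ε hε
    exact a5e_one (G := X →L[ℝ] X →L[ℝ] ℝ) hBU (fun x hx => (hlev x).1 hx) ε hε

end Pool.Agent.H47.FD
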