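import Pool.Agent.H47.FD.A3c
import Pool.Agent.H47.FD.A4d
import Pool.Agent.H47.FD.A5e

/-!
# A6: from local to global uniform continuity
-/

set_option autoImplicit false

open Filter Topology

namespace Pool.Agent.H47.FD

open Pool.Agent.H47.SR Pool.Agent.H47.SS

variable {X : Type*} [NormedAddCommGroup X] [NormedSpace ℝ X]

/-- If `X` has no copy of `c_0` and an equivalent norm with locally uniformly continuous second
derivative, then it has one with uniformly continuous second derivative. -/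
theorem exists_unifC2 [CompleteSpace X]
    (h0 : ¬ ∃ T : ZeroAtInftyContinuousMap ℕ ℝ →L[ℝ] X, ∃ c : ℝ, 0 < c ∧
      ∀ f : ZeroAtInftyContinuousMap ℕ ℝ, c * ‖f‖ ≤ ‖T f‖)
    {N : X → ℝ} (hN : EqNorm N) (hL : LocC2 N) : ∃ N' : X → ℝ, EqNorm N' ∧ UnifC2 N' := by
  obtain ⟨f, D, B, R, hf⟩ := exists_LF hN hL
  obtain ⟨Q, D', B', ρ, c, hQ⟩ := exists_LQ_of_LF hf h0
  exact ⟨_, hQ.eqNorm, hQ.unifC2⟩

end Pool.Agent.H47.FD
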