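import Pool.Agent.H47.SS.G2

/-!
# FD: from local to global uniform continuity of the second derivative: definitions
-/

set_option autoImplicit false

open Filter Topology

namespace Pool.Agent.H47.FD

variable {X : Type*} [NormedAddCommGroup X] [NormedSpace ℝ X]

/-- `B` is uniformly continuous on `S`. -/
def UOn {G : Type*} [NormedAddCommGroup G] (B : X → G) (S : Set X) : Prop :=
  ∀ ε : ℝ, 0 < ε → ∃ δ : ℝ, 0 < δ ∧ ∀ x ∈ S, ∀ y ∈ S, ‖x - y‖ ≤ δ → ‖B x - B y‖ ≤ ε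

theorem UOn.mono {G : Type*} [NormedAddCommGroup G] {B : X → G} {S S' : Set X} (h : UOn B S')
    (hS : S ⊆ S') : UOn B S := fun ε hε => by
  obtain ⟨δ, hδ, h1⟩ := h ε hε
  exact ⟨δ, hδ, fun x hx y hy => h1 x (hS hx) y (hS hy)⟩

/-- `f` is a convex function, twice differentiable with the derivatives `D`, `B`, and `B` is
locally uniformly continuous; `f 0 = 0` and `{f ≤ 1}` is bounded. -/
structure LF (f : X → ℝ) (D : X → X →L[ℝ] ℝ) (B : X → X →L[ℝ] X →L[ℝ] ℝ) (R : ℝ) : Prop where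
  d1 : ∀ x, HasFDerivAt f (D x) x
  d2 : ∀ x, HasFDerivAt D (B x) x
  cvx : ConvexOn ℝ Set.univ f
  f0 : f 0 = 0
  luc : ∀ x, ∃ r : ℝ, 0 < r ∧ UOn B (Metric.ball x r)
  bdd : ∀ x, f x ≤ 1 → ‖x‖ ≤ R

/-- `Q` is an even convex function, twice differentiable with the derivatives `D`, `B`, and `B` is
uniformly continuous on the ball of radius `ρ`; `Q 0 = 0` and `c ≤ Q` on the sphere of radius
`ρ`. -/
structure LQ (Q : X → ℝ) (D : X → X →L[ℝ] ℝ) (B : X → X →L[ℝ] X →L[ℝ] ℝ) (ρ c : ℝ) : Prop where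
  d1 : ∀ x, HasFDerivAt Q (D x) x
  d2 : ∀ x, HasFDerivAt D (B x) x
  cvx : ConvexOn ℝ Set.univ Q
  even : ∀ x, Q (-x) = Q x
  Q0 : Q 0 = 0
  uc : UOn B (Metric.ball 0 ρ)
  hρ : 0 < ρ
  hc : 0 < c
  low : ∀ x, ‖x‖ = ρ → c ≤ Q x

/-- All signed sums of the sequence `y` are bounded by `M`. -/
def WUC (y : ℕ → X) (M : ℝ) : Prop :=
  ∀ (F : Finset ℕ) (s : ℕ → ℝ), (∀ n, s n = 1 ∨ s n = -1) → ‖∑ n ∈ F, s n • y n‖ ≤ M

end Pool.Agent.H47.FD
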