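import Pool.Agent.H47.FD.D0

/-!
# R1: renorming
-/

set_option autoImplicit false

namespace Pool.Agent.H47.FD

open Pool.Agent.H47.SR Pool.Agent.H47.SS

/-- a type synonym -/
def Rn (X : Type) (_ : X → ℝ) : Type := X

instance Rn.addCommGroup {X : Type} [h : AddCommGroup X] (N : X → ℝ) : AddCommGroup (Rn X N) := h

instance Rn.module {X : Type} [AddCommGroup X] [h : Module ℝ X] (N : X → ℝ) : Module ℝ (Rn X N) := h

instance Rn.norm {X : Type} (N : X → ℝ) : Norm (Rn X N) := ⟨N⟩

theorem Rn.core {X : Type} [NormedAddCommGroup X] [NormedSpace ℝ X] {N : X → ℝ} (hN : EqNorm N) :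
    NormedSpace.Core ℝ (Rn X N) := by
  obtain ⟨⟨c, C, hc, hC, hb⟩, ht, hh⟩ := hN
  have h0 : ∀ x : X, 0 ≤ N x := fun x => (mul_nonneg hc.le (norm_nonneg x)).trans (hb x).1
  have h1 : ∀ x : X, N x = 0 ↔ x = 0 := by
    intro x
    constructor
    · intro h
      have h1 := (hb x).1
      rw [h] at h1
      have h2 : ‖x‖ ≤ 0 := by
        by_contra h3
        have := mul_pos hc (not_le.1 h3)
        linarith
      exact norm_le_zero_iff.1 h2
    · intro h
      have h1 := (hb x).2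
      rw [h, norm_zero, mul_zero] at h1
      rw [h]
      exact le_antisymm h1 (h0 0)
  exact ⟨⟨fun x => h0 x, fun t x => hh t x, fun x y => ht x y⟩, fun x => h1 x⟩

/-- the identity -/
def Rn.equiv {X : Type} [NormedAddCommGroup X] [NormedSpace ℝ X] (N : X → ℝ) : X ≃ₗ[ℝ] Rn X N :=
  LinearEquiv.refl ℝ X

/-- ROW R1. `Y` is a type synonym of `X` with the norm `N` (`AddGroupNorm.toNormedAddCommGroup`; use a `def Rn (N : X → ℝ) := X` if needed), `g` is the identity (continuous both ways by the bounds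
in `EqNorm`; `LinearEquiv.toContinuousLinearEquivOfBounds`). -/
theorem exists_renorm {X : Type} [NormedAddCommGroup X] [NormedSpace ℝ X] {N : X → ℝ}
    (hN : EqNorm N) : ∃ (Y : Type) (_ : NormedAddCommGroup Y) (_ : NormedSpace ℝ Y)
      (g : X ≃L[ℝ] Y), ∀ x, ‖g x‖ = N x := by
  have core := Rn.core hN
  obtain ⟨⟨c, C, hc, hC, hb⟩, ht, hh⟩ := hN
  let i1 : NormedAddCommGroup (Rn X N) := NormedAddCommGroup.ofCore core
  let i2 : NormedSpace ℝ (Rn X N) := NormedSpace.ofCore core
  refine ⟨Rn X N, i1, i2, (Rn.equiv N).toContinuousLinearEquivOfBounds C c⁻¹ ?_ ?_, ?_⟩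
  · intro x
    exact (hb x).2
  · intro x
    rw [inv_mul_eq_div, le_div_iff₀ hc, mul_comm]
    exact (hb x).1
  · intro x
    rfl

end Pool.Agent.H47.FD
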