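import Pool.Agent.H47.FD.D0

/-!
# R2: composition with isomorphisms
-/

set_option autoImplicit false

namespace Pool.Agent.H47.FD

open Pool.Agent.H47.SR Pool.Agent.H47.SS

variable {X : Type*} [NormedAddCommGroup X] [NormedSpace ℝ X]
variable {Y : Type*} [NormedAddCommGroup Y] [NormedSpace ℝ Y]

private theorem ne_map (g : X ≃L[ℝ] Y) {x : X} (hx : x ≠ 0) : g x ≠ 0 := fun h =>
  hx (g.injective (h.trans (map_zero g).symm))

private theorem cdAt {N : Y → ℝ} (hN : ContDiffOn ℝ 2 N {x : Y | x ≠ 0}) {y : Y} (hy : y ≠ 0) :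
    ContDiffAt ℝ 2 N y := hN.contDiffAt (isOpen_ne.mem_nhds hy)

private theorem contDiffOn_comp' {N : Y → ℝ} (hN : ContDiffOn ℝ 2 N {x : Y | x ≠ 0}) (g : X ≃L[ℝ] Y) :
    ContDiffOn ℝ 2 (fun x => N (g x)) {x : X | x ≠ 0} := by
  refine hN.comp g.contDiff.contDiffOn fun x hx => ?_
  exact ne_map g hx

private theorem fderiv1 {N : Y → ℝ} (hN : ContDiffOn ℝ 2 N {x : Y | x ≠ 0}) (g : X ≃L[ℝ] Y) {x : X}
    (hx : x ≠ 0) : fderiv ℝ (fun x => N (g x)) x =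
      (fderiv ℝ N (g x)).comp (g : X →L[ℝ] Y) := by
  have h1 : HasFDerivAt N (fderiv ℝ N (g x)) (g x) :=
    ((cdAt hN (ne_map g hx)).differentiableAt (by norm_num)).hasFDerivAt
  have h2 : HasFDerivAt (fun x => g x) (g : X →L[ℝ] Y) x :=
    (g : X →L[ℝ] Y).hasFDerivAt
  exact (h1.comp x h2).fderiv

private theorem fderiv2_comp' {N : Y → ℝ} (hN : ContDiffOn ℝ 2 N {x : Y | x ≠ 0}) (g : X ≃L[ℝ] Y) {x : X}
    (hx : x ≠ 0) (h k : X) :
    fderiv ℝ (fderiv ℝ (fun x => N (g x))) x h k = fderiv ℝ (fderiv ℝ N) (g x) (g h) (g k) := by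
  have hev : fderiv ℝ (fun x => N (g x)) =ᶠ[nhds x]
      fun y => (fderiv ℝ N (g y)).comp (g : X →L[ℝ] Y) := by
    filter_upwards [isOpen_ne.mem_nhds hx] with y hy
    exact fderiv1 hN g hy
  have h1 : HasFDerivAt (fderiv ℝ N) (fderiv ℝ (fderiv ℝ N) (g x)) (g x) := by
    have h3 : ContDiffAt ℝ 1 (fderiv ℝ N) (g x) :=
      (cdAt hN (ne_map g hx)).fderiv_right (by norm_num)
    exact (h3.differentiableAt (by norm_num)).hasFDerivAt
  have h2 : HasFDerivAt (fun x => g x) (g : X →L[ℝ] Y) x :=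
    (g : X →L[ℝ] Y).hasFDerivAt
  have h4 := h1.comp x h2
  have h5 := (((ContinuousLinearMap.compL ℝ X Y ℝ).flip
    (g : X →L[ℝ] Y)).hasFDerivAt (x := fderiv ℝ N (g x))).comp x h4
  have h6 : HasFDerivAt (fun y => (fderiv ℝ N (g y)).comp (g : X →L[ℝ] Y)) _ x := h5
  rw [hev.fderiv_eq, h6.fderiv]
  rfl

private theorem norm_fderiv2_comp_sub_le' {N : Y → ℝ} (hN : ContDiffOn ℝ 2 N {x : Y | x ≠ 0})
    (g : X ≃L[ℝ] Y) {x y : X} (hx : x ≠ 0) (hy : y ≠ 0) {M : ℝ} (hM0 : 0 ≤ M) (hM : ∀ x : X, ‖g x‖ ≤ M * ‖x‖) :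
    ‖fderiv ℝ (fderiv ℝ (fun x => N (g x))) x - fderiv ℝ (fderiv ℝ (fun x => N (g x))) y‖ ≤
      ‖fderiv ℝ (fderiv ℝ N) (g x) - fderiv ℝ (fderiv ℝ N) (g y)‖ * M * M := by
  refine ContinuousLinearMap.opNorm_le_bound _ (by positivity) fun h => ?_
  refine ContinuousLinearMap.opNorm_le_bound _ (by positivity) fun k => ?_
  rw [_root_.sub_apply, _root_.sub_apply, fderiv2_comp' hN g hx, fderiv2_comp' hN g hy]
  have h1 := (fderiv ℝ (fderiv ℝ N) (g x) - fderiv ℝ (fderiv ℝ N) (g y)).le_opNorm₂ (g h) (g k)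
  rw [_root_.sub_apply, _root_.sub_apply] at h1
  refine h1.trans ?_
  calc ‖fderiv ℝ (fderiv ℝ N) (g x) - fderiv ℝ (fderiv ℝ N) (g y)‖ * ‖g h‖ * ‖g k‖
      ≤ ‖fderiv ℝ (fderiv ℝ N) (g x) - fderiv ℝ (fderiv ℝ N) (g y)‖ * (M * ‖h‖) * (M * ‖k‖) := by
        gcongr
        · exact hM h
        · exact hM k
    _ = ‖fderiv ℝ (fderiv ℝ N) (g x) - fderiv ℝ (fderiv ℝ N) (g y)‖ * M * M * ‖h‖ * ‖k‖ := by ring

private theorem zero_ne_one' {N : Y → ℝ} (hE : EqNorm N) : N 0 ≠ 1 := by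
  obtain ⟨⟨c, C, hc, hC, h1⟩, h2, h3⟩ := hE
  have := (h1 0).2
  rw [norm_zero, mul_zero] at this
  intro h
  rw [h] at this
  linarith

/-- ROW R2a. For isometric embeddings this is in Pool/Agent/H47/SR/B1.lean and B2.lean (`contDiffOn_comp`, `norm_fderiv2_comp_sub_le`, `uc_comp`); here
`fderiv ℝ (fderiv ℝ (N ∘ g)) x h k = fderiv ℝ (fderiv ℝ N) (g x) (g h) (g k)`, so the difference at `x`, `y` is at most `‖g‖ ^ 2` times that at `g x`, `g y`. -/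
theorem unifC2_comp {N : Y → ℝ} (hN : EqNorm N) (h : UnifC2 N) (g : X ≃L[ℝ] Y) :
    UnifC2 (fun x => N (g x)) := by
  obtain ⟨M, hM0, hM⟩ : ∃ M : ℝ, 0 < M ∧ ∀ x : X, ‖g x‖ ≤ M * ‖x‖ :=
    ⟨‖(g : X →L[ℝ] Y)‖ + 1, by positivity, fun x =>
      ((g : X →L[ℝ] Y).le_opNorm x).trans
        (mul_le_mul_of_nonneg_right (by linarith) (norm_nonneg _))⟩
  refine ⟨contDiffOn_comp' h.1 g, ?_⟩
  have h0 : N 0 ≠ 1 := zero_ne_one' hN
  refine (Metric.uniformContinuousOn_iff (α := X) (β := X →L[ℝ] X →L[ℝ] ℝ)).2 ?_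
  intro ε hε
  obtain ⟨δ, hδ, h2⟩ :=
    (Metric.uniformContinuousOn_iff (α := Y) (β := Y →L[ℝ] Y →L[ℝ] ℝ)).1 h.2 (ε / (M * M)) (by positivity)
  refine ⟨δ / M, by positivity, fun x hx y hy hxy => ?_⟩
  have hx0 : x ≠ 0 := by
    rintro rfl
    have hx' : N (g 0) = 1 := hx
    rw [map_zero] at hx'
    exact h0 hx'
  have hy0 : y ≠ 0 := by
    rintro rfl
    have hy' : N (g 0) = 1 := hy
    rw [map_zero] at hy'
    exact h0 hy'
  have h3 : dist (g x) (g y) < δ := by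
    rw [dist_eq_norm] at hxy ⊢
    rw [← map_sub]
    have h4 := hM (x - y)
    have h5 : M * ‖x - y‖ < δ := by
      rw [lt_div_iff₀ hM0] at hxy
      linarith [mul_comm M ‖x - y‖]
    exact h4.trans_lt h5
  have h1 := h2 (g x) hx (g y) hy h3
  have h6 : ‖fderiv ℝ (fderiv ℝ N) (g x) - fderiv ℝ (fderiv ℝ N) (g y)‖ < ε / (M * M) :=
    (dist_eq_norm (fderiv ℝ (fderiv ℝ N) (g x)) (fderiv ℝ (fderiv ℝ N) (g y))).symm.trans_lt h1
  have h7 : ‖fderiv ℝ (fderiv ℝ N) (g x) - fderiv ℝ (fderiv ℝ N) (g y)‖ * M * M < ε := by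
    rw [lt_div_iff₀ (by positivity), ← mul_assoc] at h6
    exact h6
  exact (dist_eq_norm (fderiv ℝ (fderiv ℝ (fun x => N (g x))) x)
    (fderiv ℝ (fderiv ℝ (fun x => N (g x))) y)).trans_lt
    ((norm_fderiv2_comp_sub_le' h.1 g hx0 hy0 hM0.le hM).trans_lt h7)

/-- ROW R2b. `EqNorm` by the bounds for `g` and `g.symm`; `UConv` is immediate. -/
theorem pnorm_comp {N : Y → ℝ} (h : PNorm N) (g : X ≃L[ℝ] Y) : PNorm (fun x => N (g x)) := by
  obtain ⟨hE, hU, hC⟩ := h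
  refine ⟨?_, ?_, unifC2_comp hE hC g⟩
  · obtain ⟨⟨c, C, hc, hC', h1⟩, h2, h3⟩ := hE
    obtain ⟨M, hM0, hM⟩ : ∃ M : ℝ, 0 < M ∧ ∀ x : X, ‖g x‖ ≤ M * ‖x‖ :=
      ⟨‖(g : X →L[ℝ] Y)‖ + 1, by positivity, fun x =>
        ((g : X →L[ℝ] Y).le_opNorm x).trans
          (mul_le_mul_of_nonneg_right (by linarith) (norm_nonneg _))⟩
    obtain ⟨m, hm0, hm⟩ : ∃ m : ℝ, 0 < m ∧ ∀ y : Y, ‖g.symm y‖ ≤ m * ‖y‖ :=
      ⟨‖(g.symm : Y →L[ℝ] X)‖ + 1, by positivity, fun y =>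
        ((g.symm : Y →L[ℝ] X).le_opNorm y).trans
          (mul_le_mul_of_nonneg_right (by linarith) (norm_nonneg _))⟩
    refine ⟨⟨c / m, C * M, by positivity, by positivity, fun x => ⟨?_, ?_⟩⟩, fun x y => ?_, fun t x => ?_⟩
    · have h4 := hm (g x)
      rw [g.symm_apply_apply] at h4
      have h5 := (h1 (g x)).1
      rw [div_mul_eq_mul_div, div_le_iff₀ hm0]
      calc c * ‖x‖ ≤ c * (m * ‖g x‖) := by gcongr
        _ = (c * ‖g x‖) * m := by ring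
        _ ≤ N (g x) * m := by gcongr
    · have h5 := (h1 (g x)).2
      calc N (g x) ≤ C * ‖g x‖ := h5
        _ ≤ C * (M * ‖x‖) := by
          have := hM x
          gcongr
        _ = C * M * ‖x‖ := by ring
    · show N (g (x + y)) ≤ N (g x) + N (g y)
      rw [map_add]
      exact h2 _ _
    · show N (g (t • x)) = |t| * N (g x)
      rw [map_smul]
      exact h3 _ _
  · intro ε hε
    obtain ⟨δ, hδ, h⟩ := hU ε hε
    refine ⟨δ, hδ, fun x y hx hy hxy => ?_⟩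
    have h1 := h (g x) (g y) hx hy (by rw [← map_sub]; exact hxy)
    rw [← map_add, ← map_smul] at h1
    exact h1

end Pool.Agent.H47.FD
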