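import Pool.Agent.H47.SS.G2

/-!
# FD: the finite-dimensional form of the question: definitions
-/

set_option autoImplicit false

open Filter Topology ENNReal

namespace Pool.Agent.H47.FD

open Pool.Agent.H47.SR Pool.Agent.H47.SS

instance fact_one_le_three : Fact ((1 : ℝ≥0∞) ≤ 3) := ⟨by norm_num⟩

/-- Estimates for a function `f` with the derivatives `D` and `B`, of the type of the third power
of a norm, with explicit constants. -/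
structure Q3 {E : Type*} [NormedAddCommGroup E] [NormedSpace ℝ E] (C : ℝ) (T : ℝ → ℝ)
    (f : E → ℝ) (D : E → E →L[ℝ] ℝ) (B : E → E →L[ℝ] E →L[ℝ] ℝ) : Prop where
  bf : ∀ x, |f x| ≤ C * ‖x‖ ^ 3
  bD : ∀ x, ‖D x‖ ≤ C * ‖x‖ ^ 2
  bB : ∀ x, ‖B x‖ ≤ C * ‖x‖
  t1 : ∀ x h, |f (x + h) - f x - D x h| ≤ C * (‖x‖ + ‖h‖) * ‖h‖ ^ 2
  t2 : ∀ ε : ℝ, 0 < ε → ∀ x h, ‖D (x + h) - D x - B x h‖ ≤ ε * ‖x‖ * ‖h‖ + T ε * ‖h‖ ^ 2
  t3 : ∀ ε : ℝ, 0 < ε → ∀ x y, ‖B x - B y‖ ≤ ε * ‖x‖ + T ε * ‖x - y‖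

end Pool.Agent.H47.FD
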