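import Pool.Agent.H47.FD.W0

/-!
# W1a: uniform bounds
-/

set_option autoImplicit false

namespace Pool.Agent.H47.FD

open Pool.Agent.H47.SR Pool.Agent.H47.SS

universe u

/-- ROW W1a. Copy of `Pool.Agent.H47.SS.exists_bounds` (Pool/Agent/H47/SS/S1.lean) with `exists_bdd_unif K (fun _ => 0) w`
in place of `exists_bdd`, the constants chosen before `E`, `N`. (`Mod.eqNorm`, `Mod.unifC2`, `abs_fderiv_le`.) -/
theorem exists_bounds_unif (K : ℝ) (w : ℝ → ℝ) (hK : 0 < K) (hw : ∀ ε : ℝ, 0 < ε → 0 < w ε) :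
    ∃ C : ℝ, 0 ≤ C ∧ ∀ (E : Type u) [NormedAddCommGroup E] [NormedSpace ℝ E] (N : E → ℝ),
      Mod K (fun _ => 0) w N →
      (∀ x, |N x ^ 3| ≤ C * ‖x‖ ^ 3) ∧ (∀ x, ‖D3 N x‖ ≤ C * ‖x‖ ^ 2) ∧
        ∀ x, ‖B3 N x‖ ≤ C * ‖x‖ := by
  obtain ⟨L, hL⟩ := exists_bdd_unif.{u} K (fun _ => 0) w hK hw
  refine ⟨6 * K ^ 3 + 3 * (K ^ 2 * |L|), by positivity, fun E _ _ N hM => ?_⟩
  have hN : EqNorm N := hM.eqNorm hK
  have hU : UnifC2 N := hM.unifC2 hw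
  have hb : ∀ x, N x ≤ K * ‖x‖ := hM.upp
  have hf : ∀ {x : E}, x ≠ 0 → ‖fderiv ℝ N x‖ ≤ K := fun hx =>
    s1_norm_fderiv_le hN hU hK.le hb hx
  have hn0 : ∀ y, 0 ≤ N y := fun y => by
    have h1 := hM.low y
    have h2 : 0 ≤ K * N y := (norm_nonneg y).trans h1
    exact nonneg_of_mul_nonneg_right h2 hK
  have hC3 : 0 ≤ K ^ 3 := by positivity
  have hKa : 0 ≤ K ^ 2 * |L| := by positivity
  refine ⟨fun x => ?_, fun x => ?_, fun x => ?_⟩
  · rw [abs_of_nonneg (pow_nonneg (hn0 x) 3)]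
    have h1 : N x ^ 3 ≤ (K * ‖x‖) ^ 3 := pow_le_pow_left₀ (hn0 x) (hb x) 3
    have h2 : 0 ≤ ‖x‖ ^ 3 := by positivity
    have h3 : (K * ‖x‖) ^ 3 = K ^ 3 * ‖x‖ ^ 3 := by ring
    nlinarith
  · by_cases hx : x = 0
    · subst hx
      rw [s1_D30 hN, norm_zero]
      simp
    · unfold D3
      rw [norm_smul, Real.norm_of_nonneg (by positivity)]
      have h1 : N x ^ 2 ≤ (K * ‖x‖) ^ 2 := pow_le_pow_left₀ (hn0 x) (hb x) 2
      have h2 : 0 ≤ ‖x‖ ^ 2 := by positivity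
      calc 3 * N x ^ 2 * ‖fderiv ℝ N x‖ ≤ 3 * (K * ‖x‖) ^ 2 * K := by
            apply mul_le_mul _ (hf hx) (norm_nonneg _) (by positivity)
            linarith
        _ = 3 * K ^ 3 * ‖x‖ ^ 2 := by ring
        _ ≤ (6 * K ^ 3 + 3 * (K ^ 2 * |L|)) * ‖x‖ ^ 2 := by
            apply mul_le_mul_of_nonneg_right _ h2
            linarith
  · by_cases hx : x = 0
    · subst hx
      rw [s1_B30 hN, norm_zero, mul_zero]
      exact (norm_zero (E := E →L[ℝ] E →L[ℝ] ℝ)).le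
    · have hx0 : 0 < ‖x‖ := norm_pos_iff.2 hx
      have h1 : ‖(fderiv ℝ N x).smulRight (fderiv ℝ N x)‖ ≤ K * K := by
        rw [ContinuousLinearMap.norm_smulRight_apply]
        exact mul_le_mul (hf hx) (hf hx) (norm_nonneg _) hK.le
      have h2 : ‖fderiv ℝ (fderiv ℝ N) x‖ ≤ |L| / ‖x‖ := by
        rw [le_div_iff₀ hx0]
        exact (hL E N hM x hx).trans (le_abs_self L)
      have h3 := s1_gen (G := E →L[ℝ] E →L[ℝ] ℝ) (a := 6 * N x) (b := 3 * N x ^ 2) (mul_nonneg (by norm_num) (hn0 x))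
        (by positivity) h1 h2
      refine h3.trans ?_
      have h4 : 6 * N x * (K * K) ≤ 6 * K ^ 3 * ‖x‖ := by
        have h5 := hb x
        have h6 : 0 ≤ K * K := by positivity
        nlinarith [mul_le_mul_of_nonneg_right h5 h6]
      have h7 : 3 * N x ^ 2 * (|L| / ‖x‖) ≤ 3 * (K ^ 2 * |L|) * ‖x‖ := by
        have h8 : N x ^ 2 ≤ (K * ‖x‖) ^ 2 := pow_le_pow_left₀ (hn0 x) (hb x) 2
        have h9 : 0 ≤ |L| / ‖x‖ := by positivity
        calc 3 * N x ^ 2 * (|L| / ‖x‖) ≤ 3 * (K * ‖x‖) ^ 2 * (|L| / ‖x‖) :=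
              mul_le_mul_of_nonneg_right (by linarith) h9
          _ = 3 * (K ^ 2 * |L|) * ‖x‖ := by
              field_simp
      linarith

end Pool.Agent.H47.FD
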