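import Pool.Agent.H47.FD.W1a
import Pool.Agent.H47.FD.W1b

/-!
# W1c: the structure Q3 for the third power of a norm
-/

set_option autoImplicit false

namespace Pool.Agent.H47.FD

open Pool.Agent.H47.SR Pool.Agent.H47.SS

universe u

theorem w1c_nsub {G : Type*} [NormedAddCommGroup G] {a b : G} {α β : ℝ} (ha : ‖a‖ ≤ α) (hb : ‖b‖ ≤ β) :
    ‖a - b‖ ≤ α + β := (norm_sub_le a b).trans (add_le_add ha hb)

/-- points of the segment from `x` to `x + h` -/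
theorem w1c_seg {E : Type*} [NormedAddCommGroup E] [NormedSpace ℝ E] {x h y : E} (hy : y ∈ segment ℝ x (x + h)) :
    ‖x - y‖ ≤ ‖h‖ ∧ ‖y‖ ≤ ‖x‖ + ‖h‖ := by
  rw [segment_eq_image'] at hy
  obtain ⟨s, hs, rfl⟩ := hy
  have h1 : x + h - x = h := by abel
  have h2 : ‖s • h‖ ≤ ‖h‖ := by
    rw [norm_smul, Real.norm_of_nonneg hs.1]
    exact mul_le_of_le_one_left (norm_nonneg h) hs.2
  have h3 : x - (x + s • (x + h - x)) = -(s • h) := by
    rw [h1]
    abel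
  refine ⟨by rw [h3, norm_neg]; exact h2, ?_⟩
  show ‖x + s • (x + h - x)‖ ≤ _
  rw [h1]
  exact (norm_add_le _ _).trans (by linarith)

/-- the mean value inequality on the segment from `x` to `x + h` -/
theorem w1c_mv {E G : Type*} [NormedAddCommGroup E] [NormedSpace ℝ E] [NormedAddCommGroup G] [NormedSpace ℝ G]
    {f : E → G} {f' : E → E →L[ℝ] G} (hf : ∀ x, HasFDerivAt f (f' x) x) {φ : E →L[ℝ] G} {M : ℝ} (x h : E)
    (hb : ∀ y ∈ segment ℝ x (x + h), ‖f' y - φ‖ ≤ M) : ‖f (x + h) - f x - φ h‖ ≤ M * ‖h‖ := by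
  have h1 := Convex.norm_image_sub_le_of_norm_hasFDerivWithin_le' (f := f) (f' := f') (φ := φ)
    (s := segment ℝ x (x + h)) (C := M) (fun y _ => (hf y).hasFDerivWithinAt) hb (convex_segment _ _)
    (left_mem_segment ℝ x (x + h)) (right_mem_segment ℝ x (x + h))
  have h2 : x + h - x = h := by abel
  rwa [h2] at h1

theorem w1c_zero {G : Type*} [NormedAddCommGroup G] (a : G) : a - 0 = a := sub_zero a

/-- ROW W1c. `C` from `exists_bounds_unif`; `T ε = C (2 / η + 1)` with `η` from `B3_hom_unif` for `ε`.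
`t3`: if `‖x - y‖ ≤ η ‖x‖` and `x ≠ 0` use `B3_hom_unif`, otherwise `‖x‖ ≤ ‖x - y‖ / η` and `‖B x - B y‖ ≤ C (2 ‖x‖ + ‖x - y‖)`.
`t2`: mean value inequality for `D3 N` on the segment from `x` to `x + h` (`hasFDerivAt_D3`, `Convex.norm_image_sub_le_of_norm_hasFDerivWithin_le'`) and `t3`;
`t1`: the same for `N ^ 3` (`hasFDerivAt_N3`): `‖D3 N (x + s h) - D3 N x‖ ≤ C (‖x‖ + ‖h‖) ‖h‖` by the mean value inequality and `bB`. -/
theorem exists_q3 (K : ℝ) (w : ℝ → ℝ) (hK : 0 < K) (hw : ∀ ε : ℝ, 0 < ε → 0 < w ε) :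
    ∃ (C : ℝ) (T : ℝ → ℝ), 0 ≤ C ∧ (∀ ε : ℝ, 0 < ε → 0 ≤ T ε) ∧
      ∀ (E : Type u) [NormedAddCommGroup E] [NormedSpace ℝ E] (N : E → ℝ),
        Mod K (fun _ => 0) w N → Q3 C T (fun x => N x ^ 3) (D3 N) (B3 N) := by
  obtain ⟨C, hC, hb⟩ := exists_bounds_unif.{u} K w hK hw
  have hη : ∀ ε : ℝ, ∃ η : ℝ, 0 < η ∧ (0 < ε → ∀ (E : Type u) [NormedAddCommGroup E] [NormedSpace ℝ E] (N : E → ℝ),
      Mod K (fun _ => 0) w N → ∀ x y : E, x ≠ 0 → ‖x - y‖ ≤ η * ‖x‖ → ‖B3 N x - B3 N y‖ ≤ ε * ‖x‖) := by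
    intro ε
    by_cases hε : 0 < ε
    · obtain ⟨η, h1, h2⟩ := B3_hom_unif.{u} K w hK hw ε hε
      exact ⟨η, h1, fun _ => h2⟩
    · exact ⟨1, one_pos, fun h => absurd h hε⟩
  choose η hη0 hη1 using hη
  refine ⟨C, fun ε => C * (2 / η ε + 1), hC, fun ε _ => ?_, fun E _ _ N hM => ?_⟩
  · have h1 := hη0 ε
    positivity
  have hN : EqNorm N := hM.eqNorm hK
  have hU : UnifC2 N := hM.unifC2 hw
  obtain ⟨bf, bD, bB⟩ := hb E N hM
  have t3 : ∀ ε : ℝ, 0 < ε → ∀ x y, ‖B3 N x - B3 N y‖ ≤ ε * ‖x‖ + C * (2 / η ε + 1) * ‖x - y‖ := by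
    intro ε hε x y
    have hη2 := hη0 ε
    have hxy : ‖y‖ ≤ ‖x‖ + ‖x - y‖ := by
      have h1 := norm_sub_le x (x - y)
      rwa [sub_sub_cancel] at h1
    have h0 : ‖B3 N x - B3 N y‖ ≤ C * ‖x‖ + C * ‖y‖ := w1c_nsub (G := E →L[ℝ] E →L[ℝ] ℝ) (bB x) (bB y)
    have hnx := norm_nonneg x
    have hnxy := norm_nonneg (x - y)
    have h3 : C * ‖y‖ ≤ C * (‖x‖ + ‖x - y‖) := mul_le_mul_of_nonneg_left hxy hC
    by_cases hsmall : ‖x - y‖ ≤ η ε * ‖x‖
    · by_cases hx : x = 0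
      · subst hx
        rw [norm_zero] at hsmall h0 hxy ⊢
        have h1 : ‖(0 : E) - y‖ = 0 := by
          rw [mul_zero] at hsmall
          exact le_antisymm hsmall hnxy
        rw [h1] at hxy ⊢
        have h2 : ‖y‖ = 0 := le_antisymm (by linarith) (norm_nonneg y)
        rw [h2] at h0
        linarith
      · have h1 := hη1 ε hε E N hM x y hx hsmall
        have h2 : 0 ≤ C * (2 / η ε + 1) * ‖x - y‖ := by positivity
        linarith
    · push Not at hsmall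
      have h1 : ‖x‖ ≤ 1 / η ε * ‖x - y‖ := by
        rw [one_div, ← div_eq_inv_mul, le_div_iff₀ hη2]
        linarith
      have h2 : C * ‖x‖ ≤ C * (1 / η ε * ‖x - y‖) := mul_le_mul_of_nonneg_left h1 hC
      have h4 : C * (2 / η ε + 1) * ‖x - y‖ = 2 * (C * (1 / η ε * ‖x - y‖)) + C * ‖x - y‖ := by ring
      have h5 : 0 ≤ ε * ‖x‖ := by positivity
      rw [h4]
      linarith
  refine ⟨bf, bD, bB, fun x h => ?_, fun ε hε x h => ?_, t3⟩
  · have hD : ∀ y ∈ segment ℝ x (x + h), ‖D3 N y - D3 N x‖ ≤ C * (‖x‖ + ‖h‖) * ‖h‖ := by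
      intro y hy
      obtain ⟨hy1, hy2⟩ := w1c_seg hy
      have h1 : x + (y - x) = y := by abel
      have h2 := w1c_mv (f := D3 N) (f' := B3 N) (φ := 0) (M := C * (‖x‖ + ‖h‖)) (hasFDerivAt_D3 hN hU) x (y - x)
        (fun z hz => by
          rw [w1c_zero (G := E →L[ℝ] E →L[ℝ] ℝ)]
          obtain ⟨hz1, hz2⟩ := w1c_seg hz
          rw [norm_sub_rev y x] at hz2
          refine (bB z).trans (mul_le_mul_of_nonneg_left ?_ hC)
          linarith)
      rw [h1, ContinuousLinearMap.zero_apply, w1c_zero (G := E →L[ℝ] ℝ), norm_sub_rev y x] at h2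
      exact h2.trans (mul_le_mul_of_nonneg_left hy1 (by positivity))
    have h3 := w1c_mv (f := fun x => N x ^ 3) (f' := D3 N) (φ := D3 N x) (hasFDerivAt_N3 hN hU) x h hD
    rw [Real.norm_eq_abs] at h3
    refine h3.trans (le_of_eq ?_)
    ring
  · have hB : ∀ y ∈ segment ℝ x (x + h), ‖B3 N y - B3 N x‖ ≤ ε * ‖x‖ + C * (2 / η ε + 1) * ‖h‖ := by
      intro y hy
      obtain ⟨hy1, -⟩ := w1c_seg hy
      have h1 := t3 ε hε x y
      have h2 : ‖B3 N y - B3 N x‖ = ‖B3 N x - B3 N y‖ := norm_sub_rev (E := E →L[ℝ] E →L[ℝ] ℝ) _ _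
      rw [h2]
      have h3 : 0 ≤ C * (2 / η ε + 1) := by
        have h4 := hη0 ε
        positivity
      have h4 := mul_le_mul_of_nonneg_left hy1 h3
      linarith
    have h5 := w1c_mv (f := D3 N) (f' := B3 N) (φ := B3 N x) (hasFDerivAt_D3 hN hU) x h hB
    refine h5.trans (le_of_eq ?_)
    ring

end Pool.Agent.H47.FD
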