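import Pool.Agent.H47.FD.W0

/-!
# W2a: Hoelder's inequality in the l_3-sum
-/

set_option autoImplicit false

open Filter Topology ENNReal

namespace Pool.Agent.H47.FD

variable {ι : Type} {E : ι → Type} [∀ i, NormedAddCommGroup (E i)]

/-- ROW W2a1. `lp.norm_rpow_eq_tsum`, `lp.memℓp`, `Memℓp.summable`, `Real.rpow_natCast`, `ENNReal.toReal_ofNat`. -/
theorem cube_eq (x : lp E 3) : Summable (fun i => ‖x i‖ ^ 3) ∧ ‖x‖ ^ 3 = ∑' i, ‖x i‖ ^ 3 := by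
  have h3 : (3 : ℝ≥0∞).toReal = ((3 : ℕ) : ℝ) := by
    rw [ENNReal.toReal_ofNat]
    norm_num
  have hp : 0 < (3 : ℝ≥0∞).toReal := by
    rw [h3]
    norm_num
  have h1 := (lp.memℓp x).summable hp
  have h2 := lp.norm_rpow_eq_tsum hp x
  simp only [h3, Real.rpow_natCast] at h1 h2
  exact ⟨h1, h2⟩

private theorem amgm3 {a b c : ℝ} (ha : 0 ≤ a) (hb : 0 ≤ b) (hc : 0 ≤ c) :
    a * b * c ≤ (a ^ 3 + b ^ 3 + c ^ 3) / 3 := by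
  have h1 : 0 ≤ (a + b + c) * ((a - b) ^ 2 + (b - c) ^ 2 + (c - a) ^ 2) := by positivity
  nlinarith

private theorem zero_case (x y z : lp E 3) (h : ∀ i, ‖x i‖ * ‖y i‖ * ‖z i‖ = 0) :
    Summable (fun i => ‖x i‖ * ‖y i‖ * ‖z i‖) ∧
    ∑' i, ‖x i‖ * ‖y i‖ * ‖z i‖ ≤ ‖x‖ * ‖y‖ * ‖z‖ := by
  simp only [h, tsum_zero]
  exact ⟨summable_zero, by positivity⟩

/-- ROW W2a2. `a b c ≤ (a³ + b³ + c³) / 3` for `a, b, c ≥ 0`, applied to `‖x i‖ / ‖x‖` etc.; if one of the norms is 0 all terms vanish. -/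
theorem holder3 (x y z : lp E 3) : Summable (fun i => ‖x i‖ * ‖y i‖ * ‖z i‖) ∧
    ∑' i, ‖x i‖ * ‖y i‖ * ‖z i‖ ≤ ‖x‖ * ‖y‖ * ‖z‖ := by
  by_cases hx : x = 0
  · refine zero_case x y z fun i => ?_
    rw [hx]
    simp
  by_cases hy : y = 0
  · refine zero_case x y z fun i => ?_
    rw [hy]
    simp
  by_cases hz : z = 0
  · refine zero_case x y z fun i => ?_
    rw [hz]
    simp
  have ha : 0 < ‖x‖ := norm_pos_iff.2 hx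
  have hb : 0 < ‖y‖ := norm_pos_iff.2 hy
  have hc : 0 < ‖z‖ := norm_pos_iff.2 hz
  obtain ⟨sx, ex⟩ := cube_eq x
  obtain ⟨sy, ey⟩ := cube_eq y
  obtain ⟨sz, ez⟩ := cube_eq z
  obtain ⟨g, hg⟩ : ∃ g : ι → ℝ, g = fun i => ‖x‖ * ‖y‖ * ‖z‖ / 3 *
      (‖x i‖ ^ 3 * (‖x‖ ^ 3)⁻¹ + ‖y i‖ ^ 3 * (‖y‖ ^ 3)⁻¹ + ‖z i‖ ^ 3 * (‖z‖ ^ 3)⁻¹) := ⟨_, rfl⟩
  have hgs : HasSum g (‖x‖ * ‖y‖ * ‖z‖) := by
    have h1 := sx.hasSum.mul_right (‖x‖ ^ 3)⁻¹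
    have h2 := sy.hasSum.mul_right (‖y‖ ^ 3)⁻¹
    have h3 := sz.hasSum.mul_right (‖z‖ ^ 3)⁻¹
    rw [← ex, mul_inv_cancel₀ (pow_pos ha 3).ne'] at h1
    rw [← ey, mul_inv_cancel₀ (pow_pos hb 3).ne'] at h2
    rw [← ez, mul_inv_cancel₀ (pow_pos hc 3).ne'] at h3
    have h4 := ((h1.add h2).add h3).mul_left (‖x‖ * ‖y‖ * ‖z‖ / 3)
    have h5 : ‖x‖ * ‖y‖ * ‖z‖ / 3 * (1 + 1 + 1) = ‖x‖ * ‖y‖ * ‖z‖ := by ring
    rw [h5] at h4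
    rw [hg]
    exact h4
  have hle : ∀ i, ‖x i‖ * ‖y i‖ * ‖z i‖ ≤ g i := by
    intro i
    have h1 := amgm3 (a := ‖x i‖ / ‖x‖) (b := ‖y i‖ / ‖y‖) (c := ‖z i‖ / ‖z‖) (by positivity)
      (by positivity) (by positivity)
    have h2 : ‖x i‖ * ‖y i‖ * ‖z i‖ =
        ‖x‖ * ‖y‖ * ‖z‖ * (‖x i‖ / ‖x‖ * (‖y i‖ / ‖y‖) * (‖z i‖ / ‖z‖)) := by
      field_simp
    have h3 : g i = ‖x‖ * ‖y‖ * ‖z‖ *
        (((‖x i‖ / ‖x‖) ^ 3 + (‖y i‖ / ‖y‖) ^ 3 + (‖z i‖ / ‖z‖) ^ 3) / 3) := by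
      rw [hg]
      simp only [div_eq_mul_inv]
      ring
    rw [h2, h3]
    exact mul_le_mul_of_nonneg_left h1 (by positivity)
  have hs : Summable (fun i => ‖x i‖ * ‖y i‖ * ‖z i‖) :=
    Summable.of_nonneg_of_le (fun i => by positivity) hle hgs.summable
  refine ⟨hs, ?_⟩
  rw [← hgs.tsum_eq]
  exact hs.tsum_le_tsum hle hgs.summable

end Pool.Agent.H47.FD
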