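import Pool.Agent.H47.FD.W2a

/-!
# W2b: the derivatives on the l_3-sum
-/

set_option autoImplicit false

open Filter Topology ENNReal

namespace Pool.Agent.H47.FD

variable {ι : Type} {E : ι → Type} [∀ i, NormedAddCommGroup (E i)] [∀ i, NormedSpace ℝ (E i)]

theorem norm_D_le {F : Type*} [NormedAddCommGroup F] [NormedSpace ℝ F] {C : ℝ} {T : ℝ → ℝ}
    {f : F → ℝ} {D : F → F →L[ℝ] ℝ} {B : F → F →L[ℝ] F →L[ℝ] ℝ} (hq : Q3 C T f D B) (x y : F) :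
    ‖D x y‖ ≤ C * (‖x‖ * ‖x‖ * ‖y‖) := by
  have h1 : ‖D x y‖ ≤ ‖D x‖ * ‖y‖ := (D x).le_opNorm y
  have h2 := mul_le_mul_of_nonneg_right (hq.bD x) (norm_nonneg y)
  calc ‖D x y‖ ≤ ‖D x‖ * ‖y‖ := h1
    _ ≤ C * ‖x‖ ^ 2 * ‖y‖ := h2
    _ = C * (‖x‖ * ‖x‖ * ‖y‖) := by ring

theorem norm_B_le {F : Type*} [NormedAddCommGroup F] [NormedSpace ℝ F] {C : ℝ} {T : ℝ → ℝ}
    {f : F → ℝ} {D : F → F →L[ℝ] ℝ} {B : F → F →L[ℝ] F →L[ℝ] ℝ} (hq : Q3 C T f D B) (x y z : F) :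
    ‖B x y z‖ ≤ C * (‖x‖ * ‖y‖ * ‖z‖) := by
  have h1 : ‖B x y z‖ ≤ ‖B x‖ * ‖y‖ * ‖z‖ := (B x).le_opNorm₂ y z
  have h2 : ‖B x‖ * ‖y‖ * ‖z‖ ≤ C * ‖x‖ * ‖y‖ * ‖z‖ :=
    mul_le_mul_of_nonneg_right (mul_le_mul_of_nonneg_right (hq.bB x) (norm_nonneg y))
      (norm_nonneg z)
  calc ‖B x y z‖ ≤ ‖B x‖ * ‖y‖ * ‖z‖ := h1
    _ ≤ C * ‖x‖ * ‖y‖ * ‖z‖ := h2
    _ = C * (‖x‖ * ‖y‖ * ‖z‖) := by ring

/-- ROW W2b. `|D i (x i) (h i)| ≤ C ‖x i‖ ‖x i‖ ‖h i‖`, `|B i (x i) (h i) (k i)| ≤ C ‖x i‖ ‖h i‖ ‖k i‖`, `holder3`; build with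
`LinearMap.mkContinuous` and `LinearMap.mkContinuous₂` (linearity by `Summable.tsum_add`, `tsum_mul_left`). -/
theorem exists_DB (f : ∀ i, E i → ℝ) (D : ∀ i, E i → E i →L[ℝ] ℝ)
    (B : ∀ i, E i → E i →L[ℝ] E i →L[ℝ] ℝ) (C : ℝ) (T : ℝ → ℝ) (hC : 0 ≤ C)
    (h : ∀ i, Q3 C T (f i) (D i) (B i)) :
    ∃ (D' : lp E 3 → lp E 3 →L[ℝ] ℝ) (B' : lp E 3 → lp E 3 →L[ℝ] lp E 3 →L[ℝ] ℝ),
      (∀ x h, D' x h = ∑' i, D i (x i) (h i)) ∧
      (∀ x h k, B' x h k = ∑' i, B i (x i) (h i) (k i)) := by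
  have sD : ∀ x y : lp E 3, Summable fun i => D i (x i) (y i) := fun x y =>
    Summable.of_norm_bounded ((holder3 x x y).1.mul_left C) fun i => norm_D_le (h i) (x i) (y i)
  have sB : ∀ x y z : lp E 3, Summable fun i => B i (x i) (y i) (z i) := fun x y z =>
    Summable.of_norm_bounded ((holder3 x y z).1.mul_left C)
      fun i => norm_B_le (h i) (x i) (y i) (z i)
  have nD : ∀ x y : lp E 3, ‖∑' i, D i (x i) (y i)‖ ≤ C * ‖x‖ ^ 2 * ‖y‖ := by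
    intro x y
    have h1 := tsum_of_norm_bounded ((holder3 x x y).1.hasSum.mul_left C)
      fun i => norm_D_le (h i) (x i) (y i)
    have h2 := mul_le_mul_of_nonneg_left (holder3 x x y).2 hC
    calc ‖∑' i, D i (x i) (y i)‖ ≤ C * ∑' i, ‖x i‖ * ‖x i‖ * ‖y i‖ := h1
      _ ≤ C * (‖x‖ * ‖x‖ * ‖y‖) := h2
      _ = C * ‖x‖ ^ 2 * ‖y‖ := by ring
  have nB : ∀ x y z : lp E 3, ‖∑' i, B i (x i) (y i) (z i)‖ ≤ C * ‖x‖ * ‖y‖ * ‖z‖ := by
    intro x y z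
    have h1 := tsum_of_norm_bounded ((holder3 x y z).1.hasSum.mul_left C)
      fun i => norm_B_le (h i) (x i) (y i) (z i)
    have h2 := mul_le_mul_of_nonneg_left (holder3 x y z).2 hC
    calc ‖∑' i, B i (x i) (y i) (z i)‖ ≤ C * ∑' i, ‖x i‖ * ‖y i‖ * ‖z i‖ := h1
      _ ≤ C * (‖x‖ * ‖y‖ * ‖z‖) := h2
      _ = C * ‖x‖ * ‖y‖ * ‖z‖ := by ring
  let D0 : lp E 3 → lp E 3 →ₗ[ℝ] ℝ := fun x =>
    { toFun := fun y => ∑' i, D i (x i) (y i)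
      map_add' := fun y z => by
        rw [← (sD x y).tsum_add (sD x z)]
        refine tsum_congr fun i => ?_
        rw [lp.coeFn_add, Pi.add_apply, map_add]
      map_smul' := fun t y => by
        rw [RingHom.id_apply, smul_eq_mul, ← tsum_mul_left]
        refine tsum_congr fun i => ?_
        rw [lp.coeFn_smul, Pi.smul_apply, map_smul, smul_eq_mul] }
  let B0 : lp E 3 → lp E 3 →ₗ[ℝ] lp E 3 →ₗ[ℝ] ℝ := fun x =>
    LinearMap.mk₂ ℝ (fun y z => ∑' i, B i (x i) (y i) (z i))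
      (fun y y' z => by
        rw [← (sB x y z).tsum_add (sB x y' z)]
        refine tsum_congr fun i => ?_
        rw [lp.coeFn_add, Pi.add_apply, map_add, ContinuousLinearMap.add_apply])
      (fun t y z => by
        rw [smul_eq_mul, ← tsum_mul_left]
        refine tsum_congr fun i => ?_
        rw [lp.coeFn_smul, Pi.smul_apply, map_smul, ContinuousLinearMap.smul_apply, smul_eq_mul])
      (fun y z z' => by
        rw [← (sB x y z).tsum_add (sB x y z')]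
        refine tsum_congr fun i => ?_
        rw [lp.coeFn_add, Pi.add_apply, map_add])
      (fun t y z => by
        rw [smul_eq_mul, ← tsum_mul_left]
        refine tsum_congr fun i => ?_
        rw [lp.coeFn_smul, Pi.smul_apply, map_smul, smul_eq_mul])
  refine ⟨fun x => (D0 x).mkContinuous (C * ‖x‖ ^ 2) (fun y => nD x y),
    fun x => (B0 x).mkContinuous₂ (C * ‖x‖) (fun y z => nB x y z), fun x y => rfl,
    fun x y z => rfl⟩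

end Pool.Agent.H47.FD
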