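import Pool.Agent.H47.FD.W2a

/-!
# W2c: first derivative on the l_3-sum
-/

set_option autoImplicit false

open Filter Topology ENNReal

namespace Pool.Agent.H47.FD

variable {ι : Type} {E : ι → Type} [∀ i, NormedAddCommGroup (E i)] [∀ i, NormedSpace ℝ (E i)]

/-- a series dominated by a Hoelder product -/
private theorem W2c_dom (C : ℝ) (hC : 0 ≤ C) (x y z : lp E 3) (a : ι → ℝ)
    (ha : ∀ i, |a i| ≤ C * (‖x i‖ * ‖y i‖ * ‖z i‖)) :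
    Summable a ∧ |∑' i, a i| ≤ C * (‖x‖ * ‖y‖ * ‖z‖) := by
  obtain ⟨h1, h2⟩ := holder3 x y z
  have h3 := (h1.mul_left C)
  refine ⟨Summable.of_norm_bounded h3 ha, ?_⟩
  have h4 := tsum_of_norm_bounded (f := a) h3.hasSum (fun i => by rw [Real.norm_eq_abs]; exact ha i)
  rw [Real.norm_eq_abs] at h4
  refine h4.trans ?_
  rw [tsum_mul_left]
  exact mul_le_mul_of_nonneg_left h2 hC

private theorem W2c_q {F : Type*} [NormedAddCommGroup F] [NormedSpace ℝ F] (L : F →L[ℝ] ℝ) (h : F) (c : ℝ)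
    (hL : ‖L‖ ≤ c) : |L h| ≤ c * ‖h‖ := by
  have h1 := L.le_opNorm h
  rw [Real.norm_eq_abs] at h1
  exact h1.trans (mul_le_mul_of_nonneg_right hL (norm_nonneg _))

private theorem W2c_q2 {F : Type*} [NormedAddCommGroup F] [NormedSpace ℝ F] (L : F →L[ℝ] F →L[ℝ] ℝ) (h k : F) (c : ℝ)
    (hL : ‖L‖ ≤ c) : |L h k| ≤ c * ‖h‖ * ‖k‖ := by
  refine W2c_q (L h) k _ ?_
  exact (L.le_opNorm h).trans (mul_le_mul_of_nonneg_right hL (norm_nonneg _))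

private theorem W2c_b {F : Type*} [NormedAddCommGroup F] [NormedSpace ℝ F] (L : F →L[ℝ] ℝ) (c : ℝ) (hc : 0 ≤ c)
    (h : ∀ k, |L k| ≤ c * ‖k‖) : ‖L‖ ≤ c :=
  L.opNorm_le_bound hc fun k => by rw [Real.norm_eq_abs]; exact h k

private theorem W2c_b2 {F : Type*} [NormedAddCommGroup F] [NormedSpace ℝ F] (L : F →L[ℝ] F →L[ℝ] ℝ) (c : ℝ) (hc : 0 ≤ c)
    (h : ∀ k l, |L k l| ≤ c * ‖k‖ * ‖l‖) : ‖L‖ ≤ c :=
  L.opNorm_le_bound hc fun k => W2c_b (L k) _ (mul_nonneg hc (norm_nonneg _)) (h k)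

/-- ROW W2c1. Bounds by `holder3` and `ContinuousLinearMap.opNorm_le_bound`. -/
theorem lp_bounds (f : ∀ i, E i → ℝ) (D : ∀ i, E i → E i →L[ℝ] ℝ)
    (B : ∀ i, E i → E i →L[ℝ] E i →L[ℝ] ℝ) (C : ℝ) (T : ℝ → ℝ) (hC : 0 ≤ C)
    (hQ : ∀ i, Q3 C T (f i) (D i) (B i)) (D' : lp E 3 → lp E 3 →L[ℝ] ℝ)
    (B' : lp E 3 → lp E 3 →L[ℝ] lp E 3 →L[ℝ] ℝ)
    (hD : ∀ x h, D' x h = ∑' i, D i (x i) (h i))
    (hB : ∀ x h k, B' x h k = ∑' i, B i (x i) (h i) (k i)) :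
    (∀ x : lp E 3, |∑' i, f i (x i)| ≤ C * ‖x‖ ^ 3) ∧ (∀ x, ‖D' x‖ ≤ C * ‖x‖ ^ 2) ∧
      ∀ x, ‖B' x‖ ≤ C * ‖x‖ := by
  refine ⟨fun x => ?_, fun x => ?_, fun x => ?_⟩
  · have h1 := (W2c_dom C hC x x x (fun i => f i (x i)) fun i => by
      have := (hQ i).bf (x i)
      calc |f i (x i)| ≤ C * ‖x i‖ ^ 3 := this
        _ = C * (‖x i‖ * ‖x i‖ * ‖x i‖) := by ring).2
    calc |∑' i, f i (x i)| ≤ C * (‖x‖ * ‖x‖ * ‖x‖) := h1
      _ = C * ‖x‖ ^ 3 := by ring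
  · refine W2c_b (D' x) _ (by positivity) fun h => ?_
    rw [hD]
    have h1 := (W2c_dom C hC x x h (fun i => D i (x i) (h i)) fun i => by
      have := W2c_q (D i (x i)) (h i) _ ((hQ i).bD (x i))
      calc |D i (x i) (h i)| ≤ C * ‖x i‖ ^ 2 * ‖h i‖ := this
        _ = C * (‖x i‖ * ‖x i‖ * ‖h i‖) := by ring).2
    calc |∑' i, D i (x i) (h i)| ≤ C * (‖x‖ * ‖x‖ * ‖h‖) := h1
      _ = C * ‖x‖ ^ 2 * ‖h‖ := by ring
  · refine W2c_b2 (B' x) _ (by positivity) fun h k => ?_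
    rw [hB]
    have h1 := (W2c_dom C hC x h k (fun i => B i (x i) (h i) (k i)) fun i => by
      have := W2c_q2 (B i (x i)) (h i) (k i) _ ((hQ i).bB (x i))
      calc |B i (x i) (h i) (k i)| ≤ C * ‖x i‖ * ‖h i‖ * ‖k i‖ := this
        _ = C * (‖x i‖ * ‖h i‖ * ‖k i‖) := by ring).2
    calc |∑' i, B i (x i) (h i) (k i)| ≤ C * (‖x‖ * ‖h‖ * ‖k‖) := h1
      _ = C * ‖x‖ * ‖h‖ * ‖k‖ := by ring

/-- ROW W2c2. `|F (x + h) - F x - D' x h| ≤ ∑' i, C (‖x i‖ + ‖h i‖) ‖h i‖ ^ 2 ≤ C (‖x‖ + ‖h‖) ‖h‖ ^ 2` (`t1`, `holder3`, all the series are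
summable), which is `o(‖h‖)`. -/
theorem lp_d1 (f : ∀ i, E i → ℝ) (D : ∀ i, E i → E i →L[ℝ] ℝ)
    (B : ∀ i, E i → E i →L[ℝ] E i →L[ℝ] ℝ) (C : ℝ) (T : ℝ → ℝ) (hC : 0 ≤ C)
    (hQ : ∀ i, Q3 C T (f i) (D i) (B i)) (D' : lp E 3 → lp E 3 →L[ℝ] ℝ)
    (hD : ∀ x h, D' x h = ∑' i, D i (x i) (h i)) (x : lp E 3) :
    HasFDerivAt (fun x : lp E 3 => ∑' i, f i (x i)) (D' x) x := by
  have hs : ∀ y : lp E 3, Summable fun i => f i (y i) := fun y =>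
    (W2c_dom C hC y y y (fun i => f i (y i)) fun i => by
      have := (hQ i).bf (y i)
      calc |f i (y i)| ≤ C * ‖y i‖ ^ 3 := this
        _ = C * (‖y i‖ * ‖y i‖ * ‖y i‖) := by ring).1
  have hsD : ∀ h : lp E 3, Summable fun i => D i (x i) (h i) := fun h =>
    (W2c_dom C hC x x h (fun i => D i (x i) (h i)) fun i => by
      have := W2c_q (D i (x i)) (h i) _ ((hQ i).bD (x i))
      calc |D i (x i) (h i)| ≤ C * ‖x i‖ ^ 2 * ‖h i‖ := this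
        _ = C * (‖x i‖ * ‖x i‖ * ‖h i‖) := by ring).1
  have key : ∀ h : lp E 3, |(∑' i, f i ((x + h) i)) - (∑' i, f i (x i)) - D' x h| ≤
      C * (‖x‖ * ‖h‖ * ‖h‖) + C * (‖h‖ * ‖h‖ * ‖h‖) := by
    intro h
    rw [hD, ← (hs (x + h)).tsum_sub (hs x), ← ((hs (x + h)).sub (hs x)).tsum_sub (hsD h)]
    have h1 := (holder3 x h h).1.mul_left C
    have h2 := (holder3 h h h).1.mul_left C
    have h3 := tsum_of_norm_bounded (f := fun i => f i ((x + h) i) - f i (x i) - D i (x i) (h i))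
      (h1.hasSum.add h2.hasSum) fun i => by
      have h4 := (hQ i).t1 (x i) (h i)
      rw [Real.norm_eq_abs]
      have h5 : (x + h) i = x i + h i := by rw [lp.coeFn_add, Pi.add_apply]
      rw [h5]
      calc |f i (x i + h i) - f i (x i) - D i (x i) (h i)| ≤ C * (‖x i‖ + ‖h i‖) * ‖h i‖ ^ 2 := h4
        _ = C * (‖x i‖ * ‖h i‖ * ‖h i‖) + C * (‖h i‖ * ‖h i‖ * ‖h i‖) := by ring
    rw [Real.norm_eq_abs] at h3
    refine h3.trans ?_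
    rw [tsum_mul_left, tsum_mul_left]
    exact add_le_add (mul_le_mul_of_nonneg_left (holder3 x h h).2 hC)
      (mul_le_mul_of_nonneg_left (holder3 h h h).2 hC)
  rw [hasFDerivAt_iff_isLittleO_nhds_zero, Asymptotics.isLittleO_iff]
  intro c hc
  have h1 : Tendsto (fun h : lp E 3 => C * (‖x‖ * ‖h‖) + C * (‖h‖ * ‖h‖)) (𝓝 0) (𝓝 0) := by
    have h2 : Continuous fun h : lp E 3 => C * (‖x‖ * ‖h‖) + C * (‖h‖ * ‖h‖) := by fun_prop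
    have h3 := h2.tendsto (0 : lp E 3)
    simpa using h3
  filter_upwards [h1.eventually (gt_mem_nhds hc)] with h hh
  rw [Real.norm_eq_abs]
  refine (key h).trans ?_
  have h4 : C * (‖x‖ * ‖h‖ * ‖h‖) + C * (‖h‖ * ‖h‖ * ‖h‖) = (C * (‖x‖ * ‖h‖) + C * (‖h‖ * ‖h‖)) * ‖h‖ := by ring
  rw [h4]
  exact mul_le_mul_of_nonneg_right hh.le (norm_nonneg _)

end Pool.Agent.H47.FD
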