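import Pool.Agent.H47.FD.W2a

/-!
# W2d: second derivative on the l_3-sum
-/

set_option autoImplicit false

open Filter Topology ENNReal

namespace Pool.Agent.H47.FD

variable {ι : Type} {E : ι → Type} [∀ i, NormedAddCommGroup (E i)] [∀ i, NormedSpace ℝ (E i)]

private theorem W2d_add (x y : lp E 3) (i : ι) : (x + y) i = x i + y i := by
  rw [lp.coeFn_add, Pi.add_apply]

private theorem W2d_sub (x y : lp E 3) (i : ι) : (x - y) i = x i - y i := by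
  rw [lp.coeFn_sub, Pi.sub_apply]

private theorem W2d_D {F : Type*} [NormedAddCommGroup F] [NormedSpace ℝ F] {L : F →L[ℝ] ℝ} {C : ℝ} {x : F}
    (h : ‖L‖ ≤ C * ‖x‖ ^ 2) (k : F) : ‖L k‖ ≤ C * (‖x‖ * ‖x‖ * ‖k‖) := by
  have h1 := L.le_opNorm k
  have h2 := mul_le_mul_of_nonneg_right h (norm_nonneg k)
  refine (h1.trans h2).trans (le_of_eq ?_)
  ring

private theorem W2d_B {F : Type*} [NormedAddCommGroup F] [NormedSpace ℝ F] {L : F →L[ℝ] F →L[ℝ] ℝ} {M : ℝ}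
    (h : ‖L‖ ≤ M) (a k : F) : ‖L a k‖ ≤ M * ‖a‖ * ‖k‖ := by
  have h1 := L.le_opNorm₂ a k
  refine h1.trans ?_
  exact mul_le_mul_of_nonneg_right (mul_le_mul_of_nonneg_right h (norm_nonneg a)) (norm_nonneg k)

private theorem W2d_bd {X G : Type*} [NormedAddCommGroup X] [NormedSpace ℝ X] [NormedAddCommGroup G]
    [NormedSpace ℝ G] (L : X →L[ℝ] G) {M : ℝ} (hM : 0 ≤ M) (h : ∀ k, ‖L k‖ ≤ M * ‖k‖) : ‖L‖ ≤ M :=
  L.opNorm_le_bound hM h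

private theorem W2d_sumD {D : ∀ i, E i → E i →L[ℝ] ℝ} {C : ℝ}
    (h : ∀ i, ∀ x, ‖D i x‖ ≤ C * ‖x‖ ^ 2) (x k : lp E 3) :
    Summable fun i => D i (x i) (k i) := by
  refine Summable.of_norm_bounded (((holder3 x x k).1).mul_left C) fun i => ?_
  exact W2d_D (h i (x i)) (k i)

private theorem W2d_sumB {B : ∀ i, E i → E i →L[ℝ] E i →L[ℝ] ℝ} {C : ℝ}
    (h : ∀ i, ∀ x, ‖B i x‖ ≤ C * ‖x‖) (x a k : lp E 3) :
    Summable fun i => B i (x i) (a i) (k i) := by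
  refine Summable.of_norm_bounded (((holder3 x a k).1).mul_left C) fun i => ?_
  refine (W2d_B (h i (x i)) (a i) (k i)).trans (le_of_eq ?_)
  ring

private theorem W2d_two {g : ι → ℝ} {a b : ℝ} (ha : 0 ≤ a) (hb : 0 ≤ b) (x y u v w z : lp E 3)
    (h : ∀ i, ‖g i‖ ≤ a * (‖x i‖ * ‖y i‖ * ‖u i‖) + b * (‖v i‖ * ‖w i‖ * ‖z i‖)) :
    ‖∑' i, g i‖ ≤ a * (‖x‖ * ‖y‖ * ‖u‖) + b * (‖v‖ * ‖w‖ * ‖z‖) := by
  obtain ⟨s1, h1⟩ := holder3 x y u
  obtain ⟨s2, h2⟩ := holder3 v w z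
  have hs : HasSum (fun i => a * (‖x i‖ * ‖y i‖ * ‖u i‖) + b * (‖v i‖ * ‖w i‖ * ‖z i‖))
      (a * (∑' i, ‖x i‖ * ‖y i‖ * ‖u i‖) + b * ∑' i, ‖v i‖ * ‖w i‖ * ‖z i‖) :=
    (s1.hasSum.mul_left a).add (s2.hasSum.mul_left b)
  refine (tsum_of_norm_bounded hs h).trans ?_
  exact add_le_add (mul_le_mul_of_nonneg_left h1 ha) (mul_le_mul_of_nonneg_left h2 hb)

/-- ROW W2d1. `t2` and `holder3`, `opNorm_le_bound`. -/
theorem lp_t2 (f : ∀ i, E i → ℝ) (D : ∀ i, E i → E i →L[ℝ] ℝ)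
    (B : ∀ i, E i → E i →L[ℝ] E i →L[ℝ] ℝ) (C : ℝ) (T : ℝ → ℝ) (hC : 0 ≤ C)
    (hT : ∀ ε : ℝ, 0 < ε → 0 ≤ T ε)
    (hQ : ∀ i, Q3 C T (f i) (D i) (B i)) (D' : lp E 3 → lp E 3 →L[ℝ] ℝ)
    (B' : lp E 3 → lp E 3 →L[ℝ] lp E 3 →L[ℝ] ℝ)
    (hD : ∀ x h, D' x h = ∑' i, D i (x i) (h i))
    (hB : ∀ x h k, B' x h k = ∑' i, B i (x i) (h i) (k i)) (ε : ℝ) (hε : 0 < ε)
    (x h : lp E 3) : ‖D' (x + h) - D' x - B' x h‖ ≤ ε * ‖x‖ * ‖h‖ + T ε * ‖h‖ ^ 2 := by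
  have hTε := hT ε hε
  have hM : 0 ≤ ε * ‖x‖ * ‖h‖ + T ε * ‖h‖ ^ 2 := by
    have h1 := norm_nonneg x
    have h2 := norm_nonneg h
    positivity
  refine W2d_bd _ hM fun k => ?_
  have e1 : (D' (x + h) - D' x - B' x h) k = D' (x + h) k - D' x k - B' x h k := rfl
  have s1 := W2d_sumD (D := D) (fun i => (hQ i).bD) (x + h) k
  have s2 := W2d_sumD (D := D) (fun i => (hQ i).bD) x k
  have s3 := W2d_sumB (B := B) (fun i => (hQ i).bB) x h k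
  rw [e1, hD, hD, hB, ← s1.tsum_sub s2, ← (s1.sub s2).tsum_sub s3]
  have h1 := W2d_two (E := E) (g := fun i => D i ((x + h) i) (k i) - D i (x i) (k i) - B i (x i) (h i) (k i))
    hε.le hTε x h k h h k (fun i => by
      have h2 := (hQ i).t2 ε hε (x i) (h i)
      have h3 := (D i (x i + h i) - D i (x i) - B i (x i) (h i)).le_opNorm (k i)
      have h4 := mul_le_mul_of_nonneg_right h2 (norm_nonneg (k i))
      have h5 : (D i (x i + h i) - D i (x i) - B i (x i) (h i)) (k i) =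
          D i ((x + h) i) (k i) - D i (x i) (k i) - B i (x i) (h i) (k i) := by
        rw [W2d_add]
        rfl
      rw [h5] at h3
      refine (h3.trans h4).trans (le_of_eq ?_)
      ring)
  refine h1.trans (le_of_eq ?_)
  ring

/-- ROW W2d2. `t3` and `holder3`, `opNorm_le_bound` twice. -/
theorem lp_t3 (f : ∀ i, E i → ℝ) (D : ∀ i, E i → E i →L[ℝ] ℝ)
    (B : ∀ i, E i → E i →L[ℝ] E i →L[ℝ] ℝ) (C : ℝ) (T : ℝ → ℝ) (hC : 0 ≤ C)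
    (hT : ∀ ε : ℝ, 0 < ε → 0 ≤ T ε)
    (hQ : ∀ i, Q3 C T (f i) (D i) (B i))
    (B' : lp E 3 → lp E 3 →L[ℝ] lp E 3 →L[ℝ] ℝ)
    (hB : ∀ x h k, B' x h k = ∑' i, B i (x i) (h i) (k i)) (ε : ℝ) (hε : 0 < ε)
    (x y : lp E 3) : ‖B' x - B' y‖ ≤ ε * ‖x‖ + T ε * ‖x - y‖ := by
  have hTε := hT ε hε
  have hM : 0 ≤ ε * ‖x‖ + T ε * ‖x - y‖ := by
    have h1 := norm_nonneg x
    have h2 := norm_nonneg (x - y)
    positivity
  refine W2d_bd _ hM fun h => ?_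
  refine W2d_bd _ (mul_nonneg hM (norm_nonneg h)) fun k => ?_
  have e1 : ((B' x - B' y) h) k = B' x h k - B' y h k := rfl
  have s1 := W2d_sumB (B := B) (fun i => (hQ i).bB) x h k
  have s2 := W2d_sumB (B := B) (fun i => (hQ i).bB) y h k
  rw [e1, hB, hB, ← s1.tsum_sub s2]
  have h1 := W2d_two (E := E) (g := fun i => B i (x i) (h i) (k i) - B i (y i) (h i) (k i))
    hε.le hTε x h k (x - y) h k (fun i => by
      have h2 := (hQ i).t3 ε hε (x i) (y i)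
      have h3 := W2d_B h2 (h i) (k i)
      have h5 : (B i (x i) - B i (y i)) (h i) (k i) = B i (x i) (h i) (k i) - B i (y i) (h i) (k i) := rfl
      rw [h5] at h3
      rw [W2d_sub]
      refine h3.trans (le_of_eq ?_)
      ring)
  refine h1.trans (le_of_eq ?_)
  ring

/-- ROW W2d3. For `η > 0` take `ε` with `ε ‖x‖ ≤ η / 2`, then `‖h‖` small. (General normed space `G` for the values.) -/
theorem hasFDerivAt_of_t2 {X G : Type*} [NormedAddCommGroup X] [NormedSpace ℝ X]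
    [NormedAddCommGroup G] [NormedSpace ℝ G] {D : X → G} {B : X →L[ℝ] G} {T : ℝ → ℝ} {x : X}
    (h : ∀ ε : ℝ, 0 < ε → ∀ h : X, ‖D (x + h) - D x - B h‖ ≤ ε * ‖x‖ * ‖h‖ + T ε * ‖h‖ ^ 2) :
    HasFDerivAt D B x := by
  rw [hasFDerivAt_iff_isLittleO_nhds_zero, Asymptotics.isLittleO_iff]
  intro c hc
  have hx1 : 0 < ‖x‖ + 1 := by positivity
  have hε : 0 < c / (2 * (‖x‖ + 1)) := by positivity
  have hM : 0 < |T (c / (2 * (‖x‖ + 1)))| + 1 := by positivity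
  have hδ : 0 < c / (2 * (|T (c / (2 * (‖x‖ + 1)))| + 1)) := by positivity
  filter_upwards [Metric.ball_mem_nhds (0 : X) hδ] with k hk
  rw [Metric.mem_ball, dist_zero_right] at hk
  refine (h _ hε k).trans ?_
  have h1 : c / (2 * (‖x‖ + 1)) * ‖x‖ ≤ c / 2 := by
    rw [div_mul_eq_mul_div, div_le_div_iff₀ (by positivity) (by norm_num)]
    nlinarith [norm_nonneg x]
  have h2 : T (c / (2 * (‖x‖ + 1))) * ‖k‖ ≤ c / 2 := by
    have h3 : T (c / (2 * (‖x‖ + 1))) * ‖k‖ ≤ (|T (c / (2 * (‖x‖ + 1)))| + 1) * ‖k‖ :=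
      mul_le_mul_of_nonneg_right ((le_abs_self _).trans (by linarith)) (norm_nonneg k)
    have h4 : (|T (c / (2 * (‖x‖ + 1)))| + 1) * ‖k‖ ≤
        (|T (c / (2 * (‖x‖ + 1)))| + 1) * (c / (2 * (|T (c / (2 * (‖x‖ + 1)))| + 1))) :=
      mul_le_mul_of_nonneg_left hk.le hM.le
    have h5 : (|T (c / (2 * (‖x‖ + 1)))| + 1) * (c / (2 * (|T (c / (2 * (‖x‖ + 1)))| + 1))) = c / 2 := by
      field_simp
    linarith
  calc c / (2 * (‖x‖ + 1)) * ‖x‖ * ‖k‖ + T (c / (2 * (‖x‖ + 1))) * ‖k‖ ^ 2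
      = (c / (2 * (‖x‖ + 1)) * ‖x‖ + T (c / (2 * (‖x‖ + 1))) * ‖k‖) * ‖k‖ := by ring
    _ ≤ (c / 2 + c / 2) * ‖k‖ := mul_le_mul_of_nonneg_right (add_le_add h1 h2) (norm_nonneg k)
    _ = c * ‖k‖ := by ring

end Pool.Agent.H47.FD
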