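import Pool.Agent.H47.FD.W1c
import Pool.Agent.H47.FD.W2b
import Pool.Agent.H47.FD.W2c
import Pool.Agent.H47.FD.W2d

/-!
# W2e: the l_3-sum has an equivalent norm with uniformly continuous second derivative
-/

set_option autoImplicit false

open Filter Topology ENNReal

namespace Pool.Agent.H47.FD

open Pool.Agent.H47.SR Pool.Agent.H47.SS

variable {ι : Type} {E : ι → Type} [∀ i, NormedAddCommGroup (E i)] [∀ i, NormedSpace ℝ (E i)]

/-- ROW W2e1. `N x = (∑' i, ν i (x i) ^ 3) ^ (1/3)`: `(1/M) ‖x‖ ≤ N x ≤ M ‖x‖` by `cube_eq`; triangle inequality by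
`Real.Lp_add_le_tsum_of_nonneg` with `p = 3`. -/
theorem lp_eqNorm {M : ℝ} (hM : 0 < M) {w : ℝ → ℝ} (ν : ∀ i, E i → ℝ)
    (hν : ∀ i, Mod M (fun _ => 0) w (ν i)) :
    EqNorm (fun x : lp E 3 => (∑' i, ν i (x i) ^ 3) ^ (1 / 3 : ℝ)) ∧
      ∀ x : lp E 3, (1 / M ^ 3) * ‖x‖ ^ 3 ≤ ∑' i, ν i (x i) ^ 3 := by
  have hν0 : ∀ i (z : E i), 0 ≤ ν i z := by
    intro i z
    have h1 := (hν i).low z
    have h2 : 0 ≤ M * ν i z := (norm_nonneg z).trans h1
    exact nonneg_of_mul_nonneg_right h2 hM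
  have hM3 : 0 < M ^ 3 := by positivity
  have hup : ∀ i (z : E i), ν i z ^ 3 ≤ M ^ 3 * ‖z‖ ^ 3 := by
    intro i z
    rw [← mul_pow]
    exact pow_le_pow_left₀ (hν0 i z) ((hν i).upp z) 3
  have hlo : ∀ i (z : E i), 1 / M ^ 3 * ‖z‖ ^ 3 ≤ ν i z ^ 3 := by
    intro i z
    have h1 : ‖z‖ ^ 3 ≤ (M * ν i z) ^ 3 := pow_le_pow_left₀ (norm_nonneg z) ((hν i).low z) 3
    rw [mul_pow] at h1
    rw [div_mul_eq_mul_div, one_mul, div_le_iff₀ hM3]
    linarith
  have hsum : ∀ x : lp E 3, Summable (fun i => ν i (x i) ^ 3) := by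
    intro x
    exact Summable.of_nonneg_of_le (fun i => pow_nonneg (hν0 i _) 3) (fun i => hup i (x i))
      ((cube_eq x).1.mul_left (M ^ 3))
  have hSlo : ∀ x : lp E 3, (1 / M ^ 3) * ‖x‖ ^ 3 ≤ ∑' i, ν i (x i) ^ 3 := by
    intro x
    rw [(cube_eq x).2, ← tsum_mul_left]
    exact Summable.tsum_le_tsum (fun i => hlo i (x i)) ((cube_eq x).1.mul_left _) (hsum x)
  have hSup : ∀ x : lp E 3, ∑' i, ν i (x i) ^ 3 ≤ M ^ 3 * ‖x‖ ^ 3 := by
    intro x
    rw [(cube_eq x).2, ← tsum_mul_left]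
    exact Summable.tsum_le_tsum (fun i => hup i (x i)) (hsum x) ((cube_eq x).1.mul_left _)
  have hS0 : ∀ x : lp E 3, 0 ≤ ∑' i, ν i (x i) ^ 3 := fun x => tsum_nonneg (fun i => pow_nonneg (hν0 i _) 3)
  have hroot : ∀ a : ℝ, 0 ≤ a → (a ^ 3) ^ (1 / 3 : ℝ) = a := by
    intro a ha
    have h1 := Real.pow_rpow_inv_natCast ha (n := 3) (by norm_num)
    have h2 : (1 / 3 : ℝ) = ((3 : ℕ) : ℝ)⁻¹ := by norm_num
    rw [h2]
    exact h1
  have hcast : ∀ a : ℝ, a ^ (3 : ℝ) = a ^ 3 := by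
    intro a
    exact Real.rpow_ofNat a 3
  refine ⟨⟨⟨1 / M, M, by positivity, hM, ?_⟩, ?_, ?_⟩, hSlo⟩
  · intro x
    constructor
    · have h1 : (1 / M * ‖x‖) ^ 3 ≤ ∑' i, ν i (x i) ^ 3 := by
        have h2 : (1 / M * ‖x‖) ^ 3 = (1 / M ^ 3) * ‖x‖ ^ 3 := by
          rw [mul_pow, div_pow, one_pow]
        rw [h2]
        exact hSlo x
      have h3 := Real.rpow_le_rpow (by positivity) h1 (by norm_num : (0 : ℝ) ≤ 1 / 3)
      rw [hroot _ (by positivity)] at h3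
      exact h3
    · have h1 : ∑' i, ν i (x i) ^ 3 ≤ (M * ‖x‖) ^ 3 := by
        rw [mul_pow]
        exact hSup x
      have h3 := Real.rpow_le_rpow (hS0 x) h1 (by norm_num : (0 : ℝ) ≤ 1 / 3)
      rw [hroot _ (by positivity)] at h3
      exact h3
  · intro x y
    have hf := hsum x
    have hg := hsum y
    have h1 := Real.Lp_add_le_tsum_of_nonneg (p := 3) (f := fun i => ν i (x i)) (g := fun i => ν i (y i))
      (by norm_num) (fun i => hν0 i _) (fun i => hν0 i _) (by simpa only [hcast] using hf) (by simpa only [hcast] using hg)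
    simp only [hcast] at h1
    have h2 : ∑' i, ν i ((x + y) i) ^ 3 ≤ ∑' i, (ν i (x i) + ν i (y i)) ^ 3 := by
      refine Summable.tsum_le_tsum (fun i => ?_) (hsum (x + y)) h1.1
      exact pow_le_pow_left₀ (hν0 i _) ((hν i).tri (x i) (y i)) 3
    exact (Real.rpow_le_rpow (hS0 (x + y)) h2 (by norm_num : (0 : ℝ) ≤ 1 / 3)).trans h1.2
  · intro r x
    have h1 : ∑' i, ν i ((r • x) i) ^ 3 = |r| ^ 3 * ∑' i, ν i (x i) ^ 3 := by
      rw [← tsum_mul_left]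
      apply tsum_congr
      intro i
      have h2 : ν i ((r • x) i) = |r| * ν i (x i) := (hν i).hom r (x i)
      rw [h2, mul_pow]
    show (∑' i, ν i ((r • x) i) ^ 3) ^ (1 / 3 : ℝ) = |r| * (∑' i, ν i (x i) ^ 3) ^ (1 / 3 : ℝ)
    rw [h1, Real.mul_rpow (by positivity) (hS0 x), hroot _ (abs_nonneg r)]

/-- ROW W2e2. `exists_q3`, `exists_DB`, `lp_bounds`, `lp_d1`, `lp_t2`, `lp_t3`, `hasFDerivAt_of_t2` give the structure `Tw`; then `unifC2_root`. -/
theorem lp_unifC2 {M : ℝ} (hM : 0 < M) {w : ℝ → ℝ} (hw : ∀ ε : ℝ, 0 < ε → 0 < w ε)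
    (ν : ∀ i, E i → ℝ) (hν : ∀ i, Mod M (fun _ => 0) w (ν i)) :
    UnifC2 (fun x : lp E 3 => (∑' i, ν i (x i) ^ 3) ^ (1 / 3 : ℝ)) := by
  obtain ⟨C, T, hC, hT, hall⟩ := exists_q3 M w hM hw
  have hQ : ∀ i, Q3 C T (fun z => ν i z ^ 3) (D3 (ν i)) (B3 (ν i)) := fun i => hall (E i) (ν i) (hν i)
  obtain ⟨D', B', hD, hB⟩ := exists_DB (fun i z => ν i z ^ 3) (fun i => D3 (ν i)) (fun i => B3 (ν i)) C T hC hQ
  obtain ⟨b1, b2, b3⟩ := lp_bounds (fun i z => ν i z ^ 3) (fun i => D3 (ν i)) (fun i => B3 (ν i)) C T hC hQ D' B' hD hB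
  have htw : Tw (fun x : lp E 3 => ∑' i, ν i (x i) ^ 3) D' B' C := by
    refine ⟨?_, ?_, b1, b2, b3, ?_⟩
    · intro x
      exact lp_d1 (fun i z => ν i z ^ 3) (fun i => D3 (ν i)) (fun i => B3 (ν i)) C T hC hQ D' hD x
    · intro x
      exact hasFDerivAt_of_t2 (X := lp E 3) (G := lp E 3 →L[ℝ] ℝ) (T := T)
        (fun ε hε h => lp_t2 (fun i z => ν i z ^ 3) (fun i => D3 (ν i)) (fun i => B3 (ν i)) C T hC hT hQ D' B' hD hB ε hε x h)
    · intro R ε hε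
      obtain ⟨e, he⟩ : ∃ e : ℝ, e = ε / (2 * (|R| + 1)) := ⟨_, rfl⟩
      have hR0 : 0 < |R| + 1 := by
        have := abs_nonneg R
        linarith
      have he0 : 0 < e := by
        rw [he]
        positivity
      have hTe := hT e he0
      refine ⟨ε / (2 * (T e + 1)), by positivity, ?_⟩
      intro x y hx _ hxy
      have h3 := lp_t3 (fun i z => ν i z ^ 3) (fun i => D3 (ν i)) (fun i => B3 (ν i)) C T hC hT hQ B' hB e he0 x y
      have h4 : e * ‖x‖ ≤ ε / 2 := by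
        have h5 : ‖x‖ ≤ |R| + 1 := by
          have := le_abs_self R
          linarith
        calc e * ‖x‖ ≤ e * (|R| + 1) := mul_le_mul_of_nonneg_left h5 he0.le
          _ = ε / 2 := by
            rw [he]
            field_simp
      have h6 : T e * ‖x - y‖ ≤ ε / 2 := by
        calc T e * ‖x - y‖ ≤ (T e + 1) * ‖x - y‖ := mul_le_mul_of_nonneg_right (by linarith) (norm_nonneg _)
          _ ≤ (T e + 1) * (ε / (2 * (T e + 1))) := mul_le_mul_of_nonneg_left hxy (by linarith)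
          _ = ε / 2 := by
            field_simp
      exact h3.trans (by linarith)
  exact unifC2_root htw (by positivity : (0 : ℝ) < 1 / M ^ 3) (lp_eqNorm hM ν hν).2

end Pool.Agent.H47.FD
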