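import Pool.Agent.H47.FD.W2a

/-!
# W3a: gliding hump
-/

set_option autoImplicit false

open Filter Topology ENNReal

namespace Pool.Agent.H47.FD

variable {ι : Type} {E : ι → Type} [∀ i, NormedAddCommGroup (E i)]

theorem w3a_ineq {a b s : ℝ} (ha : 0 ≤ a) (hs : 0 ≤ s) (hb : 0 ≤ b) (h : b ≤ s + a) :
    0 ≤ s ^ 3 - 100 / 121 * (b ^ 3 - 121 * a ^ 3) := by
  have h1 : b ^ 3 ≤ (s + a) ^ 3 := pow_le_pow_left₀ hb h 3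
  have h2 : 0 ≤ (s - 10 * a) ^ 2 * (21 / 100 * s + 6 / 5 * a) :=
    mul_nonneg (sq_nonneg _) (by linarith)
  have h3 : (s - 10 * a) ^ 2 * (21 / 100 * s + 6 / 5 * a)
      = 121 / 100 * s ^ 3 + 121 * a ^ 3 - (s + a) ^ 3 := by ring
  linarith

/-- ROW W3a. Everything with `‖x‖ ^ 3 = ∑' i, ‖x i‖ ^ 3` (`cube_eq`). Let `S` be a finite set with `∑_{i ∉ S} ‖u i‖ ^ 3 ≤ ε ^ 3`. Split
`‖u + y n‖ ^ 3 = ∑_{i ∈ S} + ∑_{i ∉ S}`. The first sum tends to `∑_{i ∈ S} ‖u i‖ ^ 3 ≥ ‖u‖ ^ 3 - ε ^ 3`. For the second: by the triangle inequality in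
`l_3` of the complement, its cube root is `≥ (∑_{i ∉ S} ‖y n i‖ ^ 3)^(1/3) - ε`, and `∑_{i ∉ S} ‖y n i‖ ^ 3 = ‖y n‖ ^ 3 - ∑_{i ∈ S} ‖y n i‖ ^ 3 ≥ c ^ 3 - o(1)`. (One can avoid cube
roots: `b ^ 3 ≤ (1 + t) ^ 2 a ^ 3 + (1 + 1 / t) ^ 2 e ^ 3` for `b ≤ a + e` (convexity), applied to `b = ‖y n i‖`, `a = ‖u i + y n i‖`, `e = ‖u i‖`, with `t` fixed and
then `ε` small.) -/
theorem hump (u : lp E 3) (y : ℕ → lp E 3) (c : ℝ) (hc : 0 < c) (h1 : ∀ n, c ≤ ‖y n‖)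
    (h2 : ∀ i, Tendsto (fun n => y n i) atTop (𝓝 0)) :
    ∃ n, ‖u‖ ^ 3 + c ^ 3 / 2 ≤ ‖u + y n‖ ^ 3 := by
  obtain ⟨su, eu⟩ := cube_eq u
  have hc3 : 0 < c ^ 3 := by positivity
  -- the finite set
  have hS : ∃ S : Finset ι, ‖u‖ ^ 3 - c ^ 3 / 1000 < ∑ i ∈ S, ‖u i‖ ^ 3 := by
    have h3 : Tendsto (fun S : Finset ι => ∑ i ∈ S, ‖u i‖ ^ 3) atTop (𝓝 (‖u‖ ^ 3)) := by
      rw [eu]
      exact su.hasSum
    exact (h3.eventually (lt_mem_nhds (by linarith))).exists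
  obtain ⟨S, hS⟩ := hS
  -- the inequality
  have key : ∀ n, 100 / 121 * c ^ 3 - c ^ 3 / 10 + ∑ i ∈ S, ‖u i + y n i‖ ^ 3
      - 100 / 121 * ∑ i ∈ S, ‖y n i‖ ^ 3 ≤ ‖u + y n‖ ^ 3 := by
    intro n
    obtain ⟨sy, ey⟩ := cube_eq (y n)
    obtain ⟨ss, es⟩ := cube_eq (u + y n)
    have hadd : ∀ i, (u + y n) i = u i + y n i := fun i => rfl
    simp only [hadd] at ss es
    have hsum : HasSum (fun i => ‖u i + y n i‖ ^ 3 - 100 / 121 * (‖y n i‖ ^ 3 - 121 * ‖u i‖ ^ 3))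
        (‖u + y n‖ ^ 3 - 100 / 121 * (‖y n‖ ^ 3 - 121 * ‖u‖ ^ 3)) := by
      rw [es, ey, eu]
      exact ss.hasSum.sub ((sy.hasSum.sub (su.hasSum.mul_left 121)).mul_left (100 / 121))
    have h3 := sum_le_hasSum S (fun i _ => w3a_ineq (norm_nonneg (u i)) (norm_nonneg (u i + y n i))
      (norm_nonneg (y n i)) (by
        have h4 : y n i = (u i + y n i) - u i := by abel
        calc ‖y n i‖ = ‖(u i + y n i) - u i‖ := by rw [← h4]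
          _ ≤ ‖u i + y n i‖ + ‖u i‖ := norm_sub_le _ _)) hsum
    rw [Finset.sum_sub_distrib, ← Finset.mul_sum, Finset.sum_sub_distrib, ← Finset.mul_sum] at h3
    have h5 : c ^ 3 ≤ ‖y n‖ ^ 3 := pow_le_pow_left₀ hc.le (h1 n) 3
    linarith
  -- the limit
  have l1 : Tendsto (fun n => ∑ i ∈ S, ‖u i + y n i‖ ^ 3) atTop (𝓝 (∑ i ∈ S, ‖u i‖ ^ 3)) := by
    refine tendsto_finsetSum S fun i _ => ?_
    have h3 : Tendsto (fun n => u i + y n i) atTop (𝓝 (u i + 0)) := tendsto_const_nhds.add (h2 i)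
    rw [add_zero] at h3
    exact h3.norm.pow 3
  have l2 : Tendsto (fun n => ∑ i ∈ S, ‖y n i‖ ^ 3) atTop (𝓝 0) := by
    have h3 : Tendsto (fun n => ∑ i ∈ S, ‖y n i‖ ^ 3) atTop (𝓝 (∑ i ∈ S, (0 : ℝ))) := by
      refine tendsto_finsetSum S fun i _ => ?_
      have h4 := (h2 i).norm.pow 3
      rw [norm_zero, zero_pow (by norm_num)] at h4
      exact h4
    rwa [Finset.sum_const_zero] at h3
  have l3 : Tendsto (fun n => 100 / 121 * c ^ 3 - c ^ 3 / 10 + ∑ i ∈ S, ‖u i + y n i‖ ^ 3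
      - 100 / 121 * ∑ i ∈ S, ‖y n i‖ ^ 3) atTop
      (𝓝 (100 / 121 * c ^ 3 - c ^ 3 / 10 + ∑ i ∈ S, ‖u i‖ ^ 3 - 100 / 121 * 0)) :=
    (l1.const_add _).sub (l2.const_mul _)
  obtain ⟨n, hn⟩ := (l3.eventually (lt_mem_nhds (show ‖u‖ ^ 3 + c ^ 3 / 2 <
    100 / 121 * c ^ 3 - c ^ 3 / 10 + ∑ i ∈ S, ‖u i‖ ^ 3 - 100 / 121 * 0 by linarith))).exists
  exact ⟨n, hn.le.trans (key n)⟩

end Pool.Agent.H47.FD
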