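import Pool.Agent.H47.FD.W3a

/-!
# W3b: no copies of c_0 in the l_3-sum of finite-dimensional spaces
-/

set_option autoImplicit false

open Filter Topology ENNReal

namespace Pool.Agent.H47.FD

variable {ι : Type} {E : ι → Type} [∀ i, NormedAddCommGroup (E i)] [∀ i, NormedSpace ℝ (E i)]
  [∀ i, FiniteDimensional ℝ (E i)]

/-- The unit vectors of `c_0`. -/
noncomputable def w3e (n : ℕ) : ZeroAtInftyContinuousMap ℕ ℝ where
  toFun := fun k => if k = n then 1 else 0
  continuous_toFun := continuous_of_discreteTopology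
  zero_at_infty' := by
    rw [Filter.cocompact_eq_cofinite]
    refine tendsto_const_nhds.congr' ?_
    have : ∀ᶠ k : ℕ in cofinite, k ≠ n := (Set.finite_singleton n).compl_mem_cofinite
    filter_upwards [this] with k hk
    rw [if_neg hk]

lemma w3e_apply (n k : ℕ) : w3e n k = if k = n then 1 else 0 := rfl

lemma w3_norm_le {f : ZeroAtInftyContinuousMap ℕ ℝ} {C : ℝ} (hC : 0 ≤ C)
    (h : ∀ k, |f k| ≤ C) : ‖f‖ ≤ C := by
  rw [← ZeroAtInftyContinuousMap.norm_toBCF_eq_norm]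
  exact (BoundedContinuousFunction.norm_le hC).2 h

lemma w3_abs_le (f : ZeroAtInftyContinuousMap ℕ ℝ) (k : ℕ) : |f k| ≤ ‖f‖ := by
  rw [← ZeroAtInftyContinuousMap.norm_toBCF_eq_norm]
  exact f.toBCF.norm_coe_le_norm k

lemma w3_sum_norm (F : Finset ℕ) (s : ℕ → ℝ) (hs : ∀ n, |s n| ≤ 1) :
    ‖∑ n ∈ F, s n • w3e n‖ ≤ 1 := by
  refine w3_norm_le zero_le_one fun k => ?_
  have h1 : (∑ n ∈ F, s n • w3e n) k = ∑ n ∈ F, s n * (if k = n then 1 else 0) := by
    induction F using Finset.induction_on with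
    | empty => simp
    | insert a F ha ih =>
      rw [Finset.sum_insert ha, Finset.sum_insert ha, ZeroAtInftyContinuousMap.add_apply, ih]
      rfl
  rw [h1]
  simp only [mul_ite, mul_one, mul_zero, Finset.sum_ite_eq]
  split_ifs
  · exact hs k
  · simp

/-- the images of the unit vectors under a bounded operator into a finite-dimensional space tend to `0` -/
lemma w3_tendsto {G : Type} [NormedAddCommGroup G] [NormedSpace ℝ G] [FiniteDimensional ℝ G]
    (S : ZeroAtInftyContinuousMap ℕ ℝ →L[ℝ] G) :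
    Tendsto (fun n => S (w3e n)) atTop (𝓝 0) := by
  have key : ∀ φ : G →L[ℝ] ℝ, Tendsto (fun n => φ (S (w3e n))) atTop (𝓝 0) := by
    intro φ
    have hb : ∀ F : Finset ℕ, ∑ n ∈ F, |φ (S (w3e n))| ≤ ‖φ‖ * ‖S‖ := by
      intro F
      let s : ℕ → ℝ := fun n => if 0 ≤ φ (S (w3e n)) then 1 else -1
      have hs : ∀ n, |s n| ≤ 1 := by
        intro n
        by_cases h : 0 ≤ φ (S (w3e n))
        · simp [s, h]
        · simp [s, h]
      have h1 : ∑ n ∈ F, |φ (S (w3e n))| = φ (S (∑ n ∈ F, s n • w3e n)) := by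
        rw [map_sum, map_sum]
        refine Finset.sum_congr rfl fun n _ => ?_
        rw [map_smul, map_smul, smul_eq_mul]
        by_cases h : 0 ≤ φ (S (w3e n))
        · simp [s, h, abs_of_nonneg h]
        · have h' := abs_of_neg (not_le.1 h)
          simp [s, h, h']
      rw [h1]
      have h2 : ‖φ (S (∑ n ∈ F, s n • w3e n))‖ ≤ ‖φ‖ * (‖S‖ * 1) :=
        (φ.le_opNorm _).trans (mul_le_mul_of_nonneg_left
          ((S.le_opNorm _).trans (mul_le_mul_of_nonneg_left (w3_sum_norm F s hs)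
            (norm_nonneg _))) (norm_nonneg _))
      rw [mul_one] at h2
      exact (le_abs_self _).trans h2
    have hsum : Summable (fun n => |φ (S (w3e n))|) :=
      summable_of_sum_le (fun n => abs_nonneg _) hb
    have h3 := hsum.tendsto_atTop_zero
    exact squeeze_zero_norm (fun n => le_of_eq (Real.norm_eq_abs _)) h3
  let b := Module.finBasis ℝ G
  have h4 : (fun n => S (w3e n)) = fun n => ∑ j, (b.coord j) (S (w3e n)) • b j := by
    funext n
    exact (b.sum_repr (S (w3e n))).symm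
  rw [h4]
  have h5 : (0 : G) = ∑ j, (0 : ℝ) • b j := by simp
  rw [h5]
  refine tendsto_finsetSum _ fun j _ => ?_
  refine Tendsto.smul_const ?_ _
  exact key (LinearMap.toContinuousLinearMap (b.coord j))

/-- ROW W3b. Let `e n` be the unit vectors of `c_0` (as `ZeroAtInftyContinuousMap ℕ ℝ`; see `c0e` in Pool/Agent/H45/GS/C0.lean), `y n = T (e n)`. `‖∑_{n ∈ F} s n • e n‖ ≤ 1` for
`|s n| ≤ 1`. For `i` and a functional `φ` on `E i`: `∑_{n ∈ F} |φ (y n i)| ≤ ‖φ‖ ‖T‖` (signs), so `φ (y n i) → 0`; as `E i` is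
finite-dimensional `y n i → 0` (coordinates in a basis). With `hump` (applied to the shifted sequences `y (n + m)` to get strictly increasing indices,
or to avoid repetition) choose inductively finite sets `F_m` of indices, `|F_m| = m`, with `‖∑_{n ∈ F_m} y n‖ ^ 3 ≥ m c ^ 3 / 2`; but it is `≤ ‖T‖ ^ 3`. -/
theorem no_c0 : ¬ ∃ T : ZeroAtInftyContinuousMap ℕ ℝ →L[ℝ] lp E 3, ∃ c : ℝ, 0 < c ∧
    ∀ f : ZeroAtInftyContinuousMap ℕ ℝ, c * ‖f‖ ≤ ‖T f‖ := by
  rintro ⟨T, c, hc, hT⟩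
  have he : ∀ n, 1 ≤ ‖w3e n‖ := by
    intro n
    have := w3_abs_le (w3e n) n
    rwa [w3e_apply, if_pos rfl, abs_one] at this
  have hy : ∀ n, c ≤ ‖T (w3e n)‖ := by
    intro n
    have h1 := hT (w3e n)
    have h2 := he n
    nlinarith
  have hi : ∀ i, Tendsto (fun n => (T (w3e n)) i) atTop (𝓝 0) := by
    intro i
    have hb : ∀ f : ZeroAtInftyContinuousMap ℕ ℝ, ‖(T f) i‖ ≤ ‖T‖ * ‖f‖ := fun f =>
      (lp.norm_apply_le_norm (by norm_num) (T f) i).trans (T.le_opNorm f)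
    let S : ZeroAtInftyContinuousMap ℕ ℝ →L[ℝ] E i :=
      LinearMap.mkContinuous
        { toFun := fun f => (T f) i
          map_add' := fun f g => by rw [map_add]; rfl
          map_smul' := fun a f => by rw [map_smul]; rfl } ‖T‖ hb
    exact w3_tendsto S
  have hF : ∀ m : ℕ, ∃ (F : Finset ℕ) (M : ℕ), (∀ n ∈ F, n < M) ∧
      (m : ℝ) * (c ^ 3 / 2) ≤ ‖∑ n ∈ F, T (w3e n)‖ ^ 3 := by
    intro m
    induction m with
    | zero => exact ⟨∅, 0, by simp, by simp⟩
    | succ m ih =>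
      obtain ⟨F, M, h1, h2⟩ := ih
      obtain ⟨n, hn⟩ := hump (∑ n ∈ F, T (w3e n)) (fun n => T (w3e (n + M))) c hc
        (fun n => hy _) (fun i => (hi i).comp (tendsto_add_atTop_nat M))
      have hnF : n + M ∉ F := fun h => by
        have := h1 _ h
        omega
      refine ⟨insert (n + M) F, n + M + 1, ?_, ?_⟩
      · intro k hk
        rcases Finset.mem_insert.1 hk with h | h
        · omega
        · have := h1 _ h
          omega
      · rw [Finset.sum_insert hnF, add_comm (T (w3e (n + M)))]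
        push_cast
        calc ((m : ℝ) + 1) * (c ^ 3 / 2) = (m : ℝ) * (c ^ 3 / 2) + c ^ 3 / 2 := by ring
          _ ≤ ‖∑ n ∈ F, T (w3e n)‖ ^ 3 + c ^ 3 / 2 := by linarith
          _ ≤ _ := hn
  have hup : ∀ F : Finset ℕ, ‖∑ n ∈ F, T (w3e n)‖ ^ 3 ≤ ‖T‖ ^ 3 := by
    intro F
    have h1 : ∑ n ∈ F, T (w3e n) = T (∑ n ∈ F, (fun _ => (1 : ℝ)) n • w3e n) := by
      rw [map_sum]
      simp
    rw [h1]
    refine pow_le_pow_left₀ (norm_nonneg _) ?_ 3
    have h2 := (T.le_opNorm (∑ n ∈ F, (fun _ => (1 : ℝ)) n • w3e n)).trans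
      (mul_le_mul_of_nonneg_left (w3_sum_norm F (fun _ => 1) (fun n => by simp))
        (norm_nonneg T))
    rwa [mul_one] at h2
  obtain ⟨m, hm⟩ := exists_nat_gt (‖T‖ ^ 3 / (c ^ 3 / 2))
  obtain ⟨F, M, -, h2⟩ := hF m
  have h3 : ‖T‖ ^ 3 < (m : ℝ) * (c ^ 3 / 2) := by
    rwa [div_lt_iff₀ (by positivity)] at hm
  linarith [hup F]

end Pool.Agent.H47.FD
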