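import Pool.Agent.H47.FD.W0

/-!
# W4a: the coordinate embeddings
-/

set_option autoImplicit false

open Filter Topology ENNReal

namespace Pool.Agent.H47.FD

variable {ι : Type} {E : ι → Type} [∀ i, NormedAddCommGroup (E i)] [∀ i, NormedSpace ℝ (E i)]

open Classical in
/-- ROW W4a. `lp.single 3 i`, `lp.norm_single`. -/
theorem exists_single (i : ι) : Nonempty (E i →ₗᵢ[ℝ] lp E 3) :=
  ⟨{ toFun := lp.single 3 i
     map_add' := lp.single_add 3 i
     map_smul' := lp.single_smul 3 i
     norm_map' := fun x => lp.norm_single (by norm_num) i x }⟩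

end Pool.Agent.H47.FD
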