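import Pool.Agent.H47.FD.W2a

/-!
# W5a: supports
-/

set_option autoImplicit false

open Filter Topology ENNReal TopologicalSpace

namespace Pool.Agent.H47.FD

variable {ι : Type} {E : ι → Type} [∀ i, NormedAddCommGroup (E i)] [∀ i, NormedSpace ℝ (E i)]

/-- ROW W5a. Let `c` be countable with `Y ⊆ closure c`, `J` the union of the supports of the elements of `c` (countable: `cube_eq`, `Summable.countable_support`). For `y ∈ closure c`, `z ∈ c`, `i ∉ J`:
`‖y i‖ = ‖(y - z) i‖ ≤ ‖y - z‖` (`lp.norm_apply_le_norm`). -/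
theorem exists_countable_support (Y : Submodule ℝ (lp E 3))
    (hY : IsSeparable (Y : Set (lp E 3))) :
    ∃ J : Set ι, J.Countable ∧ ∀ y ∈ Y, ∀ i ∉ J, y i = 0 := by
  obtain ⟨c, hc, hYc⟩ := hY
  refine ⟨⋃ z ∈ c, {i | z i ≠ 0}, hc.biUnion fun z _ => ?_, ?_⟩
  · refine (cube_eq z).1.countable_support.mono fun i hi => ?_
    rw [Function.mem_support]
    exact pow_ne_zero 3 (norm_ne_zero_iff.2 hi)
  · intro y hy i hi
    rw [← norm_le_zero_iff]
    refine le_of_forall_pos_le_add fun e he => ?_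
    obtain ⟨b, hb, hyb⟩ := Metric.mem_closure_iff.1 (hYc hy) e he
    have h1 : b i = 0 := by
      by_contra hne
      exact hi (Set.mem_biUnion hb hne)
    have h2 : (y - b) i = y i := by
      rw [lp.coeFn_sub, Pi.sub_apply, h1, sub_zero]
    have h3 : ‖(y - b) i‖ ≤ ‖y - b‖ := lp.norm_apply_le_norm (by norm_num) (y - b) i
    rw [h2, ← dist_eq_norm] at h3
    linarith

end Pool.Agent.H47.FD
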