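import Pool.Agent.H47.FD.W2a

/-!
# W5b: restriction of the coordinates
-/

set_option autoImplicit false

open Filter Topology ENNReal

namespace Pool.Agent.H47.FD

variable {ι : Type} {E : ι → Type} [∀ i, NormedAddCommGroup (E i)] [∀ i, NormedSpace ℝ (E i)]

/-- ROW W5b. Restrict the coordinates of `y` to `J` (`memℓp_gen`, `cube_eq`, `Summable.subtype`); the norm is preserved: `cube_eq` on both sides, `tsum_subtype_eq_of_support_subset`, and `a ^ 3 = b ^ 3 → a = b` for `a, b ≥ 0`. -/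
theorem exists_restr (J : Set ι) (Y : Submodule ℝ (lp E 3))
    (hY : ∀ y ∈ Y, ∀ i ∉ J, y i = 0) :
    Nonempty (Y →ₗᵢ[ℝ] lp (fun j : J => E j) 3) := by
  have hmem : ∀ y : lp E 3, Memℓp (fun j : J => y j) 3 := by
    intro y
    apply memℓp_gen
    have h1 := (cube_eq y).1.subtype J
    refine h1.congr fun j => ?_
    rw [show (3 : ℝ≥0∞).toReal = ((3 : ℕ) : ℝ) by simp, Real.rpow_natCast]
    rfl
  refine ⟨{ toFun := fun y => ⟨fun j => (y : lp E 3) j, hmem y⟩
            map_add' := ?_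
            map_smul' := ?_
            norm_map' := ?_ }⟩
  · intro x y
    rfl
  · intro c x
    rfl
  · intro y
    have h1 := (cube_eq (y : lp E 3)).2
    have h2 := (cube_eq (E := fun j : J => E j) ⟨fun j => (y : lp E 3) j, hmem y⟩).2
    have h3 : ∑' j : J, ‖(y : lp E 3) j‖ ^ 3 = ∑' i, ‖(y : lp E 3) i‖ ^ 3 := by
      refine tsum_subtype_eq_of_support_subset (f := fun i => ‖(y : lp E 3) i‖ ^ 3) ?_
      intro i hi
      by_contra hiJ
      apply hi
      simp only
      rw [hY y y.2 i hiJ, norm_zero]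
      norm_num
    have h4 : ‖(⟨fun j => (y : lp E 3) j, hmem y⟩ : lp (fun j : J => E j) 3)‖ ^ 3
        = ‖(y : lp E 3)‖ ^ 3 := by
      rw [h2, h1, ← h3]
    exact (pow_left_inj₀ (norm_nonneg _) (norm_nonneg _) three_ne_zero).1 h4

end Pool.Agent.H47.FD
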