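import Pool.Agent.H47.FD.W2e
import Pool.Agent.H47.FD.W3b
import Pool.Agent.H47.FD.W4a
import Pool.Agent.H47.FD.W5a
import Pool.Agent.H47.FD.W5b
import Pool.Agent.H47.SR.G

/-!
# W6: from sums to uniform constants for finite-dimensional spaces
-/

set_option autoImplicit false

open Filter Topology ENNReal TopologicalSpace

namespace Pool.Agent.H47.FD

open Pool.Agent.H47.SR Pool.Agent.H47.SS

theorem locC2_of_unifC2 {X : Type*} [NormedAddCommGroup X] [NormedSpace ℝ X] {N : X → ℝ}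
    (h : UnifC2 N) : LocC2 N :=
  ⟨h.1, fun _ _ => ⟨1, one_pos, h.2.mono Set.inter_subset_left⟩⟩

theorem exists_mod0 {X : Type*} [NormedAddCommGroup X] [NormedSpace ℝ X] {N : X → ℝ}
    (hN : EqNorm N) (hU : UnifC2 N) : ∃ (M : ℝ) (w : ℝ → ℝ), 0 < M ∧ (∀ ε : ℝ, 0 < ε → 0 < w ε) ∧
      Mod M (fun _ => 0) w N := by
  obtain ⟨⟨c, C, hc, hC, h1⟩, h2, h3⟩ := hN
  obtain ⟨h5, h6⟩ := hU
  replace h6 := (Metric.uniformContinuousOn_iff (α := X) (β := X →L[ℝ] X →L[ℝ] ℝ)).1 h6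
  have hω : ∀ ε : ℝ, ∃ d : ℝ, 0 < ε → 0 < d ∧ ∀ x y : X, N x = 1 → N y = 1 → ‖x - y‖ ≤ d →
      ‖fderiv ℝ (fderiv ℝ N) x - fderiv ℝ (fderiv ℝ N) y‖ ≤ ε := by
    intro ε
    by_cases hε : 0 < ε
    · obtain ⟨d, hd, h⟩ := h6 ε hε
      refine ⟨d / 2, fun _ => ⟨by linarith, fun x y hx hy hxy => ?_⟩⟩
      have h8 := h x hx y hy (by rw [dist_eq_norm]; linarith)
      exact ((dist_eq_norm (fderiv ℝ (fderiv ℝ N) x) (fderiv ℝ (fderiv ℝ N) y)).symm.trans_lt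
        h8).le
    · exact ⟨0, fun h => absurd h hε⟩
  choose ω hω' using hω
  refine ⟨max C c⁻¹, ω, lt_of_lt_of_le hC (le_max_left _ _), fun ε hε => (hω' ε hε).1, ?_⟩
  have hN0 : ∀ x, 0 ≤ N x := fun x => le_trans (by positivity) (h1 x).1
  refine ⟨fun x => ?_, fun x => ?_, h2, h3, fun ε hε x y hx hy _ => ?_, h5,
    fun ε hε => (hω' ε hε).2⟩
  · have h7 : ‖x‖ ≤ c⁻¹ * N x := by
      rw [le_inv_mul_iff₀ hc]
      exact (h1 x).1
    exact h7.trans (mul_le_mul_of_nonneg_right (le_max_right _ _) (hN0 x))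
  · exact (h1 x).2.trans (mul_le_mul_of_nonneg_right (le_max_left _ _) (norm_nonneg _))
  · rw [h3, abs_of_pos (by norm_num : (0 : ℝ) < 1 / 2)]
    have := h2 x y
    linarith

/-- The norm of `E` is `C²` off the origin and its second derivative has the modulus of
continuity `w` on the unit sphere. -/
def Smooth (w : ℝ → ℝ) (E : Type) [NormedAddCommGroup E] [NormedSpace ℝ E] : Prop :=
  ContDiffOn ℝ 2 (fun x : E => ‖x‖) {x : E | x ≠ 0} ∧
    ∀ ε : ℝ, 0 < ε → ∀ x y : E, ‖x‖ = 1 → ‖y‖ = 1 → ‖x - y‖ ≤ w ε →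
      ‖fderiv ℝ (fderiv ℝ (fun x : E => ‖x‖)) x -
        fderiv ℝ (fderiv ℝ (fun x : E => ‖x‖)) y‖ ≤ ε

theorem Smooth.mod {w : ℝ → ℝ} {E : Type} [NormedAddCommGroup E] [NormedSpace ℝ E]
    (h : Smooth w E) : Mod 1 (fun _ => 0) w (fun x : E => ‖x‖) := by
  refine ⟨fun x => by simp, fun x => by simp, norm_add_le, fun t x => norm_smul t x,
    fun ε _ x y hx hy _ => ?_, h.1, h.2⟩
  rw [norm_smul, Real.norm_eq_abs, abs_of_pos (by norm_num : (0 : ℝ) < 1 / 2)]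
  have := norm_add_le x y
  linarith

theorem smooth_sub {w : ℝ → ℝ} {E : Type} [NormedAddCommGroup E] [NormedSpace ℝ E]
    (h : Smooth w E) (F : Submodule ℝ E) : Smooth w F := by
  have h1 := h.mod.comp F.subtypeₗᵢ
  exact ⟨h1.c2, h1.cnt⟩

theorem exists_smooth {E : Type} [NormedAddCommGroup E] [NormedSpace ℝ E]
    (h : UnifC2 (fun x : E => ‖x‖)) : ∃ w : ℝ → ℝ, (∀ ε : ℝ, 0 < ε → 0 < w ε) ∧ Smooth w E := by
  have hE : EqNorm (fun x : E => ‖x‖) :=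
    ⟨⟨1, 1, one_pos, one_pos, fun x => by simp⟩, norm_add_le, fun t x => norm_smul t x⟩
  obtain ⟨M, w, -, hw, h1⟩ := exists_mod0 hE h
  exact ⟨w, hw, h1.c2, h1.cnt⟩

/-- If the conclusion holds for all `ℓ₃`-sums of countable families of finite-dimensional spaces
whose norms have the modulus `w`, then there are common constants in the conclusion for all
finite-dimensional spaces whose norms have the modulus `w`. -/
theorem fin_of_sums {w : ℝ → ℝ}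
    (h : ∀ (ι : Type) [Countable ι] (E : ι → Type) [∀ i, NormedAddCommGroup (E i)]
      [∀ i, NormedSpace ℝ (E i)] [∀ i, FiniteDimensional ℝ (E i)],
      (∀ i, Smooth w (E i)) → ∃ N : lp E 3 → ℝ, PNorm N) :
    ∃ (K : ℝ) (δ ω : ℝ → ℝ), 0 < K ∧ (∀ ε : ℝ, 0 < ε → 0 < δ ε ∧ 0 < ω ε) ∧
      ∀ (E : Type) [NormedAddCommGroup E] [NormedSpace ℝ E] [FiniteDimensional ℝ E],
        Smooth w E → ∃ N : E → ℝ, Mod K δ ω N := by
  by_contra hcon
  push Not at hcon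
  let ι : Type := {t : ℝ × (ℝ → ℝ) × (ℝ → ℝ) // 0 < t.1 ∧
    ∀ ε : ℝ, 0 < ε → 0 < t.2.1 ε ∧ 0 < t.2.2 ε}
  have h1 : ∀ i : ι, ∃ (E : Type) (_ : NormedAddCommGroup E) (_ : NormedSpace ℝ E),
      FiniteDimensional ℝ E ∧ Smooth w E ∧
        ∀ N : E → ℝ, ¬ Mod i.1.1 i.1.2.1 i.1.2.2 N := fun i =>
    hcon i.1.1 i.1.2.1 i.1.2.2 i.2.1 i.2.2
  choose E e1 e2 e3 hν hbad using h1
  obtain ⟨N, hN⟩ := separably_determined (X := lp E 3) (fun Y _ hsep => by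
    obtain ⟨J, hJ, hs⟩ := exists_countable_support Y hsep
    obtain ⟨g⟩ := exists_restr J Y hs
    haveI : Countable J := hJ
    obtain ⟨N, hN⟩ := h J (fun j : J => E j) (fun j => hν j)
    obtain ⟨K, δ, ω, hK, hp, hM⟩ := hN.exists_mod
    exact ⟨_, (hM.comp g).pnorm hK (fun ε hε => (hp ε hε).1) (fun ε hε => (hp ε hε).2)⟩)
  obtain ⟨K, δ, ω, hK, hp, hM⟩ := hN.exists_mod
  let i : ι := ⟨(K, δ, ω), hK, hp⟩
  obtain ⟨g⟩ := exists_single (E := E) i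
  exact hbad i _ (hM.comp g)

/-- The `ℓ₃`-sum satisfies the hypothesis of the question. -/
theorem sum_hyp {w : ℝ → ℝ} (hw : ∀ ε : ℝ, 0 < ε → 0 < w ε) {ι : Type}
    {E : ι → Type} [∀ i, NormedAddCommGroup (E i)] [∀ i, NormedSpace ℝ (E i)]
    (h : ∀ i, Smooth w (E i)) : ∃ N : lp E 3 → ℝ, EqNorm N ∧ LocC2 N :=
  ⟨_, (lp_eqNorm one_pos _ (fun i => (h i).mod)).1,
    locC2_of_unifC2 (lp_unifC2 one_pos hw _ (fun i => (h i).mod))⟩

end Pool.Agent.H47.FD
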